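import Pool.Agent.W_MP_a3c811_h79.Lap.Aniso

/-! Restriction of two commuting `sl2`-triples and a differential to a rational subspace. -/

noncomputable section

set_option linter.unusedSectionVars false

namespace Pool.Agent.HD82

open Module Pool.Agent.H79L

universe v w

variable {K : Type v} [Field K] [CharZero K] {E : Type w} [AddCommGroup E] [Module K E]
  [Module ℚ E] [IsScalarTower ℚ K E] (V : Submodule ℚ E)

/-- the restriction of a `K`-linear map to a stable rational subspace -/
def rs (T : Module.End K E) (h : ∀ x ∈ V, T x ∈ V) : Module.End ℚ V :=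
  (T.restrictScalars ℚ).restrict h

lemma rs_apply (T : Module.End K E) (h : ∀ x ∈ V, T x ∈ V) (x : V) :
    ((rs V T h x : V) : E) = T x := rfl

lemma rs_pow (T : Module.End K E) (h : ∀ x ∈ V, T x ∈ V) (r : ℕ) (x : V) :
    (((rs V T h ^ r) x : V) : E) = (T ^ r) (x : E) := by
  induction r with
  | zero => rfl
  | succ r ih => rw [pow_succ', pow_succ', Module.End.mul_apply, Module.End.mul_apply, rs_apply, ih]

lemma int_smul_eq (p : ℤ) (y : E) : ((p : ℤ) : ℚ) • y = ((p : ℤ) : K) • y := by
  rw [← algebraMap_smul K ((p : ℤ) : ℚ) y]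
  simp

theorem bi_rs {N f L g d : Module.End K E} {n : ℤ} {s t : ℤ → Module.End K E} {P D : Finset ℤ}
    (h : Bi N f L g d n s t P D) (hN : ∀ x ∈ V, N x ∈ V) (hf : ∀ x ∈ V, f x ∈ V)
    (hL : ∀ x ∈ V, L x ∈ V) (hg : ∀ x ∈ V, g x ∈ V) (hd : ∀ x ∈ V, d x ∈ V)
    (hs : ∀ p, ∀ x ∈ V, s p x ∈ V) (ht : ∀ w, ∀ x ∈ V, t w x ∈ V) :
    Bi (rs V N hN) (rs V f hf) (rs V L hL) (rs V g hg) (rs V d hd) n
      (fun p => rs V (s p) (hs p)) (fun w => rs V (t w) (ht w)) P D := by
  have e : ∀ {A B : Module.End K E}, A = B → ∀ x : V, A (x : E) = B (x : E) := by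
    rintro A _ rfl x
    rfl
  refine ⟨⟨?_, fun p => ?_, fun p p' hp => ?_, fun p => ?_, fun p => ?_, fun p => ?_⟩, ?_,
    fun w => ?_, fun w w' hw => ?_, fun w p => ?_, fun w => ?_, fun w => ?_, fun w => ?_,
    fun p => ?_, fun p => ?_, fun w => ?_, fun w => ?_, ?_, ?_, ?_, ?_, fun p => ?_, fun w => ?_,
    ?_, ?_, ?_⟩
  · refine LinearMap.ext fun x => Subtype.ext ?_
    rw [LinearMap.sum_apply, Submodule.coe_sum]
    have h1 := e h.sl.sum x
    rw [LinearMap.sum_apply] at h1
    exact h1
  · exact LinearMap.ext fun x => Subtype.ext (e (h.sl.idem p) x)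
  · exact LinearMap.ext fun x => Subtype.ext (e (h.sl.orth p p' hp) x)
  · refine LinearMap.ext fun x => Subtype.ext ?_
    have h1 := e (h.sl.h p) x
    rw [LinearMap.smul_apply, Submodule.coe_smul, int_smul_eq (K := K)]
    exact h1
  · exact LinearMap.ext fun x => Subtype.ext (e (h.sl.Ns p) x)
  · exact LinearMap.ext fun x => Subtype.ext (e (h.sl.fs p) x)
  · refine LinearMap.ext fun x => Subtype.ext ?_
    rw [LinearMap.sum_apply, Submodule.coe_sum]
    have h1 := e h.sumt x
    rw [LinearMap.sum_apply] at h1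
    exact h1
  · exact LinearMap.ext fun x => Subtype.ext (e (h.idemt w) x)
  · exact LinearMap.ext fun x => Subtype.ext (e (h.ortht w w' hw) x)
  · exact LinearMap.ext fun x => Subtype.ext (e (h.st w p) x)
  · refine LinearMap.ext fun x => Subtype.ext ?_
    have h1 := e (h.ht w) x
    rw [LinearMap.smul_apply, Submodule.coe_smul, int_smul_eq (K := K)]
    exact h1
  · exact LinearMap.ext fun x => Subtype.ext (e (h.Lt w) x)
  · exact LinearMap.ext fun x => Subtype.ext (e (h.gt w) x)
  · exact LinearMap.ext fun x => Subtype.ext (e (h.Ls p) x)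
  · exact LinearMap.ext fun x => Subtype.ext (e (h.gs p) x)
  · exact LinearMap.ext fun x => Subtype.ext (e (h.Nt w) x)
  · exact LinearMap.ext fun x => Subtype.ext (e (h.ft w) x)
  · exact LinearMap.ext fun x => Subtype.ext (e h.NL x)
  · exact LinearMap.ext fun x => Subtype.ext (e h.Ng x)
  · exact LinearMap.ext fun x => Subtype.ext (e h.fL x)
  · exact LinearMap.ext fun x => Subtype.ext (e h.fg x)
  · exact LinearMap.ext fun x => Subtype.ext (e (h.ds p) x)
  · exact LinearMap.ext fun x => Subtype.ext (e (h.dt w) x)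
  · exact LinearMap.ext fun x => Subtype.ext (e h.dd x)
  · exact LinearMap.ext fun x => Subtype.ext (e h.Nd x)
  · exact LinearMap.ext fun x => Subtype.ext (e h.Ld x)

end Pool.Agent.HD82
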