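import Pool.Agent.W_f569db_hd.Defs
import Pool.Agent.W_a3c811_h62.Joint

/-! The `ℚ`-space of the classes of cycles. -/

noncomputable section

set_option linter.unusedSectionVars false

namespace Pool.Agent.HD82

open Pool.Agent.WeilH_h6 Pool.Agent.WeilH_h6.VarClass Pool.Agent.H62D Pool.Agent.H62A
  Pool.Agent.H62S

universe u v w

variable {k : Type u} [Field k] {𝒱 : VarClass k} {K : Type v} [Field K] [CharZero K]
  (W : Weil.{u, v, w} 𝒱 K)

/-- `H(X)` as a `ℚ`-space -/
abbrev ratH (X : 𝒱.Obj) : Module ℚ (W.H X) := Module.compHom (W.H X) (algebraMap ℚ K)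

attribute [local instance] ratH

lemma ratH_smul {X : 𝒱.Obj} (q : ℚ) (x : W.H X) : q • x = (q : K) • x := rfl

instance ratH_tower (X : 𝒱.Obj) : IsScalarTower ℚ K (W.H X) where
  smul_assoc q c x := by
    rw [ratH_smul, ← mul_smul, Rat.smul_def]

/-- the `ℚ`-space of the classes of cycles on `X` -/
def clQ (X : 𝒱.Obj) : Submodule ℚ (W.H X) where
  carrier := {x | ∃ z : TCyc X, clT W z = x}
  add_mem' := by
    rintro _ _ ⟨z, rfl⟩ ⟨z', rfl⟩
    exact ⟨z + z', clT_add W z z'⟩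
  zero_mem' := ⟨0, by
    have := clT_smul W (0 : ℚ) (0 : TCyc X)
    rw [zero_smul] at this
    rw [this]; simp⟩
  smul_mem' := by
    rintro q _ ⟨z, rfl⟩
    exact ⟨q • z, clT_smul W q z⟩

lemma cl_mem_clQ {X : 𝒱.Obj} {i : ℕ} (z : Cyc X i) : W.cl z ∈ clQ W X :=
  ⟨Pi.single i z, clT_single W z⟩

variable {J : Type} (Y : J → 𝒱.Obj)

/-- the `ℚ`-space of tuples of classes of cycles -/
def tclQ : Submodule ℚ (Tot W Y) := Submodule.pi Set.univ fun a => clQ W (Y a)

lemma mem_tclQ {x : Tot W Y} : x ∈ tclQ W Y ↔ IsCl W Y x := by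
  constructor
  · intro h a
    exact h a (Set.mem_univ a)
  · intro h a _
    exact h a

end Pool.Agent.HD82
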