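import Pool.Agent.W_f569db_hd.BiK
import Pool.Agent.W_f569db_hd.BiQ
import Pool.Agent.W_f569db_hd.RatM

/-! The operators of the `E_1`-term preserve classes of cycles; the form is rational on them. -/

noncomputable section

set_option linter.unusedSectionVars false

namespace Pool.Agent.HD82

open Module Pool.Agent.WeilH_h6 Pool.Agent.WeilH_h6.VarClass Pool.Agent.H62D Pool.Agent.H62A
  Pool.Agent.H62S Pool.Agent.H79L

universe u v w

variable {k : Type u} [Field k] {𝒱 : VarClass k} {K : Type v} [Field K]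
  [CharZero K] (W : Weil.{u, v, w} 𝒱 K)

attribute [local instance] ratH

section one

/-- induction for classes of cycles -/
lemma clQ_induction {X : 𝒱.Obj} {P : W.H X → Prop} (h0 : P 0)
    (ha : ∀ x y, P x → P y → P (x + y)) (hc : ∀ (i : ℕ) (z : Cyc X i), P (W.cl z)) {x : W.H X}
    (hx : x ∈ clQ W X) : P x := by
  obtain ⟨z, rfl⟩ := hx
  unfold clT
  exact Finset.sum_induction _ P ha h0 fun i _ => hc i (z i)

lemma mul_mem_clQ {X : 𝒱.Obj} {x y : W.H X} (hx : x ∈ clQ W X) (hy : y ∈ clQ W X) :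
    x * y ∈ clQ W X := by
  refine clQ_induction W (P := fun x => x * y ∈ clQ W X) ?_ ?_ ?_ hx
  · rw [zero_mul]; exact Submodule.zero_mem _
  · intro a b ha hb
    rw [add_mul]; exact Submodule.add_mem _ ha hb
  · intro i z
    refine clQ_induction W (P := fun y => W.cl z * y ∈ clQ W X) ?_ ?_ ?_ hy
    · rw [mul_zero]; exact Submodule.zero_mem _
    · intro a b ha hb
      rw [mul_add]; exact Submodule.add_mem _ ha hb
    · intro j z'
      obtain ⟨t, ht⟩ := W.alg_mul X i j z z'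
      have ht' : W.cl t = W.cl z * W.cl z' := ht
      rw [← ht']
      exact cl_mem_clQ W t

lemma pow_mul_mem_clQ {X : 𝒱.Obj} {x y : W.H X} (hx : x ∈ clQ W X) (hy : y ∈ clQ W X) (r : ℕ) :
    x ^ r * y ∈ clQ W X := by
  induction r with
  | zero => rw [pow_zero, one_mul]; exact hy
  | succ r ih => rw [pow_succ', mul_assoc]; exact mul_mem_clQ W hx ih

lemma clQ_le_algSpan {X : 𝒱.Obj} {x : W.H X} (hx : x ∈ clQ W X) : x ∈ W.algSpan X := by
  obtain ⟨z, rfl⟩ := hx
  exact clT_mem_algSpan W z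

lemma deg_rat {X : 𝒱.Obj} {x : W.H X} (hx : x ∈ clQ W X) : ∃ q : ℚ, W.deg x = (q : K) := by
  obtain ⟨z, rfl⟩ := hx
  exact ⟨_, tr_clT W z⟩

lemma kapZ_mem_clQ {X : 𝒱.Obj} {x : W.H X} (hx : x ∈ clQ W X) (n : ℤ) :
    kapZ W X n x ∈ clQ W X := by
  refine clQ_induction W (P := fun x => kapZ W X n x ∈ clQ W X) ?_ ?_ ?_ hx
  · rw [map_zero]; exact Submodule.zero_mem _
  · intro a b ha hb
    rw [map_add]; exact Submodule.add_mem _ ha hb
  · intro i z
    have hz : W.cl z ∈ gradZ W X ((2 * i : ℕ) : ℤ) := by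
      unfold gradZ
      rw [if_pos (by omega), Int.toNat_natCast]
      exact W.cl_mem_grad z
    by_cases h : ((2 * i : ℕ) : ℤ) = n
    · rw [← h, kapZ_of_mem W hz]; exact cl_mem_clQ W z
    · rw [kapZ_of_mem_ne W h hz]; exact Submodule.zero_mem _

/-- a homogeneous class of a cycle is the class of a homogeneous cycle -/
lemma exists_cyc {X : 𝒱.Obj} {x : W.H X} (hx : x ∈ clQ W X) {m : ℤ} (hm : x ∈ gradZ W X m)
    (hx0 : x ≠ 0) : ∃ (i : ℕ) (z : Cyc X i), (2 * i : ℤ) = m ∧ W.cl z = x := by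
  obtain ⟨z, rfl⟩ := hx
  have h1 : kapZ W X m (clT W z) = clT W z := kapZ_of_mem W hm
  have hz : ∀ i, W.cl (z i) ∈ gradZ W X ((2 * i : ℕ) : ℤ) := by
    intro i
    unfold gradZ
    rw [if_pos (by omega), Int.toNat_natCast]
    exact W.cl_mem_grad (z i)
  by_cases h : ∃ i ∈ Finset.range (X.dim + 1), ((2 * i : ℕ) : ℤ) = m
  · obtain ⟨i, hi, him⟩ := h
    refine ⟨i, z i, by rw [← him]; push_cast; ring, ?_⟩
    rw [← h1]
    unfold clT
    rw [map_sum, Finset.sum_eq_single_of_mem i hi]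
    · rw [← him, kapZ_of_mem W (hz i)]
    · intro j _ hj
      exact kapZ_of_mem_ne W (by omega) (hz j)
  · exfalso
    apply hx0
    rw [← h1]
    unfold clT
    rw [map_sum]
    refine Finset.sum_eq_zero fun j hj => kapZ_of_mem_ne W ?_ (hz j)
    intro h2
    exact h ⟨j, hj, h2⟩

end one

variable {W} (X : Str W)

namespace Str

/-- the operators map classes of cycles to classes of cycles -/
structure Rational : Prop where
  res : PresCl W X.Y X.res
  gys : PresCl W X.Y X.gys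
  L : PresCl W X.Y X.L
  Lam : PresCl W X.Y X.Lam

variable {X}

lemma mem_iff {x : Tot W X.EY} : x ∈ tclQ W X.EY ↔ ∀ j a, j ≤ X.lev a →
    X.slice j x a ∈ clQ W (X.Y a) := by
  constructor
  · intro h j a hj
    rw [slice_of_le X x hj]
    exact h ⟨a, ⟨j, Nat.lt_succ_of_le hj⟩⟩ (Set.mem_univ _)
  · intro h c _
    rw [← slice_self X x c]
    exact h _ _ (Nat.lt_succ_iff.1 c.2.2)

lemma slice_mem {x : Tot W X.EY} (hx : x ∈ tclQ W X.EY) (j : ℕ) (a : X.J) :
    X.slice j x a ∈ clQ W (X.Y a) := by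
  by_cases hj : j ≤ X.lev a
  · exact mem_iff.1 hx j a hj
  · rw [slice_of_lt X x (by omega)]
    exact Submodule.zero_mem _

lemma lift_mem {T : TEnd W X.Y} (hT : PresCl W X.Y T) (s : ℕ) (x : Tot W X.EY)
    (hx : x ∈ tclQ W X.EY) : X.lift s T x ∈ tclQ W X.EY := by
  rw [mem_iff]
  intro j a hj
  rw [slice_lift X _ _ _ _ _ hj]
  split_ifs with h
  · exact hT _ (fun b => slice_mem hx _ b) a
  · exact Submodule.zero_mem _

lemma id_pres : PresCl W X.Y (LinearMap.id) := fun _ hx => hx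

variable (hX : X.Rational)

include hX in
lemma ed_mem (x : Tot W X.EY) (hx : x ∈ tclQ W X.EY) : X.ed x ∈ tclQ W X.EY := by
  rw [X.ed_eq]
  exact Submodule.add_mem _ (lift_mem hX.res 1 x hx) (lift_mem hX.gys 0 x hx)

lemma eN_mem (x : Tot W X.EY) (hx : x ∈ tclQ W X.EY) : X.eN x ∈ tclQ W X.EY :=
  lift_mem id_pres 1 x hx

include hX in
lemma eL_mem (x : Tot W X.EY) (hx : x ∈ tclQ W X.EY) : X.eL x ∈ tclQ W X.EY :=
  lift_mem hX.L 0 x hx

include hX in
lemma eLam_mem (x : Tot W X.EY) (hx : x ∈ tclQ W X.EY) : X.eLam x ∈ tclQ W X.EY :=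
  lift_mem hX.Lam 0 x hx

lemma eNd_mem (x : Tot W X.EY) (hx : x ∈ tclQ W X.EY) : X.eNd x ∈ tclQ W X.EY := by
  rw [mem_iff]
  intro j a hj
  rw [slice_eNd X _ _ _ hj]
  have h := Submodule.smul_mem (clQ W (X.Y a)) (((j + 1) * (X.lev a - j) : ℕ) : ℚ)
    (slice_mem hx (j + 1) a)
  rw [ratH_smul, Rat.cast_natCast] at h
  exact h

lemma pos_mem (p : ℤ) (x : Tot W X.EY) (hx : x ∈ tclQ W X.EY) :
    posProj W X.EY X.epos p x ∈ tclQ W X.EY := by
  rw [mem_iff]
  intro j a hj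
  rw [slice_posProj X _ _ _ _ hj]
  split_ifs
  · exact slice_mem hx j a
  · exact Submodule.zero_mem _

lemma deg_mem (w : ℤ) (x : Tot W X.EY) (hx : x ∈ tclQ W X.EY) :
    degProj W X.EY X.epos X.etw w x ∈ tclQ W X.EY := by
  rw [mem_iff]
  intro j a hj
  rw [slice_degProj X _ _ _ _ hj]
  exact kapZ_mem_clQ W (slice_mem hx j a) _

lemma eform_rat (x y : Tot W X.EY) (hx : x ∈ tclQ W X.EY) (hy : y ∈ tclQ W X.EY) :
    ∃ q : ℚ, (q : K) = X.eform x y := by
  have h : X.eform x y ∈ (algebraMap ℚ K).range := by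
    rw [eform_eq]
    refine Subring.sum_mem _ fun a _ => Subring.sum_mem _ fun i _ => ?_
    obtain ⟨q, hq⟩ := deg_rat W (mul_mem_clQ W (slice_mem hx i a) (slice_mem hy (X.lev a - i) a))
    exact ⟨q, by rw [hq]; rfl⟩
  obtain ⟨q, hq⟩ := h
  exact ⟨q, hq⟩

/-- the value of the form on classes of cycles -/
def sqf (x y : tclQ W X.EY) : ℚ := Classical.choose (eform_rat (x : Tot W X.EY) y x.2 y.2)

lemma sqf_spec (x y : tclQ W X.EY) : ((sqf x y : ℚ) : K) = X.eform (x : Tot W X.EY) y :=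
  Classical.choose_spec (eform_rat (x : Tot W X.EY) y x.2 y.2)

/-- the form on the classes of cycles of the `E_1`-term -/
def SQ (X : Str W) : tclQ W X.EY →ₗ[ℚ] tclQ W X.EY →ₗ[ℚ] ℚ :=
  LinearMap.mk₂ ℚ sqf
    (fun x x' y => by
      apply Rat.cast_injective (α := K)
      rw [Rat.cast_add, sqf_spec, sqf_spec, sqf_spec]
      exact X.eform_add_left _ _ _)
    (fun c x y => by
      apply Rat.cast_injective (α := K)
      rw [smul_eq_mul, Rat.cast_mul, sqf_spec, sqf_spec]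
      exact X.eform_smul_left _ _ _)
    (fun x y y' => by
      apply Rat.cast_injective (α := K)
      rw [Rat.cast_add, sqf_spec, sqf_spec, sqf_spec]
      exact X.eform_add_right _ _ _)
    (fun c x y => by
      apply Rat.cast_injective (α := K)
      rw [smul_eq_mul, Rat.cast_mul, sqf_spec, sqf_spec]
      exact X.eform_smul_right _ _ _)

lemma SQ_spec (x y : tclQ W X.EY) : ((X.SQ x y : ℚ) : K) = X.eform (x : Tot W X.EY) y :=
  sqf_spec x y

end Str

end Pool.Agent.HD82
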