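import Pool.Agent.W_f569db_hd.StrE
import Pool.Agent.W_MP_a3c811_h79.Lap.Aniso

/-! The two `sl2`-triples and the differential of the `E_1`-term; the form is graded. -/

noncomputable section

set_option linter.unusedSectionVars false

namespace Pool.Agent.HD82

open Module Pool.Agent.WeilH_h6 Pool.Agent.WeilH_h6.VarClass Pool.Agent.H62D Pool.Agent.H62A
  Pool.Agent.H62S Pool.Agent.H79L

universe u v w

variable {k : Type u} [Field k] {𝒱 : VarClass k} {K : Type v} [Field K]
  [CharZero K] {W : Weil.{u, v, w} 𝒱 K} (X : Str W)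

namespace Str

theorem bi : ∃ D : Finset ℤ,
    Bi (K := K) (E := Tot W X.EY) X.eN X.eNd X.eL X.eLam X.ed X.n
      (posProj W X.EY X.epos) (degProj W X.EY X.epos X.etw) (Finset.univ.image X.epos) D := by
  obtain ⟨D, hD⟩ := exists_sum_degProj W X.EY X.epos X.etw
  have cp := fun {s t : ℤ} {S : TEnd W X.EY} (h : HasBidegree W X.EY X.epos X.etw s t S) =>
    comp_posProj W X.EY X.epos X.etw h
  have cd := fun {s t : ℤ} {S : TEnd W X.EY} (h : HasBidegree W X.EY X.epos X.etw s t S) =>
    comp_degProj W X.EY X.epos X.etw h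
  refine ⟨D, ⟨⟨sum_posProj W X.EY X.epos, fun p => ?_,
    fun p p' h => posProj_orth W X.EY X.epos h, fun p => ?_, fun p => cp X.eN_bidegree p,
    fun p => cp X.eNd_bidegree p⟩, hD, fun w => ?_, fun w w' h => ?_,
    fun w p => (degProj_comm_posProj W X.EY X.epos X.etw w p).symm, fun w => ?_,
    fun w => cd X.eL_bidegree w, fun w => cd X.eLam_bidegree w, fun p => ?_, fun p => ?_,
    fun w => ?_, fun w => ?_, X.eN_eL, X.eN_eLam,
    X.eNd_eL, X.eNd_eLam, fun p => cp X.ed_bidegree p,
    fun w => cd X.ed_bidegree w, X.ed_sq, X.eN_ed,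
    X.eL_ed⟩⟩
  · exact LinearMap.ext fun x => posProj_of_mem _ _ _ (posProj_mem _ _ _ _ _)
  · exact LinearMap.ext fun x => X.eN_triple p _ (posProj_mem _ _ _ _ _)
  · exact LinearMap.ext fun x => degProj_of_mem _ _ _ _ (degProj_mem _ _ _ _ _ _)
  · refine LinearMap.ext fun x => ?_
    exact Proj_degProj_of_mem_ne _ _ _ _ (Ne.symm h) (degProj_mem _ _ _ _ _ _)
  · exact LinearMap.ext fun x => X.eL_eLam w _ (degProj_mem _ _ _ _ _ _)
  · have := cp X.eL_bidegree p
    rwa [add_zero] at this
  · have := cp X.eLam_bidegree p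
    rwa [add_zero] at this
  · have := cd X.eN_bidegree w
    rwa [add_zero] at this
  · have := cd X.eNd_bidegree w
    rwa [add_zero] at this

lemma slice_posProj (p : ℤ) (x : Tot W X.EY) (j : ℕ) (a : X.J) (hj : j ≤ X.lev a) :
    X.slice j (posProj W X.EY X.epos p x) a =
      if 2 * (j : ℤ) - X.lev a = p then X.slice j x a else 0 := by
  rw [slice_of_le X _ hj, Proj_posProj_apply, slice_of_le X _ hj]
  rfl

lemma slice_degProj (w : ℤ) (x : Tot W X.EY) (j : ℕ) (a : X.J) (hj : j ≤ X.lev a) :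
    X.slice j (degProj W X.EY X.epos X.etw w x) a =
      kapZ W (X.Y a) (w - X.lev a) (X.slice j x a) := by
  rw [slice_of_le X _ hj, Proj_degProj_apply, slice_of_le X _ hj]
  have h := X.epos_etw ⟨a, ⟨j, Nat.lt_succ_of_le hj⟩⟩
  rw [sub_sub, h]

/-- The form pairs position `p` with `-p`. -/
theorem eform_posProj (p : ℤ) (x y : Tot W X.EY) :
    X.eform (posProj W X.EY X.epos p x) y = X.eform x (posProj W X.EY X.epos (-p) y) := by
  rw [eform_eq, eform_eq]
  refine Finset.sum_congr rfl fun a _ => Finset.sum_congr rfl fun i hi => ?_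
  rw [Finset.mem_range] at hi
  rw [slice_posProj X _ _ _ _ (by omega), slice_posProj X _ _ _ _ (by omega)]
  by_cases h : 2 * (i : ℤ) - X.lev a = p
  · rw [if_pos h, if_pos (by rw [Nat.cast_sub (by omega)]; omega)]
  · rw [if_neg h, if_neg (by rw [Nat.cast_sub (by omega)]; omega), zero_mul, mul_zero]

/-- The form pairs degree `w` with `2 n - w`. -/
theorem eform_degProj (w : ℤ) (x y : Tot W X.EY) :
    X.eform (degProj W X.EY X.epos X.etw w x) y =
      X.eform x (degProj W X.EY X.epos X.etw (2 * X.n - w) y) := by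
  rw [eform_eq, eform_eq]
  refine Finset.sum_congr rfl fun a _ => Finset.sum_congr rfl fun i hi => ?_
  rw [Finset.mem_range] at hi
  rw [slice_degProj X _ _ _ _ (by omega), slice_degProj X _ _ _ _ (by omega)]
  have h1 := tr_kapZ W (Y := X.Y a) (w - X.lev a) (X.slice i x a) (X.slice (X.lev a - i) y a)
  have h2 : 2 * ((X.Y a).dim : ℤ) - (w - X.lev a) = 2 * X.n - w - X.lev a := by
    have := X.dim_eq a
    omega
  rw [h2] at h1
  exact h1

end Str

end Pool.Agent.HD82
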