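import Pool.Agent.W_f569db_hd.CoreA

/-! Linear independence over the larger field. -/

noncomputable section

namespace Pool.Agent.HDcore

open Module Polynomial Pool.Agent.H79L

universe u v w

variable {V : Type w} [AddCommGroup V] [Module ℚ V] [FiniteDimensional ℚ V]
  {N f L g d : Module.End ℚ V} {n : ℤ} {s t : ℤ → Module.End ℚ V} {P D : Finset ℤ}

/-- Cocycles which are linearly independent modulo coboundaries over `ℚ` are so over the larger
field. -/
theorem inj_lin (h : Bi N f L g d n s t P D) {S : V →ₗ[ℚ] V →ₗ[ℚ] ℚ}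
    (hS : Adapted f g d s t S) (hG : Graded n s t S) (hA : Anis N f L g n s t S)
    {π : Module.End ℚ V} (hπ : Proj N f L g d s t π)
    {K : Type v} [Field K] [CharZero K] {E : Type u} [AddCommGroup E] [Module K E] (ι : V →+ E)
    (δ : E →ₗ[K] E) (SK : E →ₗ[K] E →ₗ[K] K)
    (hSK : ∀ x y, SK (ι x) (ι y) = (S x y : K))
    (hadj : ∀ b y, d y = 0 → SK (δ b) (ι y) = 0) {T : Type} [Fintype T] (x : T → V)
    (hx : ∀ t, d (x t) = 0) (hind : ∀ q : T → ℚ, (∃ y, ∑ t, q t • x t = d y) → q = 0)
    (c : T → K) (b : E) (hb : ∑ t, c t • ι (x t) = δ b) : c = 0 := by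
  have h1 : ∀ y, π y = y → ∑ t, c t * (S (π (x t)) y : K) = 0 := by
    intro y hy
    have hdy : d y = 0 := by rw [← hy, hπ.dπ]
    have h2 := hadj b y hdy
    rw [← hb, map_sum, LinearMap.sum_apply] at h2
    rw [← h2]
    refine Finset.sum_congr rfl fun t _ => ?_
    rw [map_smul, LinearMap.smul_apply, hSK, smul_eq_mul]
    obtain ⟨z, hz⟩ := hπ.dec (x t) (hx t)
    have h3 : S (x t) y = S (π (x t)) y := by
      conv_lhs => rw [hz]
      rw [map_add, LinearMap.add_apply, orth_left h hS z y hdy, add_zero]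
    rw [h3]
  let β := Basis.ofVectorSpace ℚ K
  have h2 : ∀ j, (fun t => β.repr (c t) j) = 0 := by
    intro j
    refine hind _ ?_
    have h3 : π (∑ t, β.repr (c t) j • x t) = 0 := by
      refine radical h hS hG hA hπ _ (hπ.idem _) fun y hy => ?_
      have h4 := congrArg (fun k : K => β.repr k j) (h1 y hy)
      simp only [map_sum, map_zero, Finsupp.coe_zero, Pi.zero_apply, Finsupp.coe_finsetSum,
        Finset.sum_apply] at h4
      rw [map_sum, map_sum, LinearMap.sum_apply, ← h4]
      refine Finset.sum_congr rfl fun t _ => ?_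
      rw [map_smul, map_smul, LinearMap.smul_apply, smul_eq_mul]
      have h5 : c t * (S (π (x t)) y : K) = S (π (x t)) y • c t := by
        rw [Rat.smul_def, mul_comm]
      rw [h5, map_smul, Finsupp.smul_apply, smul_eq_mul, mul_comm]
    obtain ⟨z, hz⟩ := hπ.dec (∑ t, β.repr (c t) j • x t) (by
      rw [map_sum]
      exact Finset.sum_eq_zero fun t _ => by rw [map_smul, hx, smul_zero])
    rw [h3, zero_add] at hz
    exact ⟨z, hz⟩
  funext t
  have h3 : β.repr (c t) = 0 := Finsupp.ext fun j => congrFun (h2 j) t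
  have h4 : c t = 0 := by
    have := congrArg β.repr.symm h3
    rwa [LinearEquiv.symm_apply_apply, map_zero] at this
  exact h4

end Pool.Agent.HDcore
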