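import Pool.Agent.W_f569db_hd.Prim

/-! Vectors of level `0` in the `E_1`-term. -/

noncomputable section

set_option linter.unusedSectionVars false

namespace Pool.Agent.HD82

open Module Pool.Agent.WeilH_h6 Pool.Agent.WeilH_h6.VarClass Pool.Agent.H62D Pool.Agent.H62A
  Pool.Agent.H62S Pool.Agent.H79L

universe u v w

attribute [local instance] ratH

variable {k : Type u} [Field k] {𝒱 : VarClass k} {K : Type v} [Field K]
  [CharZero K] {W : Weil.{u, v, w} 𝒱 K} (X : Str W)

namespace Str

/-- the `0`-th copies -/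
def em (c : Tot W X.Y) : Tot W X.EY := emb W X.Y X.lev c

lemma slice_em (c : Tot W X.Y) (j : ℕ) (a : X.J) (hj : j ≤ X.lev a) :
    X.slice j (X.em c) a = if j = 0 then c a else 0 := by
  rw [slice_of_le X _ hj]
  rfl

lemma em_sum {T : Type} [Fintype T] (c : T → K) (f : T → Tot W X.Y) :
    X.em (∑ t, c t • f t) = ∑ t, c t • X.em (f t) := by
  refine ext_slice X fun j a hj => ?_
  rw [slice_em X _ _ _ hj, map_sum, Finset.sum_apply]
  by_cases h : j = 0
  · rw [if_pos h, Finset.sum_apply]
    refine Finset.sum_congr rfl fun t _ => ?_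
    rw [map_smul, Pi.smul_apply, Pi.smul_apply, slice_em X _ _ _ hj, if_pos h]
  · rw [if_neg h, Finset.sum_apply]
    have h1 : ∑ t, (X.slice j (c t • X.em (f t))) a = 0 := by
      refine Finset.sum_eq_zero fun t _ => ?_
      rw [map_smul, Pi.smul_apply, slice_em X _ _ _ hj, if_neg h, smul_zero]
    exact h1.symm

variable {X} {c : Tot W X.Y} (h0 : ∀ a, X.lev a ≠ 0 → c a = 0)

lemma em_mem (hc : ∀ a, c a ∈ clQ W (X.Y a)) : X.em c ∈ tclQ W X.EY := by
  rw [mem_iff]
  intro j a hj
  rw [slice_em X _ _ _ hj]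
  split_ifs
  · exact hc a
  · exact Submodule.zero_mem _

include h0 in
lemma em_pos : posProj W X.EY X.epos 0 (X.em c) = X.em c := by
  refine ext_slice X fun j a hj => ?_
  rw [slice_posProj X _ _ _ _ hj, slice_em X _ _ _ hj]
  by_cases h : 2 * (j : ℤ) - X.lev a = 0
  · rw [if_pos h]
  · rw [if_neg h]
    by_cases hj0 : j = 0
    · rw [if_pos hj0, h0]
      intro h1
      apply h
      rw [hj0, h1]
      rfl
    · rw [if_neg hj0]

include h0 in
lemma em_deg {m : ℤ} (hc : ∀ a, X.lev a = 0 → c a ∈ gradZ W (X.Y a) m) :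
    degProj W X.EY X.epos X.etw m (X.em c) = X.em c := by
  refine ext_slice X fun j a hj => ?_
  rw [slice_degProj X _ _ _ _ hj, slice_em X _ _ _ hj]
  by_cases hj0 : j = 0
  · rw [if_pos hj0]
    by_cases h : X.lev a = 0
    · refine kapZ_of_mem W ?_
      rw [h, Nat.cast_zero, sub_zero]
      exact hc a h
    · rw [h0 a h, map_zero]
  · rw [if_neg hj0, map_zero]

include h0 in
lemma em_d (hc : X.res c = 0) : X.ed (X.em c) = 0 := by
  refine ext_slice X fun j a hj => ?_
  rw [ed_eq, LinearMap.add_apply, map_add, Pi.add_apply,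
    slice_lift X _ _ _ _ _ hj, slice_lift X _ _ _ _ _ hj,
    if_pos (Nat.zero_le _), Nat.sub_zero, map_zero]
  have hg : X.gys (X.slice j (X.em c)) a = 0 := by
    have h1 : X.gys (X.slice j (X.em c)) a = X.gys 0 a := by
      refine (X.shift_gys).eq X fun b hb => ?_
      unfold ilev at hb
      by_cases hjb : j ≤ X.lev b
      · rw [slice_em X _ _ _ hjb]
        split_ifs
        · exact h0 b (by omega)
        · rfl
      · rw [slice_of_lt X _ (not_le.1 hjb)]
        rfl
    rw [h1, map_zero]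
    rfl
  rw [hg, add_zero]
  by_cases hj1 : 1 ≤ j
  · rw [if_pos hj1]
    have h1 : X.res (X.slice (j - 1) (X.em c)) a =
        X.res (if j = 1 then c else 0) a := by
      refine (X.shift_res).eq X fun b hb => ?_
      unfold ilev at hb
      rw [slice_em X _ _ _ (by omega)]
      by_cases h2 : j = 1
      · rw [if_pos h2, if_pos (by omega)]
      · rw [if_neg h2, if_neg (by omega)]
        rfl
    rw [h1]
    split_ifs
    · rw [hc]
    · rw [map_zero]
  · rw [if_neg hj1]
    rfl

include h0 in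
lemma em_N : X.eN (X.em c) = 0 := by
  refine ext_slice X fun j a hj => ?_
  unfold eN
  rw [slice_lift X _ _ _ _ _ hj, map_zero]
  split_ifs with h
  · rw [LinearMap.id_apply, slice_em X _ _ _ (by omega)]
    split_ifs
    · exact h0 a (by omega)
    · rfl
  · rfl

variable {pol : ∀ a, Cyc (X.Y a) 1} (hL : X.L = mulCl W X.Y pol)

include hL in
lemma L_pow (r : ℕ) (c : Tot W X.Y) (a : X.J) : (X.L ^ r) c a = W.cl (pol a) ^ r * c a := by
  induction r with
  | zero => rw [pow_zero (W.cl (pol a)), one_mul]; rfl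
  | succ r ih =>
    rw [pow_succ', Module.End.mul_apply, pow_succ', mul_assoc, ← ih, hL]
    rfl

include hL in
lemma em_pow (r : ℕ) (c : Tot W X.Y) : X.em ((X.L ^ r) c) = (X.eL ^ r) (X.em c) := by
  refine ext_slice X fun j a hj => ?_
  rw [slice_em X _ _ _ hj, slice_eL_pow hL r j _ a hj, slice_em X _ _ _ hj]
  split_ifs
  · exact L_pow hL r c a
  · rw [mul_zero]

include h0 hL in
lemma eform_em (hc : ∀ a, c a ∈ clQ W (X.Y a)) (r : ℕ) :
    X.eform (X.em c) ((X.eL ^ r) (X.em c)) = pairing W X.Y ((X.L ^ r) c) c := by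
  rw [eform_eq]
  refine Finset.sum_congr rfl fun a _ => ?_
  rw [Finset.sum_eq_single 0]
  · rw [Nat.sub_zero, slice_em X _ _ _ (Nat.zero_le _), if_pos rfl]
    by_cases h : X.lev a = 0
    · rw [h, slice_eL_pow hL r 0 _ a (Nat.zero_le _), slice_em X _ _ _ (Nat.zero_le _),
        if_pos rfl, L_pow hL, W.central (clQ_le_algSpan W (hc a))]
    · rw [h0 a h, zero_mul, mul_zero]
  · intro j hj hj0
    rw [Finset.mem_range] at hj
    rw [slice_em X _ _ _ (by omega), if_neg hj0, zero_mul]
    exact deg_zero' _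
  · intro h
    exact absurd (Finset.mem_range.2 (Nat.succ_pos _)) h

end Str

end Pool.Agent.HD82
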