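import Pool.Agent.W_f569db_hd.RatM
import Pool.Agent.W_a3c811_h62.Proj

/-! `A(X)` and `Hdg(X)` imply `D(X)`; hard Lefschetz with `Λ` preserving classes of cycles implies
`A(X)`; finiteness. -/

noncomputable section

set_option linter.unusedSectionVars false

namespace Pool.Agent.HD82

open Pool.Agent.WeilH_h6 Pool.Agent.WeilH_h6.VarClass Pool.Agent.H62D Pool.Agent.H62A
  Pool.Agent.H62S

universe u v w

variable {k : Type u} [Field k] {𝒱 : VarClass k} {K : Type v} [Field K] [CharZero K]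
  (W : Weil.{u, v, w} 𝒱 K)

/-- `x` is the class of a cycle of codimension `i` -/
def GCl {X : 𝒱.Obj} (i : ℕ) (x : W.H X) : Prop := ∃ z : Cyc X i, W.cl z = x

section basics

variable {W} {X : 𝒱.Obj}

lemma GCl.alg {i : ℕ} {x : W.H X} (h : GCl W i x) : x ∈ W.algSpan X := by
  obtain ⟨z, rfl⟩ := h
  exact W.cl_mem_algSpan z

lemma GCl.grad {i : ℕ} {x : W.H X} (h : GCl W i x) : x ∈ W.grad X (2 * i) := by
  obtain ⟨z, rfl⟩ := h
  exact W.cl_mem_grad z

lemma GCl.zero (i : ℕ) : GCl W i (0 : W.H X) := ⟨0, cl_zero W⟩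

lemma GCl.add {i : ℕ} {x y : W.H X} (h : GCl W i x) (h' : GCl W i y) : GCl W i (x + y) := by
  obtain ⟨z, rfl⟩ := h
  obtain ⟨z', rfl⟩ := h'
  exact ⟨z + z', cl_add W z z'⟩

lemma GCl.smul {i : ℕ} {x : W.H X} (h : GCl W i x) (q : ℚ) : GCl W i ((q : K) • x) := by
  obtain ⟨z, rfl⟩ := h
  exact ⟨q • z, cl_smul W q z⟩

lemma GCl.neg {i : ℕ} {x : W.H X} (h : GCl W i x) : GCl W i (-x) := by
  have := h.smul (-1)
  simpa using this

lemma GCl.sub {i : ℕ} {x y : W.H X} (h : GCl W i x) (h' : GCl W i y) : GCl W i (x - y) := by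
  rw [sub_eq_add_neg]
  exact h.add h'.neg

lemma GCl.mul {i j : ℕ} {x y : W.H X} (h : GCl W i x) (h' : GCl W j y) :
    GCl W (i + j) (x * y) := by
  obtain ⟨z, rfl⟩ := h
  obtain ⟨z', rfl⟩ := h'
  exact W.alg_mul X i j z z'

lemma GCl.pow_mul {i : ℕ} {x l : W.H X} (hl : GCl W 1 l) (h : GCl W i x) (r : ℕ) :
    GCl W (i + r) (l ^ r * x) := by
  induction r with
  | zero => simpa using h
  | succ r ih =>
    rw [pow_succ', mul_assoc, show i + (r + 1) = 1 + (i + r) by ring]
    exact hl.mul ih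

lemma GCl.comm {i : ℕ} {x : W.H X} (h : GCl W i x) (y : W.H X) : x * y = y * x :=
  W.central h.alg y

lemma GCl.big {i : ℕ} {x : W.H X} (h : GCl W i x) (hi : X.dim < i) : x = 0 := by
  obtain ⟨z, rfl⟩ := h
  exact cl_eq_zero W hi z

end basics

/-- The part of codimension `i` of a class. -/
lemma GCl_of_clT {X : 𝒱.Obj} (z : TCyc X) (i : ℕ) (h : clT W z ∈ W.grad X (2 * i)) :
    GCl W i (clT W z) := by
  have h1 : kap W X (2 * i) (clT W z) = clT W z := by rw [kap_apply W h, if_pos rfl]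
  have h2 : kap W X (2 * i) (clT W z) = if i ∈ Finset.range (X.dim + 1) then W.cl (z i) else 0 := by
    unfold clT
    rw [map_sum]
    have h3 : ∀ j ∈ Finset.range (X.dim + 1), kap W X (2 * i) (W.cl (z j)) =
        if j = i then W.cl (z i) else 0 := by
      intro j _
      rw [kap_apply W (W.cl_mem_grad (z j))]
      by_cases hj : j = i
      · subst hj
        rw [if_pos rfl, if_pos rfl]
      · rw [if_neg (by omega), if_neg hj]
    rw [Finset.sum_congr rfl h3, Finset.sum_ite_eq']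
  rw [← h1, h2]
  split_ifs
  · exact ⟨z i, rfl⟩
  · exact GCl.zero i

/-- The step of Grothendieck's lemma: every class has a partner. -/
lemma LemG_partner {X : 𝒱.Obj} {ξ : Cyc X 1} (hA : LefA W X ξ) (hH : Hdg W X ξ) :
    ∀ (i : ℕ), 2 * i ≤ X.dim → ∀ x : W.H X, GCl W i x → ∃ y : W.H X, GCl W i y ∧
      ∃ q : ℚ, 0 ≤ q ∧ W.deg (W.cl ξ ^ (X.dim - 2 * i) * (x * y)) = (q : K) ∧
        (q = 0 → x = 0) := by
  have hl : GCl W 1 (W.cl ξ) := ⟨ξ, rfl⟩
  -- primitive classes
  have prim : ∀ (i : ℕ), 2 * i ≤ X.dim → ∀ x : W.H X, GCl W i x →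
      W.cl ξ ^ (X.dim - 2 * i + 1) * x = 0 → ∃ q : ℚ, 0 ≤ q ∧
        W.deg (W.cl ξ ^ (X.dim - 2 * i) * (x * x)) = (-1) ^ i * (q : K) ∧ (q = 0 → x = 0) := by
    intro i hi x hx hp
    by_cases hx0 : x = 0
    · refine ⟨0, le_rfl, ?_, fun _ => hx0⟩
      rw [hx0, mul_zero, mul_zero, Rat.cast_zero, mul_zero]
      exact map_zero (W.tr X)
    · obtain ⟨z, rfl⟩ := hx
      obtain ⟨q, hq, h⟩ := hH i z hi hp hx0
      exact ⟨q, hq.le, h, fun h0 => absurd h0 hq.ne'⟩
  intro i
  induction i with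
  | zero =>
    intro hi x hx
    have hp : W.cl ξ ^ (X.dim - 2 * 0 + 1) * x = 0 :=
      (GCl.pow_mul hl hx (X.dim - 2 * 0 + 1)).big (by omega)
    obtain ⟨q, hq, h, h0⟩ := prim 0 hi x hx hp
    exact ⟨x, hx, q, hq, by rw [h, pow_zero, one_mul], h0⟩
  | succ i ih =>
    intro hi x hx
    -- `ξ ^ (n - 2 (i + 1) + 1) x = ξ ^ (n - 2 i) z'`
    have h1 : GCl W (i + 1 + (X.dim - 2 * (i + 1) + 1)) (W.cl ξ ^ (X.dim - 2 * (i + 1) + 1) * x) :=
      GCl.pow_mul hl hx _
    obtain ⟨z1, hz1⟩ := h1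
    obtain ⟨z', hz'⟩ := hA i _ z1 (by omega) (by omega)
    set b : W.H X := W.cl z' with hb
    have hbc : GCl W i b := ⟨z', rfl⟩
    set y : W.H X := x - W.cl ξ * b with hy
    have hyc : GCl W (i + 1) y := by
      refine hx.sub ?_
      have := hl.mul hbc
      rwa [add_comm] at this
    have hprim : W.cl ξ ^ (X.dim - 2 * (i + 1) + 1) * y = 0 := by
      rw [hy, mul_sub, ← hz1, ← hz', ← mul_assoc, ← pow_succ,
        show X.dim - 2 * (i + 1) + 1 + 1 = X.dim - 2 * i by omega, sub_self]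
    obtain ⟨q1, hq1, e1, f1⟩ := prim (i + 1) hi y hyc hprim
    obtain ⟨b', hb', q2, hq2, e2, f2⟩ := ih (by omega) b hbc
    have hxy : x = y + W.cl ξ * b := by rw [hy]; abel
    set m := X.dim - 2 * (i + 1) with hm
    have hlb' : GCl W (i + 1) (W.cl ξ * b') := by
      have := hl.mul hb'
      rwa [add_comm] at this
    refine ⟨(((-1) ^ (i + 1) : ℚ) : K) • y + W.cl ξ * b', (hyc.smul _).add hlb', q1 + q2,
      add_nonneg hq1 hq2, ?_, ?_⟩
    · have c1 : ∀ a : W.H X, W.cl ξ * a = a * W.cl ξ := fun a => hl.comm a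
      have p1 : W.cl ξ ^ m * (y * (W.cl ξ * b')) = 0 := by
        have e : W.cl ξ ^ m * (y * (W.cl ξ * b')) = W.cl ξ ^ (m + 1) * y * b' := by
          rw [pow_succ, ← mul_assoc y, ← c1 y]
          simp only [mul_assoc]
        rw [e, hprim, zero_mul]
      have p2 : W.cl ξ ^ m * (W.cl ξ * b * y) = 0 := by
        have e : W.cl ξ ^ m * (W.cl ξ * b * y) = W.cl ξ ^ (m + 1) * y * b := by
          rw [mul_assoc (W.cl ξ) b y, hbc.comm y, ← mul_assoc (W.cl ξ) y b, ← mul_assoc,
            ← mul_assoc, ← pow_succ]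
        rw [e, hprim, zero_mul]
      have p3 : W.cl ξ ^ m * (W.cl ξ * b * (W.cl ξ * b')) =
          W.cl ξ ^ (X.dim - 2 * i) * (b * b') := by
        have e : W.cl ξ * b * (W.cl ξ * b') = W.cl ξ * (W.cl ξ * (b * b')) := by
          rw [mul_assoc, ← mul_assoc b, ← c1 b]
          simp only [mul_assoc]
        rw [e, ← mul_assoc, ← mul_assoc, ← pow_succ, ← pow_succ,
          show m + 1 + 1 = X.dim - 2 * i by omega]
      have e3 : W.cl ξ ^ m * (x * ((((-1) ^ (i + 1) : ℚ) : K) • y + W.cl ξ * b')) =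
          (((-1) ^ (i + 1) : ℚ) : K) • (W.cl ξ ^ m * (y * y)) +
            W.cl ξ ^ (X.dim - 2 * i) * (b * b') := by
        rw [hxy]
        simp only [add_mul, mul_add, mul_smul_comm]
        rw [p1, p2, p3, add_zero, zero_add]
      rw [e3]
      have e4 : W.deg ((((-1) ^ (i + 1) : ℚ) : K) • (W.cl ξ ^ m * (y * y)) +
          W.cl ξ ^ (X.dim - 2 * i) * (b * b')) = (((-1) ^ (i + 1) : ℚ) : K) *
            W.deg (W.cl ξ ^ m * (y * y)) + W.deg (W.cl ξ ^ (X.dim - 2 * i) * (b * b')) := by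
        change W.tr X _ = _ * W.tr X _ + W.tr X _
        rw [map_add, map_smul, smul_eq_mul]
      rw [e4, e1, e2]
      have e5 : (((-1) ^ (i + 1) : ℚ) : K) * ((-1) ^ (i + 1) * (q1 : K)) = q1 := by
        push_cast
        rw [← mul_assoc, ← mul_pow]
        norm_num
      rw [e5]
      push_cast
      rfl
    · intro h0
      have g1 : q1 = 0 := by linarith
      have g2 : q2 = 0 := by linarith
      rw [hxy, f1 g1, f2 g2, mul_zero, add_zero]

/-- Grothendieck's lemma.  Proof: let `z` be numerically trivial of codimension `i`, `2 i ≤ n`; by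
induction on `i` one has `cl z = ∑_j ξ ^ j cl (z_j)`, `z_j` of codimension `i - j` with primitive
class: by `A(X)` `ξ ^ (n - 2 i + 1) z` is `ξ ^ (n - 2 (i - 1))` times the class of `z'` of
codimension `i - 1`, so `z - ξ z'` is primitive, and induction for `z'`.  Test with
`ξ ^ (n - 2 i) ∑_j (-1) ^ j ξ ^ j z_j`: the mixed terms vanish and the others are
`(-1) ^ j Tr (ξ ^ (n - 2 (i - j)) z_j z_j) = (-1) ^ i q_j`, `q_j ≥ 0`, `> 0` unless `cl z_j = 0`.
If `2 i > n` then `cl z = ξ ^ (2 i - n) cl z'` and test with `∑_j (-1) ^ j ξ ^ j z'_j`. -/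
theorem homEqNum_of {X : 𝒱.Obj} {ξ : Cyc X 1} (hA : LefA W X ξ) (hH : Hdg W X ξ) :
    W.HomEqNum X := by
  have hl : GCl W 1 (W.cl ξ) := ⟨ξ, rfl⟩
  intro i z
  constructor
  · intro hz
    have hz' : ∀ (j : ℕ) (y : W.H X), i + j = X.dim → GCl W j y → W.tr X (W.cl z * y) = 0 := by
      rintro j _ hij ⟨z', rfl⟩
      exact hz j z' hij
    by_cases hi : 2 * i ≤ X.dim
    · obtain ⟨y, hy, q, hq, e, f⟩ := LemG_partner W hA hH i hi (W.cl z) ⟨z, rfl⟩
      refine f ?_
      have h1 := hz' (i + (X.dim - 2 * i)) _ (by omega) (GCl.pow_mul hl hy (X.dim - 2 * i))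
      have h2 : W.cl z * (W.cl ξ ^ (X.dim - 2 * i) * y) =
          W.cl ξ ^ (X.dim - 2 * i) * (W.cl z * y) := by
        rw [← mul_assoc, (show GCl W i (W.cl z) from ⟨z, rfl⟩).comm, mul_assoc]
      rw [h2] at h1
      have h3 : W.deg (W.cl ξ ^ (X.dim - 2 * i) * (W.cl z * y)) = 0 := h1
      rw [e] at h3
      exact_mod_cast h3
    · by_cases hi' : X.dim < i
      · exact cl_eq_zero W hi' z
      · obtain ⟨z', hz1⟩ := hA (X.dim - i) i z (by omega) (by omega)
        obtain ⟨y, hy, q, hq, e, f⟩ := LemG_partner W hA hH (X.dim - i) (by omega) (W.cl z')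
          ⟨z', rfl⟩
        have h1 := hz' (X.dim - i) y (by omega) hy
        rw [← hz1, mul_assoc] at h1
        have h3 : W.deg (W.cl ξ ^ (X.dim - 2 * (X.dim - i)) * (W.cl z' * y)) = 0 := h1
        rw [e] at h3
        have h4 : W.cl z' = 0 := f (by exact_mod_cast h3)
        rw [← hz1, h4, mul_zero]
  · intro hz j z' _
    rw [hz, zero_mul, map_zero]

/-- `L Λ ^ (m + 1) v = (m + 1) (r - m) Λ ^ m v` if `L v = 0` and `v` has degree `n + r`. -/
lemma LemG_comm {X : 𝒱.Obj} {l : W.H X} {Λ : W.Hom X X} {n : ℤ}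
    (h1 : ∀ m : ℤ, ∀ x ∈ gradZ W X m, Λ x ∈ gradZ W X (m - 2))
    (h2 : ∀ m : ℤ, ∀ x ∈ gradZ W X m, l * Λ x - Λ (l * x) = ((m - n : ℤ) : K) • x)
    {r : ℤ} {v : W.H X} (hv : v ∈ gradZ W X (n + r)) (hl : l * v = 0) (m : ℕ) :
    (Λ ^ m) v ∈ gradZ W X (n + r - 2 * m) ∧
      l * (Λ ^ (m + 1)) v = (((m + 1) * (r - m) : ℤ) : K) • (Λ ^ m) v := by
  have hmem : ∀ m : ℕ, (Λ ^ m) v ∈ gradZ W X (n + r - 2 * m) := by
    intro m
    induction m with
    | zero => simpa using hv
    | succ m ih =>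
      rw [pow_succ', Module.End.mul_apply]
      have := h1 _ _ ih
      rwa [show n + r - 2 * (m : ℤ) - 2 = n + r - 2 * ((m + 1 : ℕ) : ℤ) by push_cast; ring] at this
  refine ⟨hmem m, ?_⟩
  induction m with
  | zero =>
    have h3 := h2 _ _ hv
    rw [hl, map_zero, sub_zero] at h3
    rw [zero_add, pow_one, pow_zero, Module.End.one_apply, h3]
    congr 2
    push_cast
    ring
  | succ m ih =>
    have h3 := h2 _ _ (hmem (m + 1))
    rw [ih, map_smul] at h3
    have h4 : Λ ((Λ ^ m) v) = (Λ ^ (m + 1)) v := by rw [pow_succ', Module.End.mul_apply]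
    have h5 : Λ ((Λ ^ (m + 1)) v) = (Λ ^ (m + 1 + 1)) v := by
      rw [pow_succ' Λ (m + 1), Module.End.mul_apply]
    rw [h4, h5, sub_eq_iff_eq_add, ← add_smul] at h3
    rw [h3]
    congr 1
    push_cast
    ring

/-- `Λ` preserves classes of cycles, hence `A(X)`.  Proof: downward induction on `j` for: every
`y` in `clQ`, homogeneous of degree `n + j`, is `ξ ^ j x`, `x` in `clQ` homogeneous of degree
`n - j`: `ξ y = ξ ^ (j + 2) x'`, `y' = y - ξ ^ (j + 1) x'` is killed by `ξ`, so
`ξ ^ j Λ ^ j y' = c y'` with a nonzero integer `c`. -/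
theorem lefA_of_hard {X : 𝒱.Obj} {ξ : Cyc X 1} (h : HardLefA W X ξ) : LefA W X ξ := by
  obtain ⟨Λ, h1, h2, h3⟩ := h
  have hl : GCl W 1 (W.cl ξ) := ⟨ξ, rfl⟩
  -- `Λ` preserves classes of cycles of mixed codimension
  have hΛ : ∀ x : W.H X, (∃ z : TCyc X, clT W z = x) → ∃ z : TCyc X, clT W z = Λ x := by
    rintro _ ⟨z, rfl⟩
    unfold clT
    rw [map_sum]
    have key : ∀ s : Finset ℕ, (∑ i ∈ s, Λ (W.cl (z i))) ∈ clQ W X := by
      intro s
      induction s using Finset.induction_on with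
      | empty => simp only [Finset.sum_empty]; exact (clQ W X).zero_mem
      | insert a s ha ih =>
        rw [Finset.sum_insert ha]
        exact (clQ W X).add_mem (h3 a (z a)) ih
    exact key _
  have hΛk : ∀ (m : ℕ) (x : W.H X), (∃ z : TCyc X, clT W z = x) →
      ∃ z : TCyc X, clT W z = (Λ ^ m) x := by
    intro m
    induction m with
    | zero => intro x hx; exact hx
    | succ m ih =>
      intro x hx
      rw [pow_succ', Module.End.mul_apply]
      exact hΛ _ (ih x hx)
  -- classes killed by `ξ`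
  have step : ∀ (i j : ℕ) (y : W.H X), 2 * i ≤ X.dim → i + j = X.dim → GCl W j y →
      W.cl ξ * y = 0 → ∃ x, GCl W i x ∧ W.cl ξ ^ (X.dim - 2 * i) * x = y := by
    intro i j y hi hij hy hly
    set r := X.dim - 2 * i with hr
    have hyZ : y ∈ gradZ W X (X.dim + (r : ℤ)) := by
      unfold gradZ
      rw [if_pos (by positivity)]
      have h4 : ((X.dim : ℤ) + (r : ℤ)).toNat = 2 * j := by omega
      rw [h4]
      exact hy.grad
    have hc := fun m => LemG_comm W h1 h2 hyZ hly m
    have hprod : ∀ m : ℕ, m ≤ r → ∃ c : ℚ, c ≠ 0 ∧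
        W.cl ξ ^ m * (Λ ^ m) y = (c : K) • y := by
      intro m
      induction m with
      | zero => intro _; exact ⟨1, one_ne_zero, by simp⟩
      | succ m ih =>
        intro hm
        obtain ⟨c, hc0, hc1⟩ := ih (by omega)
        refine ⟨((m + 1) * (r - m) : ℤ) * c, ?_, ?_⟩
        · refine mul_ne_zero ?_ hc0
          have h5 : ((m : ℤ) + 1) * ((r : ℤ) - m) ≠ 0 := mul_ne_zero (by omega) (by omega)
          exact_mod_cast h5
        · rw [pow_succ, mul_assoc, (hc m).2, mul_smul_comm, hc1, smul_smul]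
          push_cast
          rfl
    obtain ⟨c, hc0, hc1⟩ := hprod r le_rfl
    obtain ⟨zy, hzy⟩ := hy
    obtain ⟨z, hz⟩ := hΛk r y ⟨Pi.single j zy, by rw [clT_single, hzy]⟩
    have hg : clT W z ∈ W.grad X (2 * i) := by
      rw [hz]
      have h4 := (hc r).1
      unfold gradZ at h4
      have h5 : ((X.dim : ℤ) + r - 2 * r) = ((2 * i : ℕ) : ℤ) := by omega
      rw [h5, if_pos (by positivity), Int.toNat_natCast] at h4
      exact h4
    have hx : GCl W i ((Λ ^ r) y) := by
      rw [← hz]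
      exact GCl_of_clT W z i hg
    refine ⟨((c⁻¹ : ℚ) : K) • (Λ ^ r) y, hx.smul _, ?_⟩
    rw [mul_smul_comm, hc1, smul_smul]
    have h7 : ((c⁻¹ : ℚ) : K) * (c : K) = 1 := by
      rw [← Rat.cast_mul, inv_mul_cancel₀ hc0, Rat.cast_one]
    rw [h7, one_smul]
  have key : ∀ (i j : ℕ) (y : W.H X), 2 * i ≤ X.dim → i + j = X.dim → GCl W j y →
      ∃ x, GCl W i x ∧ W.cl ξ ^ (X.dim - 2 * i) * x = y := by
    intro i
    induction i with
    | zero =>
      intro j y hi hij hy
      exact step 0 j y hi hij hy ((hl.mul hy).big (by omega))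
    | succ i ih =>
      intro j y hi hij hy
      have h4 : GCl W (j + 1) (W.cl ξ * y) := by
        have := hl.mul hy
        rwa [add_comm] at this
      obtain ⟨x', hx', e⟩ := ih (j + 1) _ (by omega) (by omega) h4
      have h5 : GCl W j (y - W.cl ξ ^ (X.dim - 2 * i - 1) * x') := by
        refine hy.sub ?_
        have := GCl.pow_mul hl hx' (X.dim - 2 * i - 1)
        rwa [show i + (X.dim - 2 * i - 1) = j by omega] at this
      obtain ⟨x, hx, e'⟩ := step (i + 1) j _ hi hij h5 (by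
        rw [mul_sub, ← mul_assoc, ← pow_succ', show X.dim - 2 * i - 1 + 1 = X.dim - 2 * i by omega,
          e, sub_self])
      refine ⟨x + W.cl ξ * x', hx.add (by have := hl.mul hx'; rwa [add_comm] at this), ?_⟩
      rw [mul_add, e', ← mul_assoc, ← pow_succ,
        show X.dim - 2 * (i + 1) + 1 = X.dim - 2 * i - 1 by omega]
      abel
  intro i j z hi hij
  obtain ⟨_, ⟨z', rfl⟩, h4⟩ := key i j (W.cl z) hi hij ⟨z, rfl⟩
  exact ⟨z', h4⟩

attribute [local instance] ratH

/-- If homological and numerical equivalence coincide then the classes of cycles form a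
finite-dimensional `ℚ`-space.  Proof: choose cycles whose classes are a basis of the `K`-span; the
intersection numbers with these cycles give an injection of `clQ` into a power of `ℚ`
(`tr_clT`: the traces of classes of cycles are rational; products of classes are classes). -/
theorem finite_clQ {X : 𝒱.Obj} (h : W.HomEqNum X) : FiniteDimensional ℚ (clQ W X) := by
  classical
  have hfg : (W.algSpan X).FG := IsNoetherian.noetherian _
  obtain ⟨t, ht, hspan⟩ := (Submodule.fg_span_iff_fg_span_finset_subset _).1 hfg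
  -- the intersection numbers
  let T : clQ W X →ₗ[ℚ] (t → K) :=
    { toFun := fun x c => W.tr X ((x : W.H X) * (c : W.H X))
      map_add' := fun x y => by
        funext c
        change W.tr X (((x + y : clQ W X) : W.H X) * (c : W.H X)) = _
        rw [Submodule.coe_add, add_mul, map_add]
        rfl
      map_smul' := fun q x => by
        funext c
        change W.tr X (((q • x : clQ W X) : W.H X) * (c : W.H X)) = _
        rw [Submodule.coe_smul, ratH_smul, smul_mul_assoc, map_smul, smul_eq_mul, Pi.smul_apply,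
          Rat.smul_def]
        rfl }
  have hT : ∀ x c, T x c = W.tr X ((x : W.H X) * (c : W.H X)) := fun _ _ => rfl
  let A : (t → ℚ) →ₗ[ℚ] (t → K) := LinearMap.pi fun c => Algebra.linearMap ℚ K ∘ₗ LinearMap.proj c
  have hA : ∀ f c, A f c = ((f c : ℚ) : K) := fun f c => rfl
  have hrange : ∀ x, T x ∈ LinearMap.range A := by
    intro x
    have hq : ∀ c : t, ∃ q : ℚ, (q : K) = W.tr X ((x : W.H X) * (c : W.H X)) := by
      intro c
      obtain ⟨z, hz⟩ := x.2
      obtain ⟨j, z', hz'⟩ := ht c.2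
      rw [← hz, ← hz']
      unfold clT
      rw [Finset.sum_mul, map_sum]
      have h2 : ∀ i, ∃ q : ℚ, (q : K) = W.tr X (W.cl (z i) * W.cl z') := by
        intro i
        obtain ⟨s, hs⟩ := W.alg_mul X i j (z i) z'
        refine ⟨((Pi.single (i + j) s : TCyc X) X.dim).sum fun _ q => q, ?_⟩
        rw [← tr_clT W, clT_single]
        exact congrArg (W.tr X) hs
      choose q hq using h2
      exact ⟨∑ i ∈ Finset.range (X.dim + 1), q i, by
        rw [Rat.cast_sum]
        exact Finset.sum_congr rfl fun i _ => hq i⟩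
    choose q hq using hq
    exact ⟨q, funext fun c => (hA q c).trans (hq c)⟩
  have hinj : Function.Injective (T.codRestrict (LinearMap.range A) hrange) := by
    rw [← LinearMap.ker_eq_bot, LinearMap.ker_eq_bot']
    intro x hx
    have h0 : ∀ c : t, W.tr X ((x : W.H X) * (c : W.H X)) = 0 := by
      intro c
      have h1 : T x = 0 := congrArg Subtype.val hx
      rw [← hT, h1]
      rfl
    have h1 : ∀ b ∈ Submodule.span K (t : Set (W.H X)), W.tr X ((x : W.H X) * b) = 0 := by
      intro b hb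
      induction hb using Submodule.span_induction with
      | mem b hb => exact h0 ⟨b, hb⟩
      | zero => rw [mul_zero, map_zero]
      | add b b' _ _ h2 h3 => rw [mul_add, map_add, h2, h3, add_zero]
      | smul c b _ h2 => rw [mul_smul_comm, map_smul, h2, smul_zero]
    obtain ⟨z, hz⟩ := x.2
    have h2 : ∀ i, i ≤ X.dim → W.cl (z i) = 0 := by
      intro i hi
      refine (h i (z i)).1 fun j z' hij => ?_
      have h3 : W.tr X (clT W z * W.cl z') = 0 := by
        rw [hz]
        refine h1 _ ?_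
        rw [← hspan]
        exact W.cl_mem_algSpan z'
      unfold clT at h3
      rw [Finset.sum_mul, map_sum, Finset.sum_eq_single_of_mem i (by simp; omega)] at h3
      · exact h3
      · intro i' _ hne
        exact W.tr_grad X _ _ (W.mul_mem_grad (W.cl_mem_grad (z i')) (W.cl_mem_grad z'))
          (by omega)
    refine Subtype.ext ?_
    rw [← hz]
    unfold clT
    exact Finset.sum_eq_zero fun i hi => h2 i (by simpa [Nat.lt_succ_iff] using hi)
  exact Module.Finite.of_injective _ hinj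

end Pool.Agent.HD82
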