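import Pool.Agent.W_f569db_hd.OfDegen
import Pool.Agent.W_f569db_hd.Emb
import Pool.Agent.W_f569db_hd.CoreB
import Pool.Agent.W_f569db_hd.LemG

/-! The Hodge standard conjecture for varieties with a semistable degeneration. -/

noncomputable section

set_option linter.unusedSectionVars false

namespace Pool.Agent.HD82

open Module Pool.Agent.WeilH_h6 Pool.Agent.WeilH_h6.VarClass Pool.Agent.H62D Pool.Agent.H62A
  Pool.Agent.H62S Pool.Agent.H79L Pool.Agent.HDcore

universe u v w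

attribute [local instance] ratH

section one

variable {k : Type u} [Field k] {𝒱 : VarClass k} {K : Type v} [Field K]
  [CharZero K] (W : Weil.{u, v, w} 𝒱 K) {J : Type} (Y : J → 𝒱.Obj)

theorem finite_tclQ [Finite J] (h : ∀ a, FiniteDimensional ℚ (clQ W (Y a))) :
    FiniteDimensional ℚ (tclQ W Y) := by
  let φ : tclQ W Y →ₗ[ℚ] ∀ a, clQ W (Y a) :=
    { toFun := fun x a => ⟨(x : Tot W Y) a, x.2 a (Set.mem_univ a)⟩
      map_add' := fun x y => rfl
      map_smul' := fun c x => rfl }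
  refine Module.Finite.of_injective φ ?_
  intro x y hxy
  refine Subtype.ext (funext fun a => ?_)
  exact congrArg Subtype.val (congrFun hxy a)

end one

section str

variable {k : Type u} [Field k] {𝒱 : VarClass k} {K : Type v} [Field K]
  [CharZero K] {W : Weil.{u, v, w} 𝒱 K} (X : Str W) (hX : X.Rational)

namespace Str

/-- the rational operators -/
abbrev qN : Module.End ℚ (tclQ W X.EY) := rs _ X.eN eN_mem
abbrev qf : Module.End ℚ (tclQ W X.EY) := rs _ X.eNd eNd_mem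
abbrev qL : Module.End ℚ (tclQ W X.EY) := rs _ X.eL (eL_mem hX)
abbrev qg : Module.End ℚ (tclQ W X.EY) := rs _ X.eLam (eLam_mem hX)
abbrev qd : Module.End ℚ (tclQ W X.EY) := rs _ X.ed (ed_mem hX)
abbrev qs (p : ℤ) : Module.End ℚ (tclQ W X.EY) := rs _ (posProj W X.EY X.epos p) (pos_mem p)
abbrev qt (w : ℤ) : Module.End ℚ (tclQ W X.EY) :=
  rs _ (degProj W X.EY X.epos X.etw w) (deg_mem w)

theorem qbi : ∃ D : Finset ℤ, Bi X.qN X.qf (X.qL hX) (X.qg hX) (X.qd hX) X.n X.qs X.qt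
    (Finset.univ.image X.epos) D := by
  obtain ⟨D, h⟩ := X.bi
  exact ⟨D, bi_rs _ h _ _ _ _ _ _ _⟩

theorem adapted : Adapted X.qf (X.qg hX) (X.qd hX) X.qs X.qt X.SQ where
  f := ⟨1, fun x y => by
    apply Rat.cast_injective (α := K)
    rw [Units.val_one, Int.cast_one, one_mul, SQ_spec, SQ_spec]
    exact X.eform_eNd _ _⟩
  g := ⟨1, fun x y => by
    apply Rat.cast_injective (α := K)
    rw [Units.val_one, Int.cast_one, one_mul, SQ_spec, SQ_spec]
    exact X.eform_eLam _ _⟩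
  d := ⟨fun _ _ => 1, fun _ _ => ⟨rfl, rfl⟩, fun w p x y => by
    apply Rat.cast_injective (α := K)
    rw [Units.val_one, Int.cast_one, one_mul, SQ_spec, SQ_spec]
    exact X.eform_ed _ _⟩

theorem graded : Graded X.n X.qs X.qt X.SQ where
  s := fun p x y => by
    apply Rat.cast_injective (α := K)
    rw [SQ_spec, SQ_spec]
    exact X.eform_posProj _ _ _
  t := fun w x y => by
    apply Rat.cast_injective (α := K)
    rw [SQ_spec, SQ_spec]
    exact X.eform_degProj _ _ _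

variable {X} {pol : ∀ a, Cyc (X.Y a) 1} (hL : X.L = mulCl W X.Y pol)

include hL in
theorem anis (hH : ∀ a, Hdg W (X.Y a) (pol a)) :
    Anis X.qN X.qf (X.qL hX) (X.qg hX) X.n X.qs X.qt X.SQ := by
  intro i j x ht hs hf hg hS
  by_contra hx0
  obtain ⟨m, -, q, hq, h⟩ := prim_pos hL hH i j (x : Tot W X.EY) x.2
    (congrArg Subtype.val ht) (congrArg Subtype.val hs) (congrArg Subtype.val hf)
    (congrArg Subtype.val hg) (fun h => hx0 (Subtype.ext h))
  have h1 : X.eform (x : Tot W X.EY) ((X.eN ^ i) ((X.eL ^ j) (x : Tot W X.EY))) = 0 := by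
    have h2 := SQ_spec x (((X.qN) ^ i) (((X.qL hX) ^ j) x))
    rw [hS, rs_pow, rs_pow, Rat.cast_zero] at h2
    exact h2.symm
  rw [h1] at h
  have h3 : ((-1 : K) ^ m * (q : K)) ≠ 0 :=
    mul_ne_zero (pow_ne_zero _ (neg_ne_zero.2 one_ne_zero)) (Rat.cast_ne_zero.2 hq.ne')
  exact h3 h.symm

include hX hL in
/-- A cocycle of classes of cycles which is a coboundary is the coboundary of classes of cycles. -/
theorem inj_one (hH : ∀ a, Hdg W (X.Y a) (pol a))
    (hfin : ∀ a, FiniteDimensional ℚ (clQ W (X.Y a))) (x : Tot W X.EY) (hx : x ∈ tclQ W X.EY)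
    (hdx : X.ed x = 0) (h : ∃ b, X.ed b = x) : ∃ y ∈ tclQ W X.EY, X.ed y = x := by
  have hfin' : FiniteDimensional ℚ (tclQ W X.EY) := finite_tclQ W X.EY fun c => hfin c.1
  obtain ⟨Dg, hbi⟩ := X.qbi hX
  have hS := X.adapted hX
  have hG := X.graded
  have hA := anis hX hL hH
  obtain ⟨π, hπ⟩ := exists_proj hbi hS hA
  obtain ⟨b, hb⟩ := h
  obtain ⟨y, hy⟩ := inj hbi hS hG hA hπ (K := K) (E := Tot W X.EY)
      (tclQ W X.EY).subtype.toAddMonoidHom
      X.ed.toAddMonoidHom X.eform (fun x => rfl) (fun x y => (SQ_spec x y).symm)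
      (fun b y hy => by
        have h1 : X.ed (y : Tot W X.EY) = 0 := congrArg Subtype.val hy
        change X.eform (X.ed b) (y : Tot W X.EY) = 0
        rw [X.eform_ed, h1]
        exact (X.eS b).map_zero) ⟨x, hx⟩ (Subtype.ext hdx) b hb.symm
  exact ⟨y, y.2, (congrArg Subtype.val hy).symm⟩

include hX hL in
/-- Cocycles of classes of cycles which are linearly independent modulo coboundaries over `ℚ` are
so over `K`. -/
theorem inj_fam (hH : ∀ a, Hdg W (X.Y a) (pol a))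
    (hfin : ∀ a, FiniteDimensional ℚ (clQ W (X.Y a))) {T : Type} [Fintype T]
    (x : T → Tot W X.EY) (hx : ∀ t, x t ∈ tclQ W X.EY) (hdx : ∀ t, X.ed (x t) = 0)
    (hind : ∀ q : T → ℚ, (∃ y, X.ed y = ∑ t, (q t : K) • x t) → q = 0) (c : T → K)
    (h : ∃ b, X.ed b = ∑ t, c t • x t) : c = 0 := by
  have hfin' : FiniteDimensional ℚ (tclQ W X.EY) := finite_tclQ W X.EY fun c => hfin c.1
  obtain ⟨Dg, hbi⟩ := X.qbi hX
  have hS := X.adapted hX
  have hG := X.graded
  have hA := anis hX hL hH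
  obtain ⟨π, hπ⟩ := exists_proj hbi hS hA
  obtain ⟨b, hb⟩ := h
  refine inj_lin hbi hS hG hA hπ (K := K) (E := Tot W X.EY)
    (tclQ W X.EY).subtype.toAddMonoidHom X.ed X.eS (fun x y => (SQ_spec x y).symm)
    (fun b y hy => ?_) (fun t => ⟨x t, hx t⟩) (fun t => Subtype.ext (hdx t)) (fun q hq => ?_) c b
    hb.symm
  · have h1 : X.ed (y : Tot W X.EY) = 0 := congrArg Subtype.val hy
    change X.eform (X.ed b) (y : Tot W X.EY) = 0
    rw [X.eform_ed, h1]
    exact (X.eS b).map_zero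
  · obtain ⟨y, hy⟩ := hq
    refine hind q ⟨y, ?_⟩
    have h1 := congrArg Subtype.val hy
    rw [Submodule.coe_sum] at h1
    exact h1.symm

include hX hL in
/-- The Hodge index theorem for the classes of cycles of level `0`. -/
theorem hodge (hH : ∀ a, Hdg W (X.Y a) (pol a)) (hfin : ∀ a, FiniteDimensional ℚ (clQ W (X.Y a)))
    (i : ℕ) (hi : 2 * i ≤ X.n) (c : Tot W X.Y) (h0 : ∀ a, X.lev a ≠ 0 → c a = 0)
    (hc : ∀ a, c a ∈ clQ W (X.Y a)) (hdeg : ∀ a, X.lev a = 0 → c a ∈ gradZ W (X.Y a) (2 * i))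
    (hres : X.res c = 0) (hprim : ∃ y, X.ed y = X.em ((X.L ^ (X.n - 2 * i + 1)) c)) :
    (∃ y, X.ed y = X.em c) ∨ ∃ q : ℚ, 0 < q ∧
      pairing W X.Y ((X.L ^ (X.n - 2 * i)) c) c = (-1) ^ i * (q : K) := by
  have hfin' : FiniteDimensional ℚ (tclQ W X.EY) := finite_tclQ W X.EY fun c => hfin c.1
  obtain ⟨Dg, hbi⟩ := X.qbi hX
  have hS := X.adapted hX
  have hG := X.graded
  have hA := anis hX hL hH
  obtain ⟨π, hπ⟩ := exists_proj hbi hS hA
  set r := X.n - 2 * i with hr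
  set a : tclQ W X.EY := ⟨X.em c, em_mem hc⟩ with ha
  have hinj : ∀ x : tclQ W X.EY, X.qd hX x = 0 → ∀ b, (x : Tot W X.EY) = X.ed b →
      ∃ y, x = X.qd hX y := fun x hx b hb =>
    inj hbi hS hG hA hπ (K := K) (E := Tot W X.EY) (tclQ W X.EY).subtype.toAddMonoidHom
      X.ed.toAddMonoidHom X.eform (fun x => rfl) (fun x y => (SQ_spec x y).symm)
      (fun b y hy => by
        have h1 : X.ed (y : Tot W X.EY) = 0 := congrArg Subtype.val hy
        change X.eform (X.ed b) (y : Tot W X.EY) = 0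
        rw [X.eform_ed, h1]
        exact (X.eS b).map_zero) x hx b hb
  have hda : X.qd hX a = 0 := Subtype.ext (em_d h0 hres)
  have hLk : ∀ m : ℕ, X.qd hX (((X.qL hX) ^ m) a) = 0 := by
    intro m
    have h1 : ∀ z, X.qL hX (X.qd hX z) = X.qd hX (X.qL hX z) := fun z =>
      LinearMap.congr_fun hbi.Ld z
    induction m with
    | zero => exact hda
    | succ m ih => rw [pow_succ', Module.End.mul_apply, ← h1, ih, map_zero]
  have hLa : ∃ y, ((X.qL hX) ^ (r + 1)) a = X.qd hX y := by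
    obtain ⟨b, hb⟩ := hprim
    refine hinj _ (hLk (r + 1)) b ?_
    rw [rs_pow, hb, em_pow hL]
  have hpos := pos hbi hS hπ r ((-1) ^ i) ?_ a (Subtype.ext (em_pos h0)) ?_ hda
    (Subtype.ext (em_N h0)) hLa
  · rcases hpos with h | h
    · left
      obtain ⟨y, hy⟩ := h
      exact ⟨y, (congrArg Subtype.val hy).symm⟩
    · right
      refine ⟨_, h, ?_⟩
      rw [← eform_em h0 hL hc, Rat.cast_mul, SQ_spec, rs_pow, Rat.cast_pow, Rat.cast_neg,
        Rat.cast_one, ← mul_assoc, ← mul_pow, neg_one_mul, neg_neg, one_pow, one_mul]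
  · intro x hs ht hN hf hg hx0
    obtain ⟨m, hm, q, hq, h⟩ := prim_pos hL hH 0 r (x : Tot W X.EY) x.2
      (congrArg Subtype.val ht) (by
        rw [Nat.cast_zero, neg_zero]
        exact congrArg Subtype.val hs) (congrArg Subtype.val hf)
      (congrArg Subtype.val hg) (fun h => hx0 (Subtype.ext h))
    have hm' : m = i := by omega
    subst hm'
    have h2 : ((X.SQ x (((X.qL hX) ^ r) x) : ℚ) : K) = (-1) ^ m * (q : K) := by
      rw [SQ_spec, rs_pow]
      exact h
    have h3 : X.SQ x (((X.qL hX) ^ r) x) = (-1) ^ m * q := by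
      apply Rat.cast_injective (α := K)
      rw [h2, Rat.cast_mul, Rat.cast_pow, Rat.cast_neg, Rat.cast_one]
    rw [h3, ← mul_assoc, ← mul_pow, neg_one_mul, neg_neg, one_pow, one_mul]
    exact hq
  · refine Subtype.ext ?_
    have h2 : ((X.n : ℤ) - (r : ℤ)) = 2 * (i : ℤ) := by omega
    change degProj W X.EY X.epos X.etw ((X.n : ℤ) - (r : ℤ)) (X.em c) = X.em c
    rw [h2]
    exact em_deg h0 hdeg

end Str

end str

variable {k₀ k : Type u} [Field k₀] [Field k] {𝒱₀ : VarClass k₀} {𝒱 : VarClass k} {K : Type v}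
  [Field K] [CharZero K] {W₀ : Weil.{u, v, w} 𝒱₀ K} {W : Weil.{u, v, w} 𝒱 K} {X : 𝒱.Obj}
  {ξ : Cyc X 1}

section fin

variable {α : Type u} {M : Type w} [AddCommGroup M] [Module K M] (f : α → M)

lemma sum_one (a : α) : ((Finsupp.single a (1 : K)).sum fun z q => q • f z) = f a := by
  rw [← Finsupp.linearCombination_apply K, Finsupp.linearCombination_single, one_smul]

lemma sum_fam {T : Type} [Fintype T] (z : T → α) (c : T → K) :
    ((∑ t, Finsupp.single (z t) (c t)).sum fun z q => q • f z) = ∑ t, c t • f (z t) := by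
  rw [← Finsupp.linearCombination_apply K, map_sum]
  exact Finset.sum_congr rfl fun t _ => Finsupp.linearCombination_single K _ _

end fin

namespace Degen

variable (D : Degen W₀ W X ξ)

/-- the specialisation of `z` -/
def s {i : ℕ} (z : Cyc X i) : Tot W₀ D.Y := clZ W₀ D.Y D.lev (D.sp z)

lemma exact_one (i r : ℕ) (z : Cyc X i) : W.cl ξ ^ r * W.cl z = 0 ↔
    ∃ y, diffOf W₀ D.Y D.lev D.res D.gys y = emb W₀ D.Y D.lev
      ((mulCl W₀ D.Y D.pol ^ r) (clZ W₀ D.Y D.lev (D.sp z))) := by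
  have h := D.exact i r (Finsupp.single z 1)
  rwa [sum_one (K := K) (fun z : Cyc X i => W.cl ξ ^ r * W.cl z) z,
    sum_one (K := K) (fun z : Cyc X i =>
      (mulCl W₀ D.Y D.pol ^ r) (clZ W₀ D.Y D.lev (D.sp z))) z] at h

lemma s_mem {i : ℕ} (z : Cyc X i) (a : D.J) : D.s z a ∈ clQ W₀ (D.Y a) := by
  change (if D.lev a = 0 then W₀.cl (D.sp z a) else 0) ∈ clQ W₀ (D.Y a)
  split_ifs
  · exact cl_mem_clQ W₀ _
  · exact Submodule.zero_mem _

end Degen

theorem hdg_main (D : Degen W₀ W X ξ) (hL : ∀ a, HardLefA W₀ (D.Y a) (D.pol a))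
    (hH : ∀ a, Hdg W₀ (D.Y a) (D.pol a)) : Hdg W X ξ := by
  intro i z hi hprim hz
  have hfin : ∀ a, FiniteDimensional ℚ (clQ W₀ (D.Y a)) := fun a =>
    finite_clQ W₀ (homEqNum_of W₀ (lefA_of_hard W₀ (hL a)) (hH a))
  have h := (Str.hodge (X := D.str hL) (D.rational hL) (pol := D.pol) rfl hH hfin i hi
    (clZ W₀ D.Y D.lev (D.sp z)) (fun a ha => if_neg ha) (D.s_mem z) (fun a ha => ?_)
    (D.closed i z) ((D.exact_one i (X.dim - 2 * i + 1) z).1 hprim))
  · rcases h with h | ⟨q, hq, h⟩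
    · exfalso
      apply hz
      have h1 := (D.exact_one i 0 z).2 h
      rwa [pow_zero, one_mul] at h1
    · exact ⟨q, hq, (D.trace i i (X.dim - 2 * i) z z (by omega)).trans h⟩
  · change (if D.lev a = 0 then W₀.cl (D.sp z a) else 0) ∈ gradZ W₀ (D.Y a) (2 * i)
    have ha' : D.lev a = 0 := ha
    rw [if_pos ha']
    unfold gradZ
    rw [if_pos (by omega), show (2 * (i : ℤ)).toNat = 2 * i by omega]
    exact W₀.cl_mem_grad _

/-- Homological equivalence on `X` is determined by classes of cycles on the strata. -/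
theorem crit_main (D : Degen W₀ W X ξ) (hL : ∀ a, HardLefA W₀ (D.Y a) (D.pol a))
    (hH : ∀ a, Hdg W₀ (D.Y a) (D.pol a)) (i : ℕ) (z : Cyc X i) (h : W.cl z = 0) :
    ∃ y ∈ tclQ W₀ (copiesOf D.Y D.lev), diffOf W₀ D.Y D.lev D.res D.gys y =
      emb W₀ D.Y D.lev (clZ W₀ D.Y D.lev (D.sp z)) := by
  have hfin : ∀ a, FiniteDimensional ℚ (clQ W₀ (D.Y a)) := fun a =>
    finite_clQ W₀ (homEqNum_of W₀ (lefA_of_hard W₀ (hL a)) (hH a))
  have h1 := (D.exact_one i 0 z).1 (by rw [pow_zero, one_mul]; exact h)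
  exact Str.inj_one (X := D.str hL) (D.rational hL) (pol := D.pol) rfl hH hfin
    ((D.str hL).em (D.s z)) (Str.em_mem (D.s_mem z))
    (Str.em_d (X := D.str hL) (fun a ha => if_neg ha) (D.closed i z)) h1

/-- Classes of cycles on `X` which are linearly independent over `ℚ` are so over `K`. -/
theorem indep_main (D : Degen W₀ W X ξ) (hL : ∀ a, HardLefA W₀ (D.Y a) (D.pol a))
    (hH : ∀ a, Hdg W₀ (D.Y a) (D.pol a)) (i m : ℕ) (z : Fin m → Cyc X i)
    (hz : ∀ q : Fin m → ℚ, W.cl (∑ t, q t • z t) = 0 → q = 0) (c : Fin m → K)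
    (hc : ∑ t, c t • W.cl (z t) = 0) : c = 0 := by
  have hfin : ∀ a, FiniteDimensional ℚ (clQ W₀ (D.Y a)) := fun a =>
    finite_clQ W₀ (homEqNum_of W₀ (lefA_of_hard W₀ (hL a)) (hH a))
  -- linear combinations of the `z t`
  have key : ∀ c : Fin m → K, ∑ t, c t • W.cl (z t) = 0 ↔
      ∃ y, (D.str hL).ed y = ∑ t, c t • (D.str hL).em (D.s (z t)) := by
    intro c
    have h := D.exact i 0 (∑ t, Finsupp.single (z t) (c t))
    have e1 : ((∑ t, Finsupp.single (z t) (c t)).sum fun z q => q • (W.cl ξ ^ 0 * W.cl z)) =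
        ∑ t, c t • W.cl (z t) := by
      rw [sum_fam (fun z : Cyc X i => W.cl ξ ^ 0 * W.cl z) z c]
      refine Finset.sum_congr rfl fun t _ => ?_
      rw [pow_zero, one_mul]
    have e2 : ((∑ t, Finsupp.single (z t) (c t)).sum fun z q =>
        q • (mulCl W₀ D.Y D.pol ^ 0) (clZ W₀ D.Y D.lev (D.sp z))) = ∑ t, c t • D.s (z t) :=
      sum_fam (fun z : Cyc X i => (mulCl W₀ D.Y D.pol ^ 0) (clZ W₀ D.Y D.lev (D.sp z))) z c
    rw [e1, e2] at h
    rw [h]
    have e3 : emb W₀ D.Y D.lev (∑ t, c t • D.s (z t)) =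
        ∑ t, c t • (D.str hL).em (D.s (z t)) := (D.str hL).em_sum c fun t => D.s (z t)
    rw [e3]
    rfl
  refine Str.inj_fam (X := D.str hL) (D.rational hL) (pol := D.pol) rfl hH hfin
    (fun t => (D.str hL).em (D.s (z t))) (fun t => Str.em_mem (D.s_mem (z t)))
    (fun t => Str.em_d (X := D.str hL) (fun a ha => if_neg ha) (D.closed i (z t)))
    (fun q hq => ?_) c ((key c).1 hc)
  refine hz q ?_
  have h1 := (key fun t => (q t : K)).2 hq
  rw [← h1]
  have h2 : ∀ s : Finset (Fin m), W.cl (∑ t ∈ s, q t • z t) = ∑ t ∈ s, (q t : K) • W.cl (z t) := by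
    intro s
    induction s using Finset.induction_on with
    | empty => rw [Finset.sum_empty, Finset.sum_empty, cl_zero]
    | insert t s ht ih => rw [Finset.sum_insert ht, Finset.sum_insert ht, cl_add, cl_smul, ih]
  exact h2 _

end Pool.Agent.HD82
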