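import Pool.Agent.W_f569db_hd.Stmt
import Pool.Agent.W_f569db_hd.Final

/-! From the definitions of the statement to the working structure. -/

noncomputable section

set_option linter.unusedSectionVars false

namespace Pool.Agent.SemiDeg

open Module Pool.Agent.WeilH_h6 Pool.Agent.WeilH_h6.VarClass Pool.Agent.H62D Pool.Agent.H62A
  Pool.Agent.H62S Pool.Agent.HD82

universe u v w

attribute [local instance] ratH

section one

variable {k : Type u} [Field k] {𝒱 : VarClass k} {K : Type v} [Field K]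
  [CharZero K] (W : Weil.{u, v, w} 𝒱 K)

lemma isCycle_iff {X : 𝒱.Obj} {x : W.H X} : IsCycle W x ↔ x ∈ clQ W X := Iff.rfl

lemma gradZ_nat {X : 𝒱.Obj} (m : ℕ) : gradZ W X (m : ℤ) = W.grad X m := by
  unfold gradZ
  rw [if_pos (by omega), Int.toNat_natCast]

theorem hard_of {X : 𝒱.Obj} {ξ : Cyc X 1} (h : SemiDeg.HardLefA W X ξ) :
    HD82.HardLefA W X ξ := by
  obtain ⟨Λ, h1, h2, h3, h4⟩ := h
  refine ⟨Λ, fun m x hx => ?_, fun m x hx => ?_, fun i z => h4 _ (cl_mem_clQ W z)⟩
  · by_cases hm : 0 ≤ m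
    · obtain ⟨m, rfl⟩ := Int.eq_ofNat_of_zero_le hm
      rw [gradZ_nat] at hx
      by_cases h : m < 2
      · rw [h1 m h x hx]
        exact Submodule.zero_mem _
      · obtain ⟨m, rfl⟩ : ∃ r, m = r + 2 := ⟨m - 2, by omega⟩
        have h5 := h2 m x hx
        rw [← gradZ_nat] at h5
        rwa [show (((m + 2 : ℕ) : ℤ) - 2) = (m : ℤ) by push_cast; ring]
    · unfold gradZ at hx
      rw [if_neg hm] at hx
      rw [(Submodule.mem_bot K).1 hx, map_zero]
      exact Submodule.zero_mem _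
  · by_cases hm : 0 ≤ m
    · obtain ⟨m, rfl⟩ := Int.eq_ofNat_of_zero_le hm
      rw [gradZ_nat] at hx
      refine (h3 m x hx).trans ?_
      push_cast
      rfl
    · unfold gradZ at hx
      rw [if_neg hm] at hx
      rw [(Submodule.mem_bot K).1 hx, map_zero, mul_zero, map_zero, sub_zero, smul_zero]

lemma dual_left {X : 𝒱.Obj} {g : W.H X} (h : ∀ y, W.deg (y * g) = 0) : g = 0 := by
  have h1 : W.par X g = 0 := by
    refine W.axDuality X _ fun y => ?_
    have h2 := W.tr_comm (W.par X g) y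
    rw [W.par_par] at h2
    exact h2.trans (h y)
  have h2 := congrArg (W.par X) h1
  rwa [W.par_par, map_zero] at h2

lemma sum_fin {α M : Type*} [AddCommMonoid M] (c : α →₀ K) (f : α → K → M) :
    c.sum f = ∑ t, f (c.support.equivFin.symm t) (c (c.support.equivFin.symm t)) := by
  unfold Finsupp.sum
  rw [← Finset.sum_coe_sort]
  exact (c.support.equivFin.symm.sum_comp fun z : c.support => f z (c z)).symm

end one

variable {k₀ k : Type u} [Field k₀] [Field k] {𝒱₀ : VarClass k₀} {𝒱 : VarClass k} {K : Type v}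
  [Field K] [CharZero K] {W₀ : Weil.{u, v, w} 𝒱₀ K} {W : Weil.{u, v, w} 𝒱 K} {X : 𝒱.Obj}
  {ξ : Cyc X 1} (D : Degeneration W₀ W X ξ)

namespace Degeneration

lemma dim_eq (a : D.J) : (D.Y a).dim + D.lev a = X.dim := D.axDim a

lemma res_lev (a b : D.J) (x : W₀.H (D.Y a)) (h : D.lev b ≠ D.lev a + 1) : D.res a b x = 0 :=
  D.axLev a b x h

lemma res_grad (a b : D.J) (m : ℕ) (x : W₀.H (D.Y a)) (hx : x ∈ W₀.grad (D.Y a) m) :
    D.res a b x ∈ W₀.grad (D.Y b) m := (D.axGrad a b m).1 x hx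

lemma gys_grad (a b : D.J) (m : ℕ) (x : W₀.H (D.Y a)) (hx : x ∈ W₀.grad (D.Y a) m) :
    D.gys a b x ∈ W₀.grad (D.Y b) (m + 2) := (D.axGrad a b m).2 x hx

lemma adjoint (a b : D.J) (x : W₀.H (D.Y a)) (y : W₀.H (D.Y b)) :
    W₀.deg (D.res a b x * y) = W₀.deg (x * D.gys b a y) := D.axAdjoint a b x y

lemma sp_lev (i : ℕ) (z : Cyc X i) (a : D.J) (h : D.lev a ≠ 0) : D.sp z a = 0 :=
  D.axSpLev i z a h

lemma gys_lev (a b : D.J) (x : W₀.H (D.Y a)) (h : D.lev a ≠ D.lev b + 1) : D.gys a b x = 0 := by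
  refine dual_left W₀ fun y => ?_
  rw [← D.adjoint b a y x, D.res_lev b a y h, zero_mul]
  exact map_zero (W₀.tr _)

lemma gys_par (a b : D.J) (x : W₀.H (D.Y a)) :
    D.gys a b (W₀.par (D.Y a) x) = W₀.par (D.Y b) (D.gys a b x) := by
  refine W₀.hom_induction (P := fun x => D.gys a b (W₀.par (D.Y a) x) =
    W₀.par (D.Y b) (D.gys a b x)) (by simp) ?_ ?_ x
  · intro x y hx hy
    simp only [map_add, hx, hy]
  · intro m x hx
    rw [W₀.par_apply hx, map_smul, W₀.par_apply (D.gys_grad a b m x hx), pow_add]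
    norm_num

lemma adjoint' (a b : D.J) (x : W₀.H (D.Y a)) (y : W₀.H (D.Y b)) :
    W₀.deg (D.gys a b x * y) = W₀.deg (x * D.res b a y) := by
  have h1 : W₀.deg (D.gys a b x * y) = W₀.deg (y * D.gys a b (W₀.par (D.Y a) x)) := by
    rw [gys_par]
    exact W₀.tr_comm _ _
  rw [h1, ← D.adjoint b a y]
  exact (W₀.tr_comm _ _).symm

/-- the total restriction -/
def tres : TEnd W₀ D.Y := LinearMap.pi fun b => ∑ a, D.res a b ∘ₗ LinearMap.proj a

/-- the total Gysin map -/
def tgys : TEnd W₀ D.Y := LinearMap.pi fun b => ∑ a, D.gys a b ∘ₗ LinearMap.proj a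

lemma tres_apply (x : Tot W₀ D.Y) (b : D.J) : D.tres x b = ∑ a, D.res a b (x a) := by
  unfold tres
  rw [LinearMap.pi_apply, LinearMap.sum_apply]
  rfl

lemma tgys_apply (x : Tot W₀ D.Y) (b : D.J) : D.tgys x b = ∑ a, D.gys a b (x a) := by
  unfold tgys
  rw [LinearMap.pi_apply, LinearMap.sum_apply]
  rfl

lemma bideg_of {s t : ℤ} {T : TEnd W₀ D.Y} (φ : ∀ a b, W₀.Hom (D.Y a) (D.Y b))
    (hT : ∀ x b, T x b = ∑ a, φ a b (x a))
    (h0 : ∀ a b x, (D.lev b : ℤ) ≠ D.lev a + t → φ a b x = 0)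
    (hg : ∀ a b, (D.lev b : ℤ) = D.lev a + t → ∀ m : ℤ, ∀ x ∈ gradZ W₀ (D.Y a) m,
      φ a b x ∈ gradZ W₀ (D.Y b) (m + s - t)) :
    LevBidegree W₀ D.Y D.lev s t T := by
  refine ⟨fun w x hx b _ => ?_, fun p x hx b _ => ?_⟩
  · rw [hT]
    refine Submodule.sum_mem _ fun a _ => ?_
    by_cases h : (D.lev b : ℤ) = D.lev a + t
    · have h1 := hg a b h _ _ (hx a (Set.mem_univ a))
      have h2 : w - (D.lev a : ℤ) - 2 * (0 : D.J → ℤ) a + s - t =
        w + s - (D.lev b : ℤ) - 2 * (0 : D.J → ℤ) b := by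
        rw [h]
        simp only [Pi.zero_apply]
        ring
      rw [h2] at h1
      exact h1
    · rw [h0 a b _ h]
      exact Submodule.zero_mem _
  · change T x b ∈ (if (D.lev b : ℤ) = p + t then ⊤ else ⊥ : Submodule K (W₀.H (D.Y b)))
    split_ifs with hb
    · exact Submodule.mem_top
    · rw [hT]
      refine Submodule.sum_mem _ fun a _ => ?_
      have h1 : x a ∈ (if (D.lev a : ℤ) = p then ⊤ else ⊥ : Submodule K (W₀.H (D.Y a))) :=
        hx a (Set.mem_univ a)
      by_cases ha : (D.lev a : ℤ) = p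
      · rw [h0 a b _ (by rw [ha]; exact hb)]
        exact Submodule.zero_mem _
      · rw [if_neg ha] at h1
        rw [(Submodule.mem_bot K).1 h1, map_zero]
        exact Submodule.zero_mem _

lemma gradZ_of {X Y : 𝒱₀.Obj} {φ : W₀.Hom X Y} {s : ℕ}
    (h : ∀ m, ∀ x ∈ W₀.grad X m, φ x ∈ W₀.grad Y (m + s)) (m : ℤ) (x : W₀.H X)
    (hx : x ∈ gradZ W₀ X m) : φ x ∈ gradZ W₀ Y (m + s) := by
  by_cases hm : 0 ≤ m
  · obtain ⟨m, rfl⟩ := Int.eq_ofNat_of_zero_le hm
    rw [gradZ_nat] at hx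
    have h1 := h m x hx
    rw [← gradZ_nat] at h1
    rwa [Nat.cast_add] at h1
  · unfold gradZ at hx
    rw [if_neg hm] at hx
    rw [(Submodule.mem_bot K).1 hx, map_zero]
    exact Submodule.zero_mem _

lemma clZ_eq {i : ℕ} (z : Cyc X i) (a : D.J) :
    clZ W₀ D.Y D.lev (D.sp z) a = W₀.cl (D.sp z a) := by
  unfold clZ
  split_ifs with h
  · rfl
  · rw [D.sp_lev i z a h, cl_zero]

lemma mulCl_pow (r : ℕ) (c : Tot W₀ D.Y) (a : D.J) : (mulCl W₀ D.Y D.pol ^ r) c a =
    W₀.cl (D.pol a) ^ r * c a := by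
  induction r with
  | zero => rw [pow_zero (W₀.cl _), one_mul]; rfl
  | succ r ih =>
    rw [pow_succ', Module.End.mul_apply, pow_succ', mul_assoc, ← ih]
    rfl

lemma slice_mk (y : Tot W₀ (copiesOf D.Y D.lev)) {j : ℕ} {b : D.J} (h : j < D.lev b + 1) :
    sliceFun W₀ D.Y D.lev j y b = y ⟨b, ⟨j, h⟩⟩ := by
  unfold sliceFun
  rw [dif_pos h]

lemma diff_apply (y : Tot W₀ (copiesOf D.Y D.lev)) (a : D.J) (j : Fin (D.lev a + 1)) :
    diffOf W₀ D.Y D.lev D.tres D.tgys y ⟨a, j⟩ =
      (if 1 ≤ (j : ℕ) then ∑ b, D.res b a (sliceFun W₀ D.Y D.lev (j - 1) y b) else 0) +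
        ∑ b, D.gys b a (sliceFun W₀ D.Y D.lev j y b) := by
  have h1 : diffOf W₀ D.Y D.lev D.tres D.tgys y ⟨a, j⟩ =
      (if 1 ≤ (j : ℕ) then D.tres (sliceFun W₀ D.Y D.lev (j - 1) y) a else 0) +
        (if 0 ≤ (j : ℕ) then D.tgys (sliceFun W₀ D.Y D.lev (j - 0) y) a else 0) := rfl
  rw [h1, if_pos (Nat.zero_le _), Nat.sub_zero, tres_apply, tgys_apply]

/-- a tuple on the strata from a vector of the `E_1`-term -/
def flat (y : Tot W₀ (copiesOf D.Y D.lev)) : ∀ b, W₀.H (D.Y b) :=
  fun b => sliceFun W₀ D.Y D.lev (D.lev b / 2) y b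

theorem descend (c : Tot W₀ D.Y) (hc : ∀ a, D.lev a ≠ 0 → c a = 0)
    (y : Tot W₀ (copiesOf D.Y D.lev))
    (hy : diffOf W₀ D.Y D.lev D.tres D.tgys y = emb W₀ D.Y D.lev c) (a : D.J)
    (ha : Even (D.lev a)) :
    ∑ b, (D.res b a (D.flat y b) + D.gys b a (D.flat y b)) = c a := by
  obtain ⟨j, hj⟩ := ha
  have h1 := congrFun hy ⟨a, ⟨j, by omega⟩⟩
  rw [diff_apply] at h1
  have hR : emb W₀ D.Y D.lev c ⟨a, ⟨j, by omega⟩⟩ = c a := by
    change (if j = 0 then c a else 0) = c a
    split_ifs with h4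
    · rfl
    · exact (hc a (by omega)).symm
  rw [hR] at h1
  rw [← h1, Finset.sum_add_distrib]
  congr 1
  · change _ = if 1 ≤ j then ∑ b, D.res b a (sliceFun W₀ D.Y D.lev (j - 1) y b) else 0
    split_ifs with h4
    · refine Finset.sum_congr rfl fun b _ => ?_
      change D.res b a (sliceFun W₀ D.Y D.lev (D.lev b / 2) y b) =
        D.res b a (sliceFun W₀ D.Y D.lev (j - 1) y b)
      by_cases hb : D.lev a = D.lev b + 1
      · rw [show D.lev b / 2 = j - 1 by omega]
      · rw [D.res_lev b a _ hb, D.res_lev b a _ hb]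
    · exact Finset.sum_eq_zero fun b _ => D.res_lev b a _ (by omega)
  · refine Finset.sum_congr rfl fun b _ => ?_
    change D.gys b a (sliceFun W₀ D.Y D.lev (D.lev b / 2) y b) =
      D.gys b a (sliceFun W₀ D.Y D.lev j y b)
    by_cases hb : D.lev b = D.lev a + 1
    · rw [show D.lev b / 2 = j by omega]
    · rw [D.gys_lev b a _ hb, D.gys_lev b a _ hb]

theorem exact_iff (c : Tot W₀ D.Y) (hc : ∀ a, D.lev a ≠ 0 → c a = 0) :
    (∃ y : ∀ a, W₀.H (D.Y a), ∀ a, Even (D.lev a) →
      ∑ b, (D.res b a (y b) + D.gys b a (y b)) = c a) ↔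
    ∃ y, diffOf W₀ D.Y D.lev D.tres D.tgys y = emb W₀ D.Y D.lev c := by
  constructor
  · rintro ⟨y, hy⟩
    refine ⟨fun c => if D.lev c.1 = 2 * (c.2 : ℕ) + 1 then y c.1 else 0, ?_⟩
    have hsl : ∀ (j : ℕ) (b : D.J), sliceFun W₀ D.Y D.lev j
        (fun c => if D.lev c.1 = 2 * (c.2 : ℕ) + 1 then y c.1 else 0) b =
        if D.lev b = 2 * j + 1 then y b else 0 := by
      intro j b
      unfold sliceFun
      by_cases h1 : j < D.lev b + 1
      · rw [dif_pos h1]
      · rw [dif_neg h1, if_neg (by omega)]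
    funext ⟨a, j⟩
    rw [diff_apply]
    simp only [hsl]
    have hR : emb W₀ D.Y D.lev c ⟨a, j⟩ = if (j : ℕ) = 0 then c a else 0 := rfl
    rw [hR]
    by_cases hj : D.lev a = 2 * (j : ℕ)
    · have h1 := hy a ⟨j, by omega⟩
      rw [Finset.sum_add_distrib] at h1
      have h2 : ∑ b, D.gys b a (if D.lev b = 2 * (j : ℕ) + 1 then y b else 0) =
          ∑ b, D.gys b a (y b) := by
        refine Finset.sum_congr rfl fun b _ => ?_
        split_ifs with hb
        · rfl
        · rw [map_zero, D.gys_lev b a _ (by omega)]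
      have h3 : (if 1 ≤ (j : ℕ) then
          ∑ b, D.res b a (if D.lev b = 2 * ((j : ℕ) - 1) + 1 then y b else 0) else 0) =
          ∑ b, D.res b a (y b) := by
        split_ifs with h4
        · refine Finset.sum_congr rfl fun b _ => ?_
          split_ifs with hb
          · rfl
          · rw [map_zero, D.res_lev b a _ (by omega)]
        · symm
          exact Finset.sum_eq_zero fun b _ => D.res_lev b a _ (by omega)
      rw [h2, h3, h1]
      split_ifs with h4
      · rfl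
      · exact hc a (by omega)
    · have h2 : ∑ b, D.gys b a (if D.lev b = 2 * (j : ℕ) + 1 then y b else 0) = 0 := by
        refine Finset.sum_eq_zero fun b _ => ?_
        split_ifs with hb
        · exact D.gys_lev b a _ (by omega)
        · rw [map_zero]
      have h3 : (if 1 ≤ (j : ℕ) then
          ∑ b, D.res b a (if D.lev b = 2 * ((j : ℕ) - 1) + 1 then y b else 0) else 0) = 0 := by
        split_ifs with h4
        · refine Finset.sum_eq_zero fun b _ => ?_
          split_ifs with hb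
          · exact D.res_lev b a _ (by omega)
          · rw [map_zero]
        · rfl
      rw [h2, h3, add_zero]
      split_ifs with h4
      · exact (hc a (by omega)).symm
      · rfl
  · rintro ⟨y, hy⟩
    exact ⟨_, D.descend c hc y hy⟩

/-- the working structure -/
def toDegen : Degen W₀ W X ξ where
  J := D.J
  Y := D.Y
  lev := D.lev
  dim_eq := D.dim_eq
  pol := D.pol
  res := D.tres
  gys := D.tgys
  cycles := by
    constructor
    · intro x hx b
      have h1 : D.tres x b ∈ clQ W₀ (D.Y b) := by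
        rw [tres_apply]
        exact Submodule.sum_mem _ fun a _ => (D.axCycle a b).1 _ (hx a)
      exact h1
    · intro x hx b
      have h1 : D.tgys x b ∈ clQ W₀ (D.Y b) := by
        rw [tgys_apply]
        exact Submodule.sum_mem _ fun a _ => (D.axCycle a b).2 _ (hx a)
      exact h1
  bidegree := by
    constructor
    · refine D.bideg_of D.res D.tres_apply (fun a b x h => D.res_lev a b x (by omega)) ?_
      intro a b _ m x hx
      have h1 := gradZ_of (s := 0) (fun m x hx => D.res_grad a b m x hx) m x hx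
      rw [show m + 1 - 1 = m + ((0 : ℕ) : ℤ) by push_cast; ring]
      exact h1
    · refine D.bideg_of D.gys D.tgys_apply (fun a b x h => D.gys_lev a b x (by omega)) ?_
      intro a b _ m x hx
      have h1 := gradZ_of (s := 2) (fun m x hx => D.gys_grad a b m x hx) m x hx
      rw [show m + 1 - -1 = m + ((2 : ℕ) : ℤ) by push_cast; ring]
      exact h1
  square := by
    intro x
    funext c
    rw [tres_apply]
    simp only [tres_apply, map_sum]
    rw [Finset.sum_comm]
    exact Finset.sum_eq_zero fun a _ => D.axSquare a c (x a)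
  anti := by
    intro x hx
    funext c
    rw [Pi.add_apply, tres_apply, tgys_apply]
    simp only [tres_apply, tgys_apply, map_sum]
    have e1 : ∑ b, ∑ a, D.res b c (D.gys a b (x a)) = ∑ a, ∑ b, D.res b c (D.gys a b (x a)) :=
      Finset.sum_comm
    have e2 : ∑ b, ∑ a, D.gys b c (D.res a b (x a)) = ∑ a, ∑ b, D.gys b c (D.res a b (x a)) :=
      Finset.sum_comm
    rw [e1, e2, ← Finset.sum_add_distrib]
    refine Finset.sum_eq_zero fun a _ => ?_
    by_cases ha : D.lev a = 0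
    · rw [hx a ha]
      simp
    · exact D.axAnti a c (x a) ha
  comm := by
    intro x
    funext b
    change W₀.cl (D.pol b) * D.tres x b = D.tres (mulCl W₀ D.Y D.pol x) b
    rw [tres_apply, tres_apply, Finset.mul_sum]
    exact Finset.sum_congr rfl fun a _ => (D.axPol a b (x a)).symm
  adjoint := by
    constructor
    · intro x y
      unfold pairing
      simp only [tres_apply, tgys_apply, Finset.sum_mul, Finset.mul_sum]
      have h1 : ∀ b, W₀.deg (∑ a, D.res a b (x a) * y b) = ∑ a, W₀.deg (D.res a b (x a) * y b) :=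
        fun b => map_sum (W₀.tr _) _ _
      have h2 : ∀ a, W₀.deg (∑ b, x a * D.gys b a (y b)) = ∑ b, W₀.deg (x a * D.gys b a (y b)) :=
        fun a => map_sum (W₀.tr _) _ _
      simp only [h1, h2]
      rw [Finset.sum_comm]
      exact Finset.sum_congr rfl fun a _ => Finset.sum_congr rfl fun b _ => D.adjoint a b _ _
    · intro x y
      unfold pairing
      simp only [tres_apply, tgys_apply, Finset.sum_mul, Finset.mul_sum]
      have h1 : ∀ b, W₀.deg (∑ a, D.gys a b (x a) * y b) = ∑ a, W₀.deg (D.gys a b (x a) * y b) :=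
        fun b => map_sum (W₀.tr _) _ _
      have h2 : ∀ a, W₀.deg (∑ b, x a * D.res b a (y b)) = ∑ b, W₀.deg (x a * D.res b a (y b)) :=
        fun a => map_sum (W₀.tr _) _ _
      simp only [h1, h2]
      rw [Finset.sum_comm]
      exact Finset.sum_congr rfl fun a _ => Finset.sum_congr rfl fun b _ => D.adjoint' a b _ _
  sp := D.sp
  closed := by
    intro i z
    funext b
    rw [tres_apply]
    simp only [clZ_eq]
    exact D.axClosed i z b
  exact := by
    intro i r c
    have h1 : (c.sum fun z q => q • (W.cl ξ ^ r * W.cl z)) =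
        ∑ t, c (c.support.equivFin.symm t) •
          (W.cl ξ ^ r * W.cl (c.support.equivFin.symm t : Cyc X i)) :=
      sum_fin c fun z q => q • (W.cl ξ ^ r * W.cl z)
    have h2 : (c.sum fun z q => q • (mulCl W₀ D.Y D.pol ^ r) (clZ W₀ D.Y D.lev (D.sp z))) =
        D.comb (fun t => c (c.support.equivFin.symm t)) fun t =>
          D.mulPol r (D.spCl (c.support.equivFin.symm t : Cyc X i)) := by
      rw [sum_fin c fun z q => q • (mulCl W₀ D.Y D.pol ^ r) (clZ W₀ D.Y D.lev (D.sp z))]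
      refine Finset.sum_congr rfl fun t _ => ?_
      congr 1
      funext a
      rw [mulCl_pow, clZ_eq]
      rfl
    rw [h1, h2, D.axExact i r _ _ _]
    refine D.exact_iff _ fun a ha => ?_
    unfold DegenData.comb
    rw [Finset.sum_apply]
    refine Finset.sum_eq_zero fun t _ => ?_
    change c (c.support.equivFin.symm t) • (W₀.cl (D.pol a) ^ r *
      W₀.cl (D.sp (c.support.equivFin.symm t : Cyc X i) a)) = 0
    rw [D.sp_lev i _ a ha, cl_zero, mul_zero, smul_zero]
  trace := by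
    intro i j r z z' h
    rw [D.axTrace i j r z z' h]
    refine Finset.sum_congr rfl fun a _ => ?_
    change W₀.deg (W₀.cl (D.pol a) ^ r * (W₀.cl (D.sp z a) * W₀.cl (D.sp z' a))) = _
    rw [mulCl_pow, clZ_eq, clZ_eq, mul_assoc]

end Degeneration

/-- Homological equivalence on `X` is determined by classes of cycles on the strata. -/
theorem crit (D : Degeneration W₀ W X ξ) (hL : ∀ a, SemiDeg.HardLefA W₀ (D.Y a) (D.pol a))
    (hH : ∀ a, SemiDeg.Hdg W₀ (D.Y a) (D.pol a)) (i : ℕ) (z : Cyc X i) : W.cl z = 0 ↔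
      D.IsCycleBd (D.spCl z) := by
  constructor
  · intro h
    obtain ⟨y, hy, hy'⟩ := crit_main D.toDegen (fun a => hard_of W₀ (hL a)) hH i z h
    refine ⟨D.flat y, fun a => ?_, fun a ha => ?_⟩
    · change sliceFun W₀ D.Y D.lev (D.lev a / 2) y a ∈ clQ W₀ (D.Y a)
      unfold sliceFun
      split_ifs with h1
      · exact hy ⟨a, ⟨D.lev a / 2, h1⟩⟩ (Set.mem_univ _)
      · exact Submodule.zero_mem _
    · exact (D.descend (clZ W₀ D.Y D.lev (D.sp z)) (fun a ha => if_neg ha) y hy' a ha).trans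
        (D.clZ_eq z a)
  · rintro ⟨y, -, hy⟩
    have h := (D.toDegen.exact_one i 0 z).2 ?_
    · rwa [pow_zero, one_mul] at h
    · refine (D.exact_iff (clZ W₀ D.Y D.lev (D.sp z)) (fun a ha => if_neg ha)).1 ⟨y, ?_⟩
      intro a ha
      exact (hy a ha).trans (D.clZ_eq z a).symm

theorem main (W₀ : Weil.{u, v, w} 𝒱₀ K) (W : Weil.{u, v, w} 𝒱 K) (X : 𝒱.Obj)
    (ξ : Cyc X 1) (D : Degeneration W₀ W X ξ) (hL : ∀ a, SemiDeg.HardLefA W₀ (D.Y a) (D.pol a))
    (hH : ∀ a, SemiDeg.Hdg W₀ (D.Y a) (D.pol a)) :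
    SemiDeg.Hdg W X ξ ∧ CycIndep W X ∧
      (∀ (i : ℕ) (z : Cyc X i), W.cl z = 0 ↔ D.IsCycleBd (D.spCl z)) ∧
      (SemiDeg.LefA W X ξ → W.HomEqNum X) := by
  have h := HD82.hdg_main D.toDegen (fun a => hard_of W₀ (hL a)) hH
  exact ⟨h, HD82.indep_main D.toDegen (fun a => hard_of W₀ (hL a)) hH, crit D hL hH,
    fun hA => HD82.homEqNum_of W hA h⟩

end Pool.Agent.SemiDeg
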