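import Pool.Agent.W_MP_a3c811_h79.Lap.Real

/-! The rational part of the weight spectral sequence: harmonic projector, injectivity after
extension of scalars, positivity. -/

noncomputable section

namespace Pool.Agent.HDcore

open Module Polynomial Pool.Agent.H79L

universe u v w

variable {V : Type w} [AddCommGroup V] [Module ℚ V] [FiniteDimensional ℚ V]
  {N f L g d : Module.End ℚ V} {n : ℤ} {s t : ℤ → Module.End ℚ V} {P D : Finset ℤ}

/-- The form `S` is anisotropic on the primitive parts. -/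
def Anis (N f L g : Module.End ℚ V) (n : ℤ) (s t : ℤ → Module.End ℚ V)
    (S : V →ₗ[ℚ] V →ₗ[ℚ] ℚ) : Prop :=
  ∀ (i j : ℕ) (x : V), t (n - j) x = x → s (-i) x = x → f x = 0 → g x = 0 →
    S x ((N ^ i) ((L ^ j) x)) = 0 → x = 0

omit [FiniteDimensional ℚ V] in
theorem shift_t (h : Bi N f L g d n s t P D) (w : ℤ) : t w * lap f g d = lap f g d * t w := by
  have hd : ∀ p, d * t p = t (p + 1) * d := h.dt
  have hg : ∀ p, g * t p = t (p + -2) * g := h.gt
  have hf : ∀ p, f * t p = t (p + 0) * f := fun p => by rw [h.ft, add_zero]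
  have h1 := shift_br hf (shift_br hg hd)
  have h2 := shift_mul hd h1 w
  have h3 := shift_mul h1 hd w
  change t w * (d * br f (br g d) + br f (br g d) * d) =
    (d * br f (br g d) + br f (br g d) * d) * t w
  rw [add_mul, mul_add, h2, h3]
  norm_num

omit [FiniteDimensional ℚ V] in
theorem Bi.gr_t (h : Bi N f L g d n s t P D) {w p : ℤ} {x : V} (h1 : t w x = x)
    (h2 : s p x = x) : t w (s p x) = x := by rw [h2, h1]

theorem Anis.noIso {S : V →ₗ[ℚ] V →ₗ[ℚ] ℚ} (h : Bi N f L g d n s t P D)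
    (hA : Anis N f L g n s t S) : NoIso ⊤ N f L g n s t S := by
  intro u _ i j hu hf hg hS
  refine LinearMap.ext fun x => ?_
  have hx := hu x
  have ht : t (n - j) (u x) = u x := by
    have := LinearMap.congr_fun (h.idemt (n - j)) (s (-i) (u x))
    rw [Module.End.mul_apply, hx] at this
    exact this
  have hs : s (-i) (u x) = u x := by
    have h1 : s (-i : ℤ) (t (n - j) (s (-i) (u x))) = t (n - j) (s (-i) (s (-i) (u x))) :=
      LinearMap.congr_fun (h.st (n - j) (-i)) (s (-i) (u x))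
    have h2 : s (-i : ℤ) (s (-i) (u x)) = s (-i) (u x) :=
      LinearMap.congr_fun (h.sl.idem (-i)) (u x)
    rw [h2, hx] at h1
    exact h1
  exact hA i j (u x) ht hs (LinearMap.congr_fun hf x) (LinearMap.congr_fun hg x) (hS x x)

/-- The harmonic projector. -/
structure Proj (N f L g d : Module.End ℚ V) (s t : ℤ → Module.End ℚ V) (π : Module.End ℚ V) :
    Prop where
  idem : ∀ x, π (π x) = π x
  cN : ∀ x, π (N x) = N (π x)
  cf : ∀ x, π (f x) = f (π x)
  cL : ∀ x, π (L x) = L (π x)
  cg : ∀ x, π (g x) = g (π x)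
  cs : ∀ p x, π (s p x) = s p (π x)
  ct : ∀ w x, π (t w x) = t w (π x)
  dπ : ∀ x, d (π x) = 0
  πd : ∀ x, π (d x) = 0
  dec : ∀ x, d x = 0 → ∃ y, x = π x + d y

theorem exists_proj (h : Bi N f L g d n s t P D) {S : V →ₗ[ℚ] V →ₗ[ℚ] ℚ}
    (hS : Adapted f g d s t S) (hA : Anis N f L g n s t S) :
    ∃ π : Module.End ℚ V, Proj N f L g d s t π := by
  set Δ := lap f g d with hΔ
  have h0 : aeval Δ Δ.charpoly = 0 := LinearMap.aeval_self_charpoly Δ
  obtain ⟨p, q, F⟩ := exists_fitting (R := Module.End ℚ V) Δ Δ.charpoly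
    (LinearMap.charpoly_monic Δ).ne_zero h0
  set π := aeval Δ p with hπ
  set G := aeval Δ q with hG
  have cm : ∀ x : Module.End ℚ V, x * Δ = Δ * x → ∀ y, π (x y) = x (π y) := fun x hx y =>
    (LinearMap.congr_fun (commute_aeval hx p) y).symm
  have cG : ∀ x : Module.End ℚ V, x * Δ = Δ * x → ∀ y, G (x y) = x (G y) := fun x hx y =>
    (LinearMap.congr_fun (commute_aeval hx q) y).symm
  obtain ⟨m, hm⟩ := F.nil
  have hdπ : d * π = 0 := h.aniso' hS ⊤ trivial trivial trivial trivial trivial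
    (hA.noIso h) (γ := π) trivial hm
  have e1 : ∀ x, d (π x) = 0 := fun x => LinearMap.congr_fun hdπ x
  have e2 : ∀ x, π (d x) = 0 := fun x => by rw [cm d h.lap_d.symm, e1]
  refine ⟨π, fun x => LinearMap.congr_fun F.idem x, cm N h.lap_N.symm, cm f h.lap_f.symm,
    cm L h.lap_L.symm, cm g h.lap_g.symm, fun p => cm (s p) (h.lap_s p), fun w =>
    cm (t w) (shift_t h w), e1, e2, fun x hx => ?_⟩
  refine ⟨br f (br g d) (G x), ?_⟩
  have h1 : Δ (G x) = x - π x := LinearMap.congr_fun F.inv x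
  have h2 : Δ (G x) = d (br f (br g d) (G x)) + br f (br g d) (d (G x)) := rfl
  have h3 : d (G x) = 0 := by rw [← cG d h.lap_d.symm, hx, map_zero]
  rw [h3, map_zero, add_zero, h1] at h2
  rw [← h2]
  abel

/-- The form `S` pairs position `p` with `-p` and degree `w` with `2 n - w`. -/
structure Graded (n : ℤ) (s t : ℤ → Module.End ℚ V) (S : V →ₗ[ℚ] V →ₗ[ℚ] ℚ) : Prop where
  s : ∀ p x y, S (s p x) y = S x (s (-p) y)
  t : ∀ w x y, S (t w x) y = S x (t (2 * n - w) y)

omit [FiniteDimensional ℚ V] in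
theorem Sl.pow_zero {N f : Module.End ℚ V} {s : ℤ → Module.End ℚ V} {P : Finset ℤ}
    (h : Sl N f s P) {p : ℤ} {x : V} (hx : s p x = x) (hx0 : x ≠ 0) :
    ∃ k : ℕ, (f ^ k) x ≠ 0 ∧ f ((f ^ k) x) = 0 ∧ s (p - 2 * k) ((f ^ k) x) = (f ^ k) x := by
  have key : ∀ k : ℕ, s (p - 2 * k) ((f ^ k) x) = (f ^ k) x := by
    intro k
    induction k with
    | zero => simpa using hx
    | succ k ih =>
      rw [pow_succ', Module.End.mul_apply]
      have := h.mem_f ih
      rw [show p - 2 * ((k + 1 : ℕ) : ℤ) = p - 2 * k - 2 by push_cast; ring]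
      exact this
  obtain ⟨B, hB⟩ := h.low
  have hz : ∃ k : ℕ, (f ^ k) x = 0 := by
    refine ⟨(p - B + 1).toNat, hB _ ?_ _ (key _)⟩
    omega
  classical
  have hk := Nat.find_spec hz
  obtain ⟨k, hk'⟩ : ∃ k, Nat.find hz = k + 1 := by
    refine Nat.exists_eq_succ_of_ne_zero fun h0 => ?_
    rw [h0] at hk
    exact hx0 (by simpa using hk)
  refine ⟨k, Nat.find_min hz (by omega), ?_, key k⟩
  rw [hk', pow_succ', Module.End.mul_apply] at hk
  exact hk

/-- The form is nondegenerate on the harmonic vectors. -/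
theorem radical (h : Bi N f L g d n s t P D) {S : V →ₗ[ℚ] V →ₗ[ℚ] ℚ}
    (hS : Adapted f g d s t S) (hG : Graded n s t S) (hA : Anis N f L g n s t S)
    {π : Module.End ℚ V} (hπ : Proj N f L g d s t π) (x : V) (hx : π x = x)
    (h0 : ∀ y, π y = y → S x y = 0) : x = 0 := by
  set R : V → Prop := fun x => π x = x ∧ ∀ y, π y = y → S x y = 0 with hR
  have Rf : ∀ x, R x → R (f x) := by
    intro x hx
    refine ⟨by rw [hπ.cf, hx.1], fun y hy => ?_⟩
    obtain ⟨ε, hε⟩ := hS.f
    rw [hε, hx.2 _ (by rw [hπ.cf, hy]), mul_zero]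
  have Rg : ∀ x, R x → R (g x) := by
    intro x hx
    refine ⟨by rw [hπ.cg, hx.1], fun y hy => ?_⟩
    obtain ⟨ε, hε⟩ := hS.g
    rw [hε, hx.2 _ (by rw [hπ.cg, hy]), mul_zero]
  have Rs : ∀ p x, R x → R (s p x) := fun p x hx =>
    ⟨by rw [hπ.cs, hx.1], fun y hy => by rw [hG.s, hx.2 _ (by rw [hπ.cs, hy])]⟩
  have Rt : ∀ w x, R x → R (t w x) := fun w x hx =>
    ⟨by rw [hπ.ct, hx.1], fun y hy => by rw [hG.t, hx.2 _ (by rw [hπ.ct, hy])]⟩
  have Rfk : ∀ k x, R x → R ((f ^ k) x) := by
    intro k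
    induction k with
    | zero => intro x hx; exact hx
    | succ k ih => intro x hx; rw [pow_succ', Module.End.mul_apply]; exact Rf _ (ih x hx)
  have Rgk : ∀ k x, R x → R ((g ^ k) x) := by
    intro k
    induction k with
    | zero => intro x hx; exact hx
    | succ k ih => intro x hx; rw [pow_succ', Module.End.mul_apply]; exact Rg _ (ih x hx)
  -- homogeneous vectors
  have hom : ∀ w p x, R x → t w x = x → s p x = x → x = 0 := by
    intro w p x hx hw hp
    by_contra hx0
    obtain ⟨k, k1, k2, k3⟩ := Sl.pow_zero h.sl hp hx0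
    set x1 := (f ^ k) x with hx1
    have Rx1 : R x1 := Rfk k x hx
    have tw1 : t w x1 = x1 := by
      have h1 : (f ^ k) * t w = t w * (f ^ k) := by
        have h2 : Commute f (t w) := h.ft w
        exact (h2.pow_left k)
      have h2 := LinearMap.congr_fun h1 x
      rw [Module.End.mul_apply, Module.End.mul_apply, hw] at h2
      exact h2.symm
    -- the second triple
    have hsl2 := h.sl2
    have hw' : t (w - n + n) x1 = x1 := by rw [sub_add_cancel]; exact tw1
    obtain ⟨m, m1, m2, m3⟩ := Sl.pow_zero hsl2 (p := w - n) (x := x1) hw' k1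
    set x2 := (g ^ m) x1 with hx2
    have Rx2 : R x2 := Rgk m x1 Rx1
    have f2 : f x2 = 0 := by
      have h1 : f * g ^ m = g ^ m * f := by
        have h2 : Commute f g := h.fg
        exact h2.pow_right m
      have h2 := LinearMap.congr_fun h1 x1
      rw [Module.End.mul_apply, Module.End.mul_apply, k2, map_zero] at h2
      exact h2
    have s2 : s (p - 2 * k) x2 = x2 := by
      have h1 : g ^ m * s (p - 2 * k) = s (p - 2 * k) * g ^ m := by
        have h2 : Commute g (s (p - 2 * k)) := h.gs _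
        exact h2.pow_left m
      have h2 := LinearMap.congr_fun h1 x1
      rw [Module.End.mul_apply, Module.End.mul_apply, k3] at h2
      exact h2.symm
    have hp0 : p - 2 * k ≤ 0 := by
      by_contra hc
      exact m1 (h.sl.f_ne (by omega) s2 f2)
    have hw0 : w - n - 2 * m ≤ 0 := by
      by_contra hc
      exact m1 (hsl2.f_ne (by omega) m3 m2)
    obtain ⟨i, hi⟩ := Int.eq_ofNat_of_zero_le (show 0 ≤ -(p - 2 * k) by omega)
    obtain ⟨j, hj⟩ := Int.eq_ofNat_of_zero_le (show 0 ≤ -(w - n - 2 * m) by omega)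
    have s3 : s (-(i : ℤ)) x2 = x2 := by rw [← hi, neg_neg]; exact s2
    have t3 : t (n - j) x2 = x2 := by
      have h1 : t (w - n - 2 * m + n) x2 = x2 := m3
      rw [← hj, show n - -(w - n - 2 * m) = w - n - 2 * m + n by ring]
      exact h1
    refine m1 (hA i j x2 t3 s3 f2 m2 ?_)
    refine Rx2.2 _ ?_
    have hN : ∀ (i : ℕ) y, π y = y → π ((N ^ i) y) = (N ^ i) y := by
      intro i
      induction i with
      | zero => intro y hy; exact hy
      | succ i ih =>
        intro y hy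
        rw [pow_succ', Module.End.mul_apply, hπ.cN, ih y hy]
    have hL : ∀ (i : ℕ) y, π y = y → π ((L ^ i) y) = (L ^ i) y := by
      intro i
      induction i with
      | zero => intro y hy; exact hy
      | succ i ih =>
        intro y hy
        rw [pow_succ', Module.End.mul_apply, hπ.cL, ih y hy]
    exact hN _ _ (hL _ _ Rx2.1)
  have Rx : R x := ⟨hx, h0⟩
  rw [h.decomp x]
  refine Finset.sum_eq_zero fun w _ => Finset.sum_eq_zero fun p _ => ?_
  have hts := tsapp h w p x
  have i1 : t w (t w (s p x)) = t w (s p x) := LinearMap.congr_fun (h.idemt w) (s p x)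
  have i2 : s p (t w (s p x)) = t w (s p x) := by
    have h1 : s p (t w (s p x)) = t w (s p (s p x)) := LinearMap.congr_fun (h.st w p) (s p x)
    have h2 : s p (s p x) = s p x := LinearMap.congr_fun (h.sl.idem p) x
    rw [h1, h2]
  exact hom w p _ (Rt w _ (Rs p x Rx)) i1 i2

/-- Coboundaries are orthogonal to cocycles. -/
theorem orth_left (h : Bi N f L g d n s t P D) {S : V →ₗ[ℚ] V →ₗ[ℚ] ℚ}
    (hS : Adapted f g d s t S) (x y : V) (hy : d y = 0) : S (d x) y = 0 := by
  obtain ⟨ε, -, hd⟩ := hS.d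
  exact h.kill (S := S) (a := d) (fun w p => ⟨_, fun x y => hd w p x y⟩) x y hy

theorem orth_right (h : Bi N f L g d n s t P D) {S : V →ₗ[ℚ] V →ₗ[ℚ] ℚ}
    (hS : Adapted f g d s t S) (x y : V) (hx : d x = 0) : S x (d y) = 0 := by
  obtain ⟨ε, -, hd⟩ := hS.d
  rw [h.decomp x]
  simp only [map_sum, LinearMap.sum_apply]
  refine Finset.sum_eq_zero fun w _ => Finset.sum_eq_zero fun p _ => ?_
  have h1 := hd w p x y
  have h2 : d (t w (s p x)) = 0 := by rw [h.d_ts, hx, map_zero, map_zero]
  rw [h2, map_zero, LinearMap.zero_apply] at h1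
  rcases Int.units_eq_one_or (ε w p) with h3 | h3
  · rw [h3] at h1; simpa using h1.symm
  · rw [h3] at h1; simpa using h1.symm

/-- A cocycle whose image in a complex over a larger field is a coboundary is a coboundary. -/
theorem inj (h : Bi N f L g d n s t P D) {S : V →ₗ[ℚ] V →ₗ[ℚ] ℚ}
    (hS : Adapted f g d s t S) (hG : Graded n s t S) (hA : Anis N f L g n s t S)
    {π : Module.End ℚ V} (hπ : Proj N f L g d s t π)
    {K : Type v} [Field K] [CharZero K] {E : Type u} [AddCommGroup E] (ι : V →+ E) (δ : E →+ E)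
    (SK : E → E → K) (hd : ∀ x, ι (d x) = δ (ι x)) (hSK : ∀ x y, SK (ι x) (ι y) = (S x y : K))
    (hadj : ∀ b y, d y = 0 → SK (δ b) (ι y) = 0) (x : V) (hx : d x = 0) (b : E)
    (hb : ι x = δ b) : ∃ y, x = d y := by
  obtain ⟨y, hy⟩ := hπ.dec x hx
  have h1 : π x = 0 := by
    refine radical h hS hG hA hπ (π x) (hπ.idem x) fun z hz => ?_
    have h2 : ι (π x) = δ (b - ι y) := by
      have h3 : ι x = ι (π x) + ι (d y) := by
        conv_lhs => rw [hy]
        rw [map_add]
      rw [map_sub, ← hb, h3, hd]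
      abel
    have h3 : SK (ι (π x)) (ι z) = 0 := by
      rw [h2]
      refine hadj _ _ ?_
      rw [← hz, hπ.dπ]
    rw [hSK] at h3
    exact_mod_cast h3
  exact ⟨y, by rw [h1, zero_add] at hy; exact hy⟩

/-- The form is positive on classes of position `0` killed by `N` and primitive in the cohomology,
if it is on the primitive vectors killed by `d`, `N` and `f`. -/
theorem pos (h : Bi N f L g d n s t P D) {S : V →ₗ[ℚ] V →ₗ[ℚ] ℚ}
    (hS : Adapted f g d s t S) {π : Module.End ℚ V} (hπ : Proj N f L g d s t π) (r : ℕ) (c : ℚ)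
    (hc : ∀ x, s 0 x = x → t (n - r) x = x → N x = 0 → f x = 0 → g x = 0 → x ≠ 0 →
      0 < c * S x ((L ^ r) x))
    (a : V) (ha0 : s 0 a = a) (har : t (n - r) a = a) (hda : d a = 0) (hNa : N a = 0)
    (hL : ∃ y, (L ^ (r + 1)) a = d y) : (∃ y, a = d y) ∨ 0 < c * S a ((L ^ r) a) := by
  obtain ⟨y, hy⟩ := hπ.dec a hda
  set x := π a with hx
  have hLk : ∀ (i : ℕ) y, π ((L ^ i) y) = (L ^ i) (π y) := by
    intro i
    induction i with
    | zero => intro y; rfl
    | succ i ih =>
      intro y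
      rw [pow_succ', Module.End.mul_apply, hπ.cL, ih, Module.End.mul_apply]
  have dLk : ∀ (i : ℕ) y, d ((L ^ i) y) = (L ^ i) (d y) := by
    intro i
    induction i with
    | zero => intro y; rfl
    | succ i ih =>
      intro y
      have h1 : ∀ z, L (d z) = d (L z) := fun z => LinearMap.congr_fun h.Ld z
      rw [pow_succ', Module.End.mul_apply, ← h1, ih, Module.End.mul_apply]
  have hs : s 0 x = x := by rw [hx, ← hπ.cs, ha0]
  have ht : t (n - r) x = x := by rw [hx, ← hπ.ct, har]
  have hN : N x = 0 := by rw [hx, ← hπ.cN, hNa, map_zero]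
  have hf : f x = 0 := by
    refine h.sl.ker_N x ?_
    rw [h.sl.comm_app hs, hN, map_zero, zero_add, Int.cast_zero, zero_smul]
  have hLr : (L ^ (r + 1)) x = 0 := by
    obtain ⟨z, hz⟩ := hL
    rw [hx, ← hLk, hz, hπ.πd]
  have hsl2 := h.sl2
  have ht' : (fun p => t (p + n)) (-(r : ℤ)) x = x := by
    show t (-(r : ℤ) + n) x = x
    rw [show -(r : ℤ) + n = n - r by ring]
    exact ht
  have hg : g x = 0 := by
    have h1 := hsl2.f_Npow ht' r
    rw [hLr, map_zero] at h1
    have h2 : (((r + 1) * (-(r : ℤ) + r) : ℤ) : ℚ) = 0 := by push_cast; ring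
    rw [h2, zero_smul, sub_zero, ← Module.End.mul_apply, ← pow_succ] at h1
    refine hsl2.inj (r + 2) (r + 1) (by omega) (g x) ?_ h1.symm
    have h3 := hsl2.mem_f ht'
    have h4 : -((r + 2 : ℕ) : ℤ) = -(r : ℤ) - 2 := by push_cast; ring
    rw [h4]
    exact h3
  by_cases hx0 : x = 0
  · left
    exact ⟨y, by rw [hx0, zero_add] at hy; exact hy⟩
  · right
    have h1 := hc x hs ht hN hf hg hx0
    have h2 : S a ((L ^ r) a) = S x ((L ^ r) x) := by
      have hdx : d x = 0 := hπ.dπ a
      rw [hy, map_add (L ^ r), map_add S, LinearMap.add_apply, map_add (S x), map_add (S (d y)),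
        ← dLk, orth_right h hS x _ hdx, orth_left h hS y _ (by rw [dLk, hdx, map_zero]),
        orth_left h hS y _ (by
          have h5 : ∀ z, d (d z) = 0 := fun z => LinearMap.congr_fun h.dd z
          exact h5 _)]
      ring
    rw [h2]
    exact h1

end Pool.Agent.HDcore
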