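import Pool.Agent.W_f569db_hd.Bridge
import Pool.Agent.W_f569db_v2.Ann

/-! If `D` holds for the strata: homological equivalence on `X` is described by classes of cycles on
the strata, and classes of cycles on `X` which are linearly independent over `ℚ` are so over `K`. -/

noncomputable section

set_option linter.unusedSectionVars false

namespace Pool.Agent.SemiDeg

open Module Pool.Agent.WeilH_h6 Pool.Agent.WeilH_h6.VarClass Pool.Agent.H62D Pool.Agent.H62A
  Pool.Agent.H62S Pool.Agent.HD82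

universe u v w

attribute [local instance] ratH

variable {k₀ k : Type u} [Field k₀] [Field k] {𝒱₀ : VarClass k₀} {𝒱 : VarClass k} {K : Type v}
  [Field K] [CharZero K] {W₀ : Weil.{u, v, w} 𝒱₀ K} {W : Weil.{u, v, w} 𝒱 K} {X : 𝒱.Obj}
  {ξ : Cyc X 1} (D : Degeneration W₀ W X ξ)

namespace Degeneration

/-- tuples of classes of cycles on the strata -/
abbrev C : Submodule ℚ (Tot W₀ D.Y) := tclQ W₀ D.Y

lemma mem_C {x : Tot W₀ D.Y} : x ∈ D.C ↔ ∀ a, x a ∈ clQ W₀ (D.Y a) := by
  constructor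
  · intro h a
    exact h a (Set.mem_univ a)
  · intro h a _
    exact h a

/-- the pairing as a bilinear form over `K` -/
def pf : Tot W₀ D.Y →ₗ[K] Tot W₀ D.Y →ₗ[K] K :=
  ∑ a, ((LinearMap.mul K (W₀.H (D.Y a))).compl₁₂ (LinearMap.proj a) (LinearMap.proj a)).compr₂
    (W₀.tr (D.Y a))

lemma pf_apply (x y : Tot W₀ D.Y) : D.pf x y = ∑ a, W₀.deg (x a * y a) := by
  unfold pf
  simp only [LinearMap.sum_apply]
  rfl

lemma pf_rat {x y : Tot W₀ D.Y} (hx : x ∈ D.C) (hy : y ∈ D.C) : ∃ q : ℚ, (q : K) = D.pf x y := by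
  have h : D.pf x y ∈ (algebraMap ℚ K).range := by
    rw [pf_apply]
    refine Subring.sum_mem _ fun a _ => ?_
    obtain ⟨q, hq⟩ := deg_rat W₀ (mul_mem_clQ W₀ (D.mem_C.1 hx a) (D.mem_C.1 hy a))
    exact ⟨q, by rw [hq]; rfl⟩
  obtain ⟨q, hq⟩ := h
  exact ⟨q, hq⟩

/-- the value of the form on classes of cycles -/
def qv (x y : D.C) : ℚ := Classical.choose (D.pf_rat x.2 y.2)

lemma qv_spec (x y : D.C) : ((D.qv x y : ℚ) : K) = D.pf (x : Tot W₀ D.Y) y :=
  Classical.choose_spec (D.pf_rat x.2 y.2)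

/-- the rational form on tuples of classes of cycles -/
def qf : D.C →ₗ[ℚ] D.C →ₗ[ℚ] ℚ :=
  LinearMap.mk₂ ℚ D.qv
    (fun x x' y => by
      apply Rat.cast_injective (α := K)
      rw [Rat.cast_add, qv_spec, qv_spec, qv_spec]
      change D.pf ((x : Tot W₀ D.Y) + x') y = _
      rw [map_add]; rfl)
    (fun c x y => by
      apply Rat.cast_injective (α := K)
      rw [smul_eq_mul, Rat.cast_mul, qv_spec, qv_spec]
      change D.pf ((c : K) • (x : Tot W₀ D.Y)) y = _
      rw [map_smul]; rfl)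
    (fun x y y' => by
      apply Rat.cast_injective (α := K)
      rw [Rat.cast_add, qv_spec, qv_spec, qv_spec]
      change D.pf (x : Tot W₀ D.Y) ((y : Tot W₀ D.Y) + y') = _
      rw [map_add])
    (fun c x y => by
      apply Rat.cast_injective (α := K)
      rw [smul_eq_mul, Rat.cast_mul, qv_spec, qv_spec]
      change D.pf (x : Tot W₀ D.Y) ((c : K) • (y : Tot W₀ D.Y)) = _
      rw [map_smul]; rfl)

lemma qf_spec (x y : D.C) : ((D.qf x y : ℚ) : K) = D.pf (x : Tot W₀ D.Y) y := D.qv_spec x y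

/-- `D` for the strata: the form is nondegenerate -/
lemma eq_zero_of_orth (h : ∀ a, W₀.HomEqNum (D.Y a)) {x : Tot W₀ D.Y} (hx : x ∈ D.C)
    (h0 : ∀ y ∈ D.C, D.pf x y = 0) : x = 0 := by
  classical
  funext a
  refine W₀.nt_eq_zero_of_homEqNum (h a) ⟨clQ_le_algSpan W₀ (D.mem_C.1 hx a), fun b hb => ?_⟩
  unfold Weil.algSpan at hb
  induction hb using Submodule.span_induction with
  | mem b hb =>
    obtain ⟨j, z, rfl⟩ := hb
    have h1 := h0 (Pi.single a (W₀.cl z)) (D.mem_C.2 fun b => by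
      by_cases hb : b = a
      · subst hb
        rw [Pi.single_eq_same]
        exact cl_mem_clQ W₀ z
      · rw [Pi.single_eq_of_ne hb]
        exact Submodule.zero_mem _)
    rw [pf_apply, Finset.sum_eq_single a] at h1
    · rwa [Pi.single_eq_same] at h1
    · intro b _ hb
      rw [Pi.single_eq_of_ne hb, mul_zero]
      exact map_zero (W₀.tr _)
    · intro h
      exact absurd (Finset.mem_univ a) h
  | zero => rw [mul_zero, map_zero]
  | add b c _ _ hb hc => rw [mul_add, map_add, hb, hc, add_zero]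
  | smul r b _ hb => rw [mul_smul_comm, map_smul, hb, smul_zero]

/-- the part on the strata of even level -/
def ev : Tot W₀ D.Y →ₗ[K] Tot W₀ D.Y where
  toFun x a := if Even (D.lev a) then x a else 0
  map_add' x y := by
    funext a
    change (if Even (D.lev a) then x a + y a else 0) =
      (if Even (D.lev a) then x a else 0) + (if Even (D.lev a) then y a else 0)
    split_ifs <;> simp
  map_smul' c x := by
    funext a
    change (if Even (D.lev a) then c • x a else 0) = c • (if Even (D.lev a) then x a else 0)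
    split_ifs <;> simp

lemma ev_apply (x : Tot W₀ D.Y) (a : D.J) : D.ev x a = if Even (D.lev a) then x a else 0 := rfl

lemma ev_mem {x : Tot W₀ D.Y} (hx : x ∈ D.C) : D.ev x ∈ D.C := D.mem_C.2 fun a => by
  rw [ev_apply]
  split_ifs
  · exact D.mem_C.1 hx a
  · exact Submodule.zero_mem _

lemma pf_ev (x y : Tot W₀ D.Y) : D.pf (D.ev x) y = D.pf x (D.ev y) := by
  rw [pf_apply, pf_apply]
  refine Finset.sum_congr rfl fun a _ => ?_
  rw [ev_apply, ev_apply]
  split_ifs
  · rfl
  · rw [zero_mul, mul_zero]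

/-- restriction plus Gysin map -/
def tbd : Tot W₀ D.Y →ₗ[K] Tot W₀ D.Y := D.tres + D.tgys

lemma tbd_apply (x : Tot W₀ D.Y) (a : D.J) : D.tbd x a = D.bd x a := by
  change D.tres x a + D.tgys x a = ∑ b, (D.res b a (x b) + D.gys b a (x b))
  rw [tres_apply, tgys_apply, Finset.sum_add_distrib]

lemma tbd_mem {x : Tot W₀ D.Y} (hx : x ∈ D.C) : D.tbd x ∈ D.C := D.mem_C.2 fun a =>
  Submodule.add_mem _ (D.toDegen.cycles.1 x (D.mem_C.1 hx) a)
    (D.toDegen.cycles.2 x (D.mem_C.1 hx) a)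

lemma pf_tbd (x y : Tot W₀ D.Y) : D.pf (D.tbd x) y = D.pf x (D.tbd y) := by
  have h1 : D.pf (D.tres x) y = D.pf x (D.tgys y) := by
    rw [pf_apply, pf_apply]
    exact D.toDegen.adjoint.1 x y
  have h2 : D.pf (D.tgys x) y = D.pf x (D.tres y) := by
    rw [pf_apply, pf_apply]
    exact D.toDegen.adjoint.2 x y
  change D.pf (D.tres x + D.tgys x) y = D.pf x (D.tres y + D.tgys y)
  rw [map_add, map_add, LinearMap.add_apply, h1, h2, add_comm]

lemma isBd_iff (x : Tot W₀ D.Y) : D.IsBd x ↔ ∃ y, D.ev (D.tbd y) = D.ev x := by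
  constructor
  · rintro ⟨y, hy⟩
    refine ⟨y, funext fun a => ?_⟩
    rw [ev_apply, ev_apply]
    split_ifs with ha
    · rw [tbd_apply]
      exact hy a ha
    · rfl
  · rintro ⟨y, hy⟩
    refine ⟨y, fun a ha => ?_⟩
    have h := congrFun hy a
    rw [ev_apply, ev_apply, if_pos ha, if_pos ha, tbd_apply] at h
    exact h

/-- the boundaries of cycles -/
def UB : Submodule ℚ D.C where
  carrier := {u | ∃ y ∈ D.C, D.ev (D.tbd y) = u}
  zero_mem' := ⟨0, Submodule.zero_mem _, by rw [map_zero, map_zero]; rfl⟩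
  add_mem' := by
    rintro u u' ⟨y, hy, h⟩ ⟨y', hy', h'⟩
    refine ⟨y + y', Submodule.add_mem _ hy hy', ?_⟩
    rw [map_add, map_add, h, h']
    rfl
  smul_mem' := by
    rintro q u ⟨y, hy, h⟩
    refine ⟨q • y, Submodule.smul_mem _ q hy, ?_⟩
    change D.ev (D.tbd ((q : K) • y)) = _
    rw [map_smul, map_smul, h]
    rfl

/-- A tuple of classes of cycles, on the strata of even level, which is orthogonal to all classes of
cycles orthogonal to the boundaries, is a boundary of classes of cycles. -/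
theorem exists_cycle (h : ∀ a, W₀.HomEqNum (D.Y a)) {x : Tot W₀ D.Y} (hx : x ∈ D.C)
    (h0 : ∀ w ∈ D.C, (∀ y, D.pf (D.ev (D.tbd y)) w = 0) → D.pf (D.ev x) w = 0) :
    ∃ y ∈ D.C, D.ev (D.tbd y) = D.ev x := by
  have : FiniteDimensional ℚ D.C := finite_tclQ W₀ D.Y fun a => finite_clQ W₀ (h a)
  let B := Module.finBasis ℚ D.C
  obtain ⟨u, ⟨y, hy, hu⟩, hv⟩ := H82R.exists_sub_ann D.qf (fun i => B i) (fun c hc v => by
      rw [← B.sum_repr v, map_sum]
      refine Finset.sum_eq_zero fun i _ => ?_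
      rw [map_smul, hc, smul_zero]) D.UB ⟨D.ev x, D.ev_mem hx⟩ (by
    intro w hw
    apply Rat.cast_injective (α := K)
    rw [qf_spec, Rat.cast_zero]
    refine h0 w w.2 ?_
    -- `bd (ev w) = 0`
    have h2 : D.tbd (D.ev (w : Tot W₀ D.Y)) = 0 := by
      refine D.eq_zero_of_orth h (D.tbd_mem (D.ev_mem w.2)) fun y hy => ?_
      have h3 := hw ⟨D.ev (D.tbd y), D.ev_mem (D.tbd_mem hy)⟩ ⟨y, hy, rfl⟩
      have h4 := D.qf_spec ⟨D.ev (D.tbd y), D.ev_mem (D.tbd_mem hy)⟩ w
      rw [h3, Rat.cast_zero] at h4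
      have h5 : D.pf (D.ev (D.tbd y)) w = 0 := h4.symm
      rw [pf_ev, pf_tbd] at h5
      -- symmetry of the form on classes of cycles
      have h6 : ∀ x y : Tot W₀ D.Y, x ∈ D.C → D.pf x y = D.pf y x := by
        intro x y hx
        rw [pf_apply, pf_apply]
        refine Finset.sum_congr rfl fun a _ => ?_
        rw [W₀.central (clQ_le_algSpan W₀ (D.mem_C.1 hx a))]
      rw [h6 _ _ (D.tbd_mem (D.ev_mem w.2))]
      exact h5
    intro y
    rw [pf_ev, pf_tbd, h2, map_zero])
  refine ⟨y, hy, ?_⟩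
  have h1 : D.ev x - u = 0 := by
    refine D.eq_zero_of_orth h (Submodule.sub_mem _ (D.ev_mem hx) u.2) fun v hv' => ?_
    have h2 := hv ⟨v, hv'⟩
    have h3 := D.qf_spec (⟨D.ev x, D.ev_mem hx⟩ - u) ⟨v, hv'⟩
    rw [h2, Rat.cast_zero] at h3
    exact h3.symm
  rw [hu, sub_eq_zero.1 h1]

lemma spCl_mem {i : ℕ} (z : Cyc X i) : D.spCl z ∈ D.C := D.mem_C.2 fun _ => cl_mem_clQ W₀ _

lemma exact_fam {i m : ℕ} (z : Fin m → Cyc X i) (c : Fin m → K) :
    ∑ t, c t • W.cl (z t) = 0 ↔ ∃ y, D.ev (D.tbd y) = D.ev (∑ t, c t • D.spCl (z t)) := by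
  have h := D.axExact i 0 m z c
  have e1 : ∑ t, c t • (W.cl ξ ^ 0 * W.cl (z t)) = ∑ t, c t • W.cl (z t) :=
    Finset.sum_congr rfl fun t _ => by rw [pow_zero, one_mul]
  have e2 : (D.comb c fun t => D.mulPol 0 (D.spCl (z t))) = ∑ t, c t • D.spCl (z t) := by
    refine Finset.sum_congr rfl fun t _ => ?_
    congr 1
    funext a
    change W₀.cl (D.pol a) ^ 0 * _ = _
    rw [pow_zero, one_mul]
  rw [e1, e2, isBd_iff] at h
  exact h

lemma exact_one {i : ℕ} (z : Cyc X i) :
    W.cl z = 0 ↔ ∃ y, D.ev (D.tbd y) = D.ev (D.spCl z) := by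
  have h := D.exact_fam (fun _ : Fin 1 => z) (fun _ => 1)
  rwa [Fin.sum_univ_one, Fin.sum_univ_one, one_smul, one_smul] at h

end Degeneration

/-- Homological equivalence on `X` is determined by classes of cycles on the strata. -/
theorem critD (h : ∀ a, W₀.HomEqNum (D.Y a)) (i : ℕ) (z : Cyc X i) : W.cl z = 0 ↔
      D.IsCycleBd (D.spCl z) := by
  rw [D.exact_one]
  constructor
  · rintro ⟨y, hy⟩
    obtain ⟨y', hy', h'⟩ := D.exists_cycle h (D.spCl_mem z) fun w _ hw => by rw [← hy]; exact hw y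
    refine ⟨y', D.mem_C.1 hy', fun a ha => ?_⟩
    have h1 := congrFun h' a
    rw [D.ev_apply, D.ev_apply, if_pos ha, if_pos ha, D.tbd_apply] at h1
    exact h1
  · rintro ⟨y, -, hy⟩
    exact (D.isBd_iff _).1 ⟨y, hy⟩

/-- Classes of cycles on `X` which are linearly independent over `ℚ` are so over `K`. -/
theorem indepD (h : ∀ a, W₀.HomEqNum (D.Y a)) : CycIndep W X := by
  intro i m z hz c hc
  obtain ⟨β, hβ⟩ : ∃ β, β = Module.Basis.ofVectorSpace ℚ K := ⟨_, rfl⟩
  have hsum : ∀ q : Fin m → ℚ, W.cl (∑ t, q t • z t) = ∑ t, (q t : K) • W.cl (z t) := by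
    intro q
    have h2 : ∀ s : Finset (Fin m), W.cl (∑ t ∈ s, q t • z t) =
        ∑ t ∈ s, (q t : K) • W.cl (z t) := by
      intro s
      induction s using Finset.induction_on with
      | empty => rw [Finset.sum_empty, Finset.sum_empty, cl_zero]
      | insert t s ht ih =>
        rw [Finset.sum_insert ht, Finset.sum_insert ht, cl_add, cl_smul, ih]
    exact h2 _
  obtain ⟨y, hy⟩ := (D.exact_fam z c).1 hc
  -- the coordinates of `c`
  have key : ∀ b, (fun t => β.repr (c t) b) = 0 := by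
    intro b
    refine hz _ ?_
    rw [hsum, D.exact_fam]
    have hmem : ∑ t, ((β.repr (c t) b : ℚ) : K) • D.spCl (z t) ∈ D.C := by
      refine Submodule.sum_mem _ fun t _ => ?_
      exact Submodule.smul_mem D.C (β.repr (c t) b) (D.spCl_mem (z t))
    obtain ⟨y', -, h'⟩ := D.exists_cycle h hmem fun w hw hw' => by
      have h1 : D.pf (D.ev (∑ t, c t • D.spCl (z t))) w = 0 := by
        rw [← hy]; exact hw' y
      choose q hq using fun t => D.pf_rat (D.ev_mem (D.spCl_mem (z t))) hw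
      have h2 : ∀ c : Fin m → K, D.pf (D.ev (∑ t, c t • D.spCl (z t))) w =
          ∑ t, c t * (q t : K) := by
        intro c
        rw [map_sum, map_sum, LinearMap.sum_apply]
        refine Finset.sum_congr rfl fun t _ => ?_
        rw [map_smul, map_smul, LinearMap.smul_apply, smul_eq_mul, hq]
      rw [h2] at h1 ⊢
      have h3 := congrArg (fun x => β.repr x b) h1
      have h7 : ∀ t, c t * (q t : K) = (q t) • c t := fun t => by rw [Rat.smul_def, mul_comm]
      simp only [h7, map_sum, map_smul, map_zero, Finsupp.coe_finsetSum, Finset.sum_apply,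
        Finsupp.smul_apply, smul_eq_mul, Finsupp.coe_zero, Pi.zero_apply] at h3
      have h8 : ((∑ t, (q t) * (β.repr (c t) b) : ℚ) : K) = 0 := by rw [h3, Rat.cast_zero]
      rw [← h8, Rat.cast_sum]
      refine Finset.sum_congr rfl fun t _ => ?_
      rw [Rat.cast_mul, mul_comm]
    exact ⟨y', h'⟩
  funext t
  have h9 : β.repr (c t) = 0 := by
    ext b
    exact congrFun (key b) t
  simpa using h9

end Pool.Agent.SemiDeg
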