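import Pool.Agent.W_a3c811_h62w.Strata

/-! Definitions for the statement: the Hodge standard conjecture, the standard conjecture of
Lefschetz type, strictly semistable degenerations. -/

noncomputable section

namespace Pool.Agent.HD82

open Pool.Agent.WeilH_h6 Pool.Agent.WeilH_h6.VarClass Pool.Agent.H62D Pool.Agent.H62A
  Pool.Agent.H62S

universe u v w

section single

variable {k : Type u} [Field k] {𝒱 : VarClass k} {K : Type v} [Field K] (W : Weil.{u, v, w} 𝒱 K)

/-- The Hodge standard conjecture `Hdg(X)` for the class of the cycle `ξ` of codimension one, for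
homological equivalence: if `z` is a cycle of codimension `i ≤ n / 2`, `n = dim X`, with primitive
class (`ξ ^ (n - 2 i + 1) · z` has class zero) which is not zero, then
`(-1) ^ i Tr (ξ ^ (n - 2 i) · z · z)` is a positive rational number. -/
def Hdg (X : 𝒱.Obj) (ξ : Cyc X 1) : Prop :=
  ∀ (i : ℕ) (z : Cyc X i), 2 * i ≤ X.dim → W.cl ξ ^ (X.dim - 2 * i + 1) * W.cl z = 0 →
    W.cl z ≠ 0 → ∃ q : ℚ, 0 < q ∧
      W.deg (W.cl ξ ^ (X.dim - 2 * i) * (W.cl z * W.cl z)) = (-1) ^ i * (q : K)

/-- The standard conjecture of Lefschetz type in the weak form `A(X)`, for the class of the cycle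
`ξ` of codimension one: for `i ≤ n / 2`, `n = dim X`, the class of every cycle of codimension `n - i`
is `ξ ^ (n - 2 i)` times the class of a cycle of codimension `i`. -/
def LefA (X : 𝒱.Obj) (ξ : Cyc X 1) : Prop :=
  ∀ (i j : ℕ) (z : Cyc X j), 2 * i ≤ X.dim → i + j = X.dim →
    ∃ z' : Cyc X i, W.cl ξ ^ (X.dim - 2 * i) * W.cl z' = W.cl z

/-- Hard Lefschetz and the standard conjecture of Lefschetz type for the class of the cycle `ξ` of
codimension one, `L` being the product with the class of `ξ`: there is an endomorphism `Λ` of `H(X)`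
of degree `-2` such that `[L, Λ]` is multiplication by `m - dim X` on `H^m(X)`, and `Λ` maps classes
of cycles to classes of cycles (with rational coefficients). -/
def HardLefA (X : 𝒱.Obj) (ξ : Cyc X 1) : Prop :=
  ∃ Λ : W.Hom X X, (∀ m : ℤ, ∀ x ∈ gradZ W X m, Λ x ∈ gradZ W X (m - 2)) ∧
    (∀ m : ℤ, ∀ x ∈ gradZ W X m,
      W.cl ξ * Λ x - Λ (W.cl ξ * x) = ((m - X.dim : ℤ) : K) • x) ∧
    ∀ (i : ℕ) (z : Cyc X i), ∃ z' : TCyc X, clT W z' = Λ (W.cl z)

variable {J : Type} (Y : J → 𝒱.Obj) (lev : J → ℕ)

/-- Tuples of classes of cycles (with rational coefficients) on the `Y a`. -/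
def IsCl (x : Tot W Y) : Prop := ∀ a, ∃ z : TCyc (Y a), clT W z = x a

/-- `T` maps tuples of classes of cycles to tuples of classes of cycles. -/
def PresCl (T : TEnd W Y) : Prop := ∀ x, IsCl W Y x → IsCl W Y (T x)

/-- Product with the classes of the cycles `p a` on the `Y a`. -/
def mulCl (p : ∀ a, Cyc (Y a) 1) : TEnd W Y :=
  LinearMap.pi fun a => LinearMap.mulLeft K (W.cl (p a)) ∘ₗ LinearMap.proj a

/-- The inclusion of the `0`-th copies. -/
def emb (x : Tot W Y) : Tot W (copiesOf Y lev) := fun c => if (c.2 : ℕ) = 0 then x c.1 else 0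

/-- The classes of the cycles `z a` on the strata of level `0`. -/
def clZ {i : ℕ} (z : ∀ a, Cyc (Y a) i) : Tot W Y := fun a => if lev a = 0 then W.cl (z a) else 0


end single

variable {k₀ k : Type u} [Field k₀] [Field k] {𝒱₀ : VarClass k₀} {𝒱 : VarClass k} {K : Type v}
  [Field K]

/-- A strictly semistable degeneration of the variety `X` with the class of the cycle `ξ` of
codimension one (a polarisation), in a Weil cohomology theory `W` for varieties over `k` and a Weil
cohomology theory `W₀` for varieties over the residue field `k₀`, with the same coefficients: the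
strata `Y a` of the special fibre (the connected components of the intersections of `lev a + 1`
different components of the special fibre) and their polarisations, the alternating sums of the
restrictions and of the Gysin maps between them, and the specialisation of cycles from `X` to the
components of the special fibre. -/
structure Degen (W₀ : Weil.{u, v, w} 𝒱₀ K) (W : Weil.{u, v, w} 𝒱 K) (X : 𝒱.Obj) (ξ : Cyc X 1) where
  /-- the index set of the strata -/
  J : Type
  [fin : Fintype J]
  /-- the strata -/
  Y : J → 𝒱₀.Obj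
  /-- the stratum `Y a` has codimension `lev a` in the special fibre -/
  lev : J → ℕ
  dim_eq : ∀ a, (Y a).dim + lev a = X.dim
  /-- the polarisations of the strata -/
  pol : ∀ a, Cyc (Y a) 1
  /-- the restrictions -/
  res : TEnd W₀ Y
  /-- the Gysin maps -/
  gys : TEnd W₀ Y
  /-- they map classes of cycles to classes of cycles -/
  cycles : PresCl W₀ Y res ∧ PresCl W₀ Y gys
  bidegree : LevBidegree W₀ Y lev 1 1 res ∧ LevBidegree W₀ Y lev 1 (-1) gys
  square : SqT W₀ Y res
  anti : AntiT W₀ Y lev res gys
  comm : ComT W₀ Y (mulCl W₀ Y pol) res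
  adjoint : AdjT W₀ Y res gys ∧ AdjT W₀ Y gys res
  /-- the specialisation of cycles: the restriction to the component `Y a` of the special fibre of
  the closure of the cycle (only the `a` with `lev a = 0` matter) -/
  sp : ∀ {i : ℕ}, Cyc X i → ∀ a, Cyc (Y a) i
  /-- the specialisations agree on the intersections of two components -/
  closed : ∀ (i : ℕ) (z : Cyc X i), res (clZ W₀ Y lev (sp z)) = 0
  /-- a combination of the `ξ ^ r · z` is zero if and only if the one of the specialisations is in
  the image of the differential -/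
  exact : ∀ (i r : ℕ) (c : Cyc X i →₀ K), (c.sum fun z q => q • (W.cl ξ ^ r * W.cl z)) = 0 ↔
    ∃ y, diffOf W₀ Y lev res gys y = emb W₀ Y lev
      (c.sum fun z q => q • (mulCl W₀ Y pol ^ r) (clZ W₀ Y lev (sp z)))
  /-- intersection numbers are preserved by specialisation -/
  trace : ∀ (i j r : ℕ) (z : Cyc X i) (z' : Cyc X j), i + j + r = X.dim →
    W.deg (W.cl ξ ^ r * (W.cl z * W.cl z')) =
      pairing W₀ Y ((mulCl W₀ Y pol ^ r) (clZ W₀ Y lev (sp z))) (clZ W₀ Y lev (sp z'))

attribute [instance] Degen.fin

end Pool.Agent.HD82
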