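import Pool.Agent.W_f569db_hd.Final2

/-! Semistable degenerations and the standard conjectures `Hdg` and `D`. -/

noncomputable section

namespace Pool.Agent.SemiDeg.Result

open Pool.Agent.WeilH_h6 Pool.Agent.WeilH_h6.VarClass Pool.Agent.SemiDeg

universe u v w

/-- Let `X` be a variety with a strictly semistable degeneration.

1. If `D` holds for all strata of the special fibre, then classes of cycles on `X` which are linearly
   independent over `ℚ` are so over `K`, and a cycle on `X` is homologically equivalent to zero if and
   only if its specialisation is a boundary of classes of cycles on the strata.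
2. If all strata satisfy hard Lefschetz, the standard conjecture of Lefschetz type (`Λ` maps classes of
   cycles to classes of cycles) and the Hodge standard conjecture, then `X` satisfies the Hodge
   standard conjecture for homological equivalence; and if moreover `X` satisfies the standard
   conjecture of Lefschetz type (weak form `A(X)`) then homological and numerical equivalence coincide
   on `X`. -/
theorem result {k₀ k : Type u} [Field k₀] [Field k] {𝒱₀ : VarClass k₀} {𝒱 : VarClass k} {K : Type v}
    [Field K] [CharZero K] (W₀ : Weil.{u, v, w} 𝒱₀ K) (W : Weil.{u, v, w} 𝒱 K) (X : 𝒱.Obj)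
    (ξ : Cyc X 1) (D : Degeneration W₀ W X ξ) :
    ((∀ a, W₀.HomEqNum (D.Y a)) → CycIndep W X ∧
      ∀ (i : ℕ) (z : Cyc X i), W.cl z = 0 ↔ D.IsCycleBd (D.spCl z)) ∧
    ((∀ a, HardLefA W₀ (D.Y a) (D.pol a)) → (∀ a, Hdg W₀ (D.Y a) (D.pol a)) →
      Hdg W X ξ ∧ (LefA W X ξ → W.HomEqNum X)) :=
  main2 W₀ W X ξ D

end Pool.Agent.SemiDeg.Result
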