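import Pool.Agent.W_f569db_hd.DPart

/-! The main theorem, final form. -/

noncomputable section

namespace Pool.Agent.SemiDeg

open Pool.Agent.WeilH_h6 Pool.Agent.WeilH_h6.VarClass

universe u v w

theorem main2 {k₀ k : Type u} [Field k₀] [Field k] {𝒱₀ : VarClass k₀} {𝒱 : VarClass k} {K : Type v}
    [Field K] [CharZero K] (W₀ : Weil.{u, v, w} 𝒱₀ K) (W : Weil.{u, v, w} 𝒱 K) (X : 𝒱.Obj)
    (ξ : Cyc X 1) (D : Degeneration W₀ W X ξ) :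
    ((∀ a, W₀.HomEqNum (D.Y a)) → CycIndep W X ∧
      ∀ (i : ℕ) (z : Cyc X i), W.cl z = 0 ↔ D.IsCycleBd (D.spCl z)) ∧
    ((∀ a, HardLefA W₀ (D.Y a) (D.pol a)) → (∀ a, Hdg W₀ (D.Y a) (D.pol a)) →
      Hdg W X ξ ∧ (LefA W X ξ → W.HomEqNum X)) := by
  refine ⟨fun h => ⟨indepD D h, critD D h⟩, fun hL hH => ?_⟩
  have h := main W₀ W X ξ D hL hH
  exact ⟨h.1, h.2.2.2⟩

end Pool.Agent.SemiDeg
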