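import Pool.Agent.W_f569db_hd.Prim

/-! The working structure of a semistable degeneration. -/

noncomputable section

set_option linter.unusedSectionVars false

namespace Pool.Agent.HD82

open Module Pool.Agent.WeilH_h6 Pool.Agent.WeilH_h6.VarClass Pool.Agent.H62D Pool.Agent.H62A
  Pool.Agent.H62S Pool.Agent.H79L

universe u v w

attribute [local instance] ratH

section one

variable {k : Type u} [Field k] {𝒱 : VarClass k} {K : Type v} [Field K]
  [CharZero K] (W : Weil.{u, v, w} 𝒱 K) {J : Type} {Y : J → 𝒱.Obj}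

lemma pres_mulCl (pol : ∀ a, Cyc (Y a) 1) : PresCl W Y (mulCl W Y pol) := by
  intro x hx a
  exact mul_mem_clQ W (cl_mem_clQ W (pol a)) (hx a)

lemma adj_mulCl [Fintype J] (pol : ∀ a, Cyc (Y a) 1) :
    AdjT W Y (mulCl W Y pol) (mulCl W Y pol) := by
  intro x y
  refine Finset.sum_congr rfl fun a _ => ?_
  change W.deg (W.cl (pol a) * x a * y a) = W.deg (x a * (W.cl (pol a) * y a))
  rw [← mul_assoc, W.central (W.cl_mem_algSpan (pol a)) (x a)]

lemma mul_gradZ {X : 𝒱.Obj} (z : Cyc X 1) {m : ℤ} {x : W.H X} (hx : x ∈ gradZ W X m) :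
    W.cl z * x ∈ gradZ W X (m + 2) := by
  unfold gradZ at hx ⊢
  split_ifs at hx with h
  · rw [if_pos (by omega)]
    have h1 := W.mul_mem_grad (W.cl_mem_grad z) hx
    have h2 : 2 * 1 + m.toNat = (m + 2).toNat := by omega
    rw [← h2]
    exact h1
  · rw [(Submodule.mem_bot K).1 hx, mul_zero]
    exact Submodule.zero_mem _

lemma clT_mem_clQ {X : 𝒱.Obj} (z : TCyc X) : clT W z ∈ clQ W X := ⟨z, rfl⟩

end one

variable {k₀ k : Type u} [Field k₀] [Field k] {𝒱₀ : VarClass k₀} {𝒱 : VarClass k} {K : Type v}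
  [Field K] [CharZero K] {W₀ : Weil.{u, v, w} 𝒱₀ K} {W : Weil.{u, v, w} 𝒱 K} {X : 𝒱.Obj}
  {ξ : Cyc X 1}

namespace Degen

variable (D : Degen W₀ W X ξ)

lemma gys_sq (x : Tot W₀ D.Y) : D.gys (D.gys x) = 0 := by
  refine tform_nd W₀ D.Y _ fun y => ?_
  have h1 := D.adjoint.2 (D.gys x) y
  have h2 := D.adjoint.2 x (D.res y)
  change pairing W₀ D.Y (D.gys (D.gys x)) y = 0
  rw [h1, h2, D.square y]
  exact (tform W₀ D.Y x).map_zero

lemma gys_comm (x : Tot W₀ D.Y) :
    mulCl W₀ D.Y D.pol (D.gys x) = D.gys (mulCl W₀ D.Y D.pol x) := by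
  rw [← sub_eq_zero]
  refine tform_nd W₀ D.Y _ fun y => ?_
  rw [map_sub, LinearMap.sub_apply, sub_eq_zero]
  change pairing W₀ D.Y _ y = pairing W₀ D.Y _ y
  rw [adj_mulCl W₀ D.pol (D.gys x) y, D.adjoint.2 x, D.adjoint.2 (mulCl W₀ D.Y D.pol x) y,
    adj_mulCl W₀ D.pol x (D.res y), D.comm y]

variable (hL : ∀ a, HardLefA W₀ (D.Y a) (D.pol a))

/-- the dual Lefschetz operator -/
def Lam : TEnd W₀ D.Y :=
  LinearMap.pi fun a => (Classical.choose (hL a)) ∘ₗ LinearMap.proj a

lemma Lam_apply (x : Tot W₀ D.Y) (a : D.J) :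
    D.Lam hL x a = Classical.choose (hL a) (x a) := rfl

/-- the working structure -/
def str : Str W₀ where
  n := X.dim
  J := D.J
  Y := D.Y
  lev := D.lev
  dim_eq := D.dim_eq
  res := D.res
  gys := D.gys
  L := mulCl W₀ D.Y D.pol
  Lam := D.Lam hL
  bidegree := by
    refine ⟨D.bidegree.1, D.bidegree.2, ⟨fun w x hx a _ => ?_, fun p x hx a _ => ?_⟩,
      ⟨fun w x hx a _ => ?_, fun p x hx a _ => ?_⟩⟩
    · have h1 := mul_gradZ W₀ (D.pol a) (hx a (Set.mem_univ a))
      have h2 : w - (D.lev a : ℤ) - 2 * (0 : D.J → ℤ) a + 2 =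
        w + 2 - (D.lev a : ℤ) - 2 * (0 : D.J → ℤ) a := by ring
      rw [h2] at h1
      exact h1
    · have h1 : x a ∈ (if (D.lev a : ℤ) = p then ⊤ else ⊥ : Submodule K (W₀.H (D.Y a))) :=
        hx a (Set.mem_univ a)
      change W₀.cl (D.pol a) * x a ∈
        (if (D.lev a : ℤ) = p + 0 then ⊤ else ⊥ : Submodule K (W₀.H (D.Y a)))
      rw [add_zero]
      split_ifs at h1 ⊢
      · exact Submodule.mem_top
      · rw [(Submodule.mem_bot K).1 h1, mul_zero]; exact Submodule.zero_mem _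
    · have h1 := (Classical.choose_spec (hL a)).1 _ _ (hx a (Set.mem_univ a))
      have h2 : w - (D.lev a : ℤ) - 2 * (0 : D.J → ℤ) a - 2 =
        w + -2 - (D.lev a : ℤ) - 2 * (0 : D.J → ℤ) a := by ring
      rw [h2] at h1
      exact h1
    · have h1 : x a ∈ (if (D.lev a : ℤ) = p then ⊤ else ⊥ : Submodule K (W₀.H (D.Y a))) :=
        hx a (Set.mem_univ a)
      change Classical.choose (hL a) (x a) ∈
        (if (D.lev a : ℤ) = p + 0 then ⊤ else ⊥ : Submodule K (W₀.H (D.Y a)))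
      rw [add_zero]
      split_ifs at h1 ⊢
      · exact Submodule.mem_top
      · rw [(Submodule.mem_bot K).1 h1, map_zero]; exact Submodule.zero_mem _
  square := ⟨D.square, D.gys_sq⟩
  anti := D.anti
  comm := ⟨D.comm, D.gys_comm⟩
  lefschetz := by
    intro w x hx
    funext a
    have h1 := (Classical.choose_spec (hL a)).2.1 _ _ (hx a (Set.mem_univ a))
    have h2 : w - (D.lev a : ℤ) - 2 * (0 : D.J → ℤ) a - (D.Y a).dim = w - X.dim := by
      have := D.dim_eq a
      simp only [Pi.zero_apply]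
      omega
    rw [h2] at h1
    exact h1
  adjoint := ⟨D.adjoint.1, D.adjoint.2, adj_mulCl W₀ D.pol⟩

lemma rational : (D.str hL).Rational where
  res := D.cycles.1
  gys := D.cycles.2
  L := pres_mulCl W₀ D.pol
  Lam := by
    intro x hx a
    change Classical.choose (hL a) (x a) ∈ clQ W₀ (D.Y a)
    refine clQ_induction W₀ (P := fun x => Classical.choose (hL a) x ∈ clQ W₀ (D.Y a)) ?_ ?_ ?_
      (hx a)
    · rw [map_zero]; exact Submodule.zero_mem _
    · intro x y hx hy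
      rw [map_add]; exact Submodule.add_mem _ hx hy
    · intro i z
      obtain ⟨z', hz'⟩ := (Classical.choose_spec (hL a)).2.2 i z
      rw [← hz']
      exact ⟨z', rfl⟩

end Degen

end Pool.Agent.HD82
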