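import Pool.Agent.W_f569db_hd.AlgQ
import Pool.Agent.W_MP_a3c811_h79.Lap.Sl2

/-! Positivity of the form on the primitive classes of cycles of the `E_1`-term. -/

noncomputable section

set_option linter.unusedSectionVars false

namespace Pool.Agent.HD82

open Module Pool.Agent.WeilH_h6 Pool.Agent.WeilH_h6.VarClass Pool.Agent.H62D Pool.Agent.H62A
  Pool.Agent.H62S Pool.Agent.H79L

universe u v w

theorem sl_top {K : Type v} [Field K] [CharZero K] {E : Type w} [AddCommGroup E] [Module K E]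
    {N f : Module.End K E} {s : ℤ → Module.End K E} {P : Finset ℤ} (h : Sl N f s P) {j : ℕ} {x : E}
    (hx : s (-(j : ℤ)) x = x) (hf : f x = 0) : (N ^ (j + 1)) x = 0 := by
  refine h.f_ne (p := (j : ℤ) + 2) (by omega) ?_ ?_
  · have h1 := h.mem_Npow hx (j + 1)
    rwa [show -(j : ℤ) + 2 * ((j + 1 : ℕ) : ℤ) = j + 2 by push_cast; ring] at h1
  · have h1 := h.f_Npow hx j
    rw [h1, hf, map_zero, neg_add_cancel, mul_zero, Int.cast_zero, zero_smul, sub_zero, map_zero]

variable {k : Type u} [Field k] {𝒱 : VarClass k} {K : Type v} [Field K]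
  [CharZero K] {W : Weil.{u, v, w} 𝒱 K} (X : Str W)

attribute [local instance] ratH

namespace Str

variable {X} {pol : ∀ a, Cyc (X.Y a) 1} (hL : X.L = mulCl W X.Y pol)

lemma slice_eN_pow (r j : ℕ) (y : Tot W X.EY) (a : X.J) (hj : j + r ≤ X.lev a) :
    X.slice (j + r) ((X.eN ^ r) y) a = X.slice j y a := by
  induction r with
  | zero => rfl
  | succ r ih =>
    rw [pow_succ', Module.End.mul_apply]
    unfold eN at *
    rw [← add_assoc, slice_lift X _ _ _ _ _ (by omega), if_pos (by omega), Nat.add_sub_cancel,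
      LinearMap.id_apply, ih (by omega)]

include hL in
lemma slice_eL_pow (r j : ℕ) (y : Tot W X.EY) (a : X.J) (hj : j ≤ X.lev a) :
    X.slice j ((X.eL ^ r) y) a = W.cl (pol a) ^ r * X.slice j y a := by
  induction r with
  | zero => rw [pow_zero (W.cl (pol a)), one_mul]; rfl
  | succ r ih =>
    rw [pow_succ', Module.End.mul_apply, pow_succ', mul_assoc, ← ih]
    unfold eL
    rw [slice_lift X _ _ _ _ _ hj, if_pos (Nat.zero_le _), Nat.sub_zero, hL]
    rfl

include hL in
/-- The form is definite on the primitive parts. -/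
theorem prim_pos (hH : ∀ a, Hdg W (X.Y a) (pol a)) (i j : ℕ) (x : Tot W X.EY)
    (hx : x ∈ tclQ W X.EY) (ht : degProj W X.EY X.epos X.etw (X.n - j) x = x)
    (hs : posProj W X.EY X.epos (-i) x = x) (hf : X.eNd x = 0) (hg : X.eLam x = 0) (hx0 : x ≠ 0) :
    ∃ m : ℕ, (2 * m : ℤ) = X.n - j - i ∧ ∃ q : ℚ, 0 < q ∧
      X.eform x ((X.eN ^ i) ((X.eL ^ j) x)) = (-1) ^ m * (q : K) := by
  obtain ⟨D, hbi⟩ := X.bi
  -- only the `0`-th copies on level `i`
  have c1 : ∀ m a, m + 1 ≤ X.lev a → X.slice (m + 1) x a = 0 := by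
    intro m a hm
    have h1 := slice_eNd X x m a (by omega)
    rw [hf, map_zero, Pi.zero_apply] at h1
    refine (smul_eq_zero.1 h1.symm).resolve_left ?_
    rw [Nat.cast_eq_zero]
    exact Nat.mul_ne_zero (by omega) (by omega)
  have c2 : ∀ a, X.lev a ≠ i → X.slice 0 x a = 0 := by
    intro a ha
    rw [← hs, slice_posProj X _ _ _ _ (Nat.zero_le _), if_neg]
    push_cast
    omega
  have c3 : ∀ a, X.slice 0 x a ∈ gradZ W (X.Y a) (X.n - j - X.lev a) := by
    intro a
    rw [← ht, slice_degProj X _ _ _ _ (Nat.zero_le _)]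
    exact kapZ_mem W _ _ _
  have c4 : (X.eL ^ (j + 1)) x = 0 := by
    refine sl_top hbi.sl2 (j := j) ?_ hg
    change degProj W X.EY X.epos X.etw (-(j : ℤ) + X.n) x = x
    rw [show -(j : ℤ) + X.n = X.n - j by ring]
    exact ht
  -- the contribution of one stratum
  have c5 : ∀ a, X.lev a = i → X.slice 0 x a ≠ 0 → ∃ m : ℕ, (2 * m : ℤ) = X.n - j - i ∧
      ∃ q : ℚ, 0 < q ∧ W.deg (X.slice 0 x a * (W.cl (pol a) ^ j * X.slice 0 x a)) =
        (-1) ^ m * (q : K) := by
    intro a ha h0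
    obtain ⟨m, z, hm, hz⟩ := exists_cyc W (slice_mem hx 0 a) (c3 a) h0
    have hdim := X.dim_eq a
    have hmj : (X.Y a).dim - 2 * m = j := by omega
    have h1 : W.cl (pol a) ^ ((X.Y a).dim - 2 * m + 1) * W.cl z = 0 := by
      rw [hmj, hz, ← slice_eL_pow hL (j + 1) 0 x a (Nat.zero_le _), c4, map_zero]
      rfl
    obtain ⟨q, hq, hq'⟩ := hH a m z (by omega) h1 (by rw [hz]; exact h0)
    refine ⟨m, by rw [hm, ha], q, hq, ?_⟩
    rw [← hq', hmj, hz, ← mul_assoc, ← mul_assoc,
      W.central (clQ_le_algSpan W (slice_mem hx 0 a)) (W.cl (pol a) ^ j)]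
  -- the form
  have c6 : X.eform x ((X.eN ^ i) ((X.eL ^ j) x)) = ∑ a, if X.lev a = i then
      W.deg (X.slice 0 x a * (W.cl (pol a) ^ j * X.slice 0 x a)) else 0 := by
    rw [eform_eq]
    refine Finset.sum_congr rfl fun a _ => ?_
    rw [Finset.sum_eq_single 0]
    · by_cases ha : X.lev a = i
      · rw [if_pos ha, Nat.sub_zero, ha]
        have h1 := slice_eN_pow i 0 ((X.eL ^ j) x) a (by omega)
        rw [Nat.zero_add] at h1
        rw [h1, slice_eL_pow hL j 0 x a (Nat.zero_le _)]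
      · rw [if_neg ha, c2 a ha, zero_mul]
        exact deg_zero' _
    · intro m hm hm0
      rw [Finset.mem_range] at hm
      obtain ⟨m, rfl⟩ := Nat.exists_eq_succ_of_ne_zero hm0
      rw [c1 m a (by omega), zero_mul]
      exact deg_zero' _
    · intro h
      exact absurd (Finset.mem_range.2 (by omega)) h
  -- some stratum contributes
  obtain ⟨a0, ha0, h0⟩ : ∃ a, X.lev a = i ∧ X.slice 0 x a ≠ 0 := by
    by_contra hne
    push Not at hne
    apply hx0
    refine ext_slice X fun m a hm => ?_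
    rw [map_zero, Pi.zero_apply]
    rcases Nat.eq_zero_or_pos m with rfl | hm0
    · by_cases ha : X.lev a = i
      · exact hne a ha
      · exact c2 a ha
    · obtain ⟨m, rfl⟩ := Nat.exists_eq_succ_of_ne_zero hm0.ne'
      exact c1 m a hm
  obtain ⟨m, hm, -⟩ := c5 a0 ha0 h0
  have c7 : ∀ a, ∃ q : ℚ, 0 ≤ q ∧ (X.lev a = i → X.slice 0 x a ≠ 0 → 0 < q) ∧
      (if X.lev a = i then W.deg (X.slice 0 x a * (W.cl (pol a) ^ j * X.slice 0 x a)) else 0) =
        (-1) ^ m * (q : K) := by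
    intro a
    by_cases ha : X.lev a = i
    · by_cases h : X.slice 0 x a = 0
      · refine ⟨0, le_rfl, fun _ h' => absurd h h', ?_⟩
        rw [if_pos ha, h, zero_mul, Rat.cast_zero, mul_zero]
        exact deg_zero' _
      · obtain ⟨m', hm', q, hq, hq'⟩ := c5 a ha h
        have : m' = m := by omega
        subst this
        exact ⟨q, hq.le, fun _ _ => hq, by rw [if_pos ha]; exact hq'⟩
    · exact ⟨0, le_rfl, fun h => absurd h ha, by rw [if_neg ha, Rat.cast_zero, mul_zero]⟩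
  choose q hq0 hqp hq using c7
  refine ⟨m, hm, ∑ a, q a, ?_, ?_⟩
  · exact Finset.sum_pos' (fun a _ => hq0 a) ⟨a0, Finset.mem_univ _, hqp a0 ha0 h0⟩
  · rw [c6, Rat.cast_sum, Finset.mul_sum]
    exact Finset.sum_congr rfl fun a _ => hq a

end Str

end Pool.Agent.HD82
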