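import Pool.Agent.WeilH_h6.Defs

/-! Definitions for the statement: the Hodge standard conjecture, the standard conjecture of
Lefschetz type, strictly semistable degenerations. -/

noncomputable section

namespace Pool.Agent.SemiDeg

open Pool.Agent.WeilH_h6 Pool.Agent.WeilH_h6.VarClass

universe u v w

section single

variable {k : Type u} [Field k] {𝒱 : VarClass k} {K : Type v} [Field K] (W : Weil.{u, v, w} 𝒱 K)

/-- `x` is the class of a cycle with rational coefficients (of mixed codimension). -/
def IsCycle {X : 𝒱.Obj} (x : W.H X) : Prop :=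
  ∃ z : ∀ i : ℕ, Cyc X i, ∑ i ∈ Finset.range (X.dim + 1), W.cl (z i) = x

/-- The Hodge standard conjecture `Hdg(X)` for the class of the cycle `ξ` of codimension one, for
homological equivalence: if `z` is a cycle of codimension `i ≤ n / 2`, `n = dim X`, with primitive
class (`ξ ^ (n - 2 i + 1) · z` has class zero) which is not zero, then
`(-1) ^ i Tr (ξ ^ (n - 2 i) · z · z)` is a positive rational number. -/
def Hdg (X : 𝒱.Obj) (ξ : Cyc X 1) : Prop :=
  ∀ (i : ℕ) (z : Cyc X i), 2 * i ≤ X.dim → W.cl ξ ^ (X.dim - 2 * i + 1) * W.cl z = 0 →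
    W.cl z ≠ 0 → ∃ q : ℚ, 0 < q ∧
      W.deg (W.cl ξ ^ (X.dim - 2 * i) * (W.cl z * W.cl z)) = (-1) ^ i * (q : K)

/-- The standard conjecture of Lefschetz type in the weak form `A(X)`, for the class of the cycle
`ξ` of codimension one: for `i ≤ n / 2`, `n = dim X`, the class of every cycle of codimension
`j = n - i` is `ξ ^ (n - 2 i)` times the class of a cycle of codimension `i`. -/
def LefA (X : 𝒱.Obj) (ξ : Cyc X 1) : Prop :=
  ∀ (i j : ℕ) (z : Cyc X j), 2 * i ≤ X.dim → i + j = X.dim →
    ∃ z' : Cyc X i, W.cl ξ ^ (X.dim - 2 * i) * W.cl z' = W.cl z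

/-- `φ` maps `H^i(X)` to `H^j(Y)`. -/
def MapsDeg {X Y : 𝒱.Obj} (φ : W.Hom X Y) (i j : ℕ) : Prop := ∀ x ∈ W.grad X i, φ x ∈ W.grad Y j

/-- `φ` maps classes of cycles to classes of cycles (with rational coefficients). -/
def MapsCycle {X Y : 𝒱.Obj} (φ : W.Hom X Y) : Prop := ∀ x, IsCycle W x → IsCycle W (φ x)

/-- The commutator of the product with `c` and of `φ`. -/
def brk {X : 𝒱.Obj} (c : W.H X) (φ : W.Hom X X) (x : W.H X) : W.H X := c * φ x - φ (c * x)

/-- Hard Lefschetz and the standard conjecture of Lefschetz type for the class of the cycle `ξ` of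
codimension one: there is an endomorphism `Λ` of `H(X)` of degree `-2` such that the commutator
`[ξ, Λ]` is multiplication by `m - dim X` on `H^m(X)`, and `Λ` maps classes of cycles to classes of
cycles (with rational coefficients). -/
def HardLefA (X : 𝒱.Obj) (ξ : Cyc X 1) : Prop :=
  ∃ Λ : W.Hom X X, (∀ m < 2, ∀ x ∈ W.grad X m, Λ x = 0) ∧ (∀ m, MapsDeg W Λ (m + 2) m) ∧
    (∀ m, ∀ x ∈ W.grad X m, brk W (W.cl ξ) Λ x = ((m : K) - X.dim) • x) ∧ MapsCycle W Λ

/-- Classes of cycles of the same codimension on `X` which are linearly independent over `ℚ` are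
linearly independent over `K`. -/
def CycIndep (X : 𝒱.Obj) : Prop :=
  ∀ (i m : ℕ) (z : Fin m → Cyc X i), (∀ q : Fin m → ℚ, W.cl (∑ t, q t • z t) = 0 → q = 0) →
    ∀ c : Fin m → K, ∑ t, c t • W.cl (z t) = 0 → c = 0

end single

variable {k₀ k : Type u} [Field k₀] [Field k] {𝒱₀ : VarClass k₀} {𝒱 : VarClass k} {K : Type v}
  [Field K]

/-- The data of a strictly semistable degeneration of the variety `X`, in a Weil cohomology theory
`W₀` for varieties over the residue field `k₀`. -/
structure DegenData (W₀ : Weil.{u, v, w} 𝒱₀ K) (X : 𝒱.Obj) where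
  /-- the index set of the strata -/
  J : Type
  [fin : Fintype J]
  /-- the strata of the special fibre: the connected components of the intersections of its
  irreducible components -/
  Y : J → 𝒱₀.Obj
  /-- the stratum `Y a` is contained in `lev a + 1` components of the special fibre -/
  lev : J → ℕ
  /-- the polarisations of the strata -/
  pol : ∀ a, Cyc (Y a) 1
  /-- the restrictions: up to sign the pull-back if `Y b` is contained in `Y a` and
  `lev b = lev a + 1`, otherwise zero -/
  res : ∀ a b, W₀.Hom (Y a) (Y b)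
  /-- the Gysin maps: the adjoints of the restrictions -/
  gys : ∀ a b, W₀.Hom (Y a) (Y b)
  /-- the specialisation of cycles: the restriction to the component `Y a` of the special fibre of
  the closure of the cycle (zero unless `lev a = 0`) -/
  sp : ∀ {i : ℕ}, Cyc X i → ∀ a, Cyc (Y a) i

attribute [instance] DegenData.fin

namespace DegenData

variable {W₀ : Weil.{u, v, w} 𝒱₀ K} {X : 𝒱.Obj} (D : DegenData W₀ X)

/-- Tuples of cohomology classes on the strata. -/
abbrev Tup : Type w := ∀ a, W₀.H (D.Y a)

/-- The class of the specialisation of a cycle. -/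
def spCl {i : ℕ} (z : Cyc X i) : D.Tup := fun a => W₀.cl (D.sp z a)

/-- The product with the `r`-th power of the polarisation. -/
def mulPol (r : ℕ) (x : D.Tup) : D.Tup := fun a => W₀.cl (D.pol a) ^ r * x a

/-- Linear combinations with coefficients in `K`. -/
def comb {m : ℕ} (c : Fin m → K) (x : Fin m → D.Tup) : D.Tup := ∑ t, c t • x t

/-- The sum of the restriction and the Gysin map. -/
def bd (y : D.Tup) : D.Tup := fun a => ∑ b, (D.res b a (y b) + D.gys b a (y b))

/-- The composite of Gysin maps and restrictions. -/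
def resGys (a c : D.J) (x : W₀.H (D.Y a)) : W₀.H (D.Y c) := ∑ b, D.res b c (D.gys a b x)

/-- The composite of restrictions and Gysin maps. -/
def gysRes (a c : D.J) (x : W₀.H (D.Y a)) : W₀.H (D.Y c) := ∑ b, D.gys b c (D.res a b x)

/-- `x`, on the strata of even level, is in the image of the sum of the restriction and the Gysin
map from the strata of odd level: it is zero in position `0` of the `E_2`-term of the weight spectral
sequence, the cohomology of `E_1 ^ {-1} → E_1 ^ 0 → E_1 ^ 1`. -/
def IsBd (x : D.Tup) : Prop := ∃ y : D.Tup, ∀ a, Even (D.lev a) → D.bd y a = x a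

/-- The same with classes of cycles. -/
def IsCycleBd (x : D.Tup) : Prop :=
  ∃ y : D.Tup, (∀ a, IsCycle W₀ (y a)) ∧ ∀ a, Even (D.lev a) → D.bd y a = x a

/-- the codimension of `Y a` in the special fibre is `lev a` -/
def AxDim : Prop := ∀ a, (D.Y a).dim + D.lev a = X.dim

/-- the restrictions raise the level by one -/
def AxLev : Prop := ∀ a b x, D.lev b ≠ D.lev a + 1 → D.res a b x = 0

/-- the degrees of restrictions and Gysin maps -/
def AxGrad : Prop :=
  ∀ a b m, MapsDeg W₀ (D.res a b) m m ∧ MapsDeg W₀ (D.gys a b) m (m + 2)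

/-- restrictions and Gysin maps are adjoint -/
def AxAdjoint : Prop := ∀ a b x y, W₀.deg (D.res a b x * y) = W₀.deg (x * D.gys b a y)

/-- restrictions and Gysin maps preserve classes of cycles -/
def AxCycle : Prop := ∀ a b, MapsCycle W₀ (D.res a b) ∧ MapsCycle W₀ (D.gys a b)

/-- the polarisations are compatible with the restrictions -/
def AxPol : Prop := ∀ a b x, D.res a b (W₀.cl (D.pol a) * x) = W₀.cl (D.pol b) * D.res a b x

/-- the square of the restriction is zero -/
def AxSquare : Prop := ∀ a c x, ∑ b, D.res b c (D.res a b x) = 0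

/-- in positive level restriction and Gysin map anticommute (the product with the special fibre is
zero) -/
def AxAnti : Prop := ∀ a c x, D.lev a ≠ 0 → D.resGys a c x + D.gysRes a c x = 0

/-- the specialisations are cycles on the components of the special fibre -/
def AxSpLev : Prop := ∀ (i : ℕ) (z : Cyc X i) (a : D.J), D.lev a ≠ 0 → D.sp z a = 0

/-- the specialisations agree on the intersections of two components -/
def AxClosed : Prop := ∀ (i : ℕ) (z : Cyc X i) (b : D.J), ∑ a, D.res a b (D.spCl z a) = 0

variable (W : Weil.{u, v, w} 𝒱 K) (ξ : Cyc X 1)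

/-- a linear combination with coefficients in `K` of classes `ξ ^ r · z` is zero if and only if the
one of the specialisations is zero in the `E_2`-term of the weight spectral sequence -/
def AxExact : Prop := ∀ (i r m : ℕ) (z : Fin m → Cyc X i) (c : Fin m → K),
  ∑ t, c t • (W.cl ξ ^ r * W.cl (z t)) = 0 ↔ D.IsBd (D.comb c fun t => D.mulPol r (D.spCl (z t)))

/-- intersection numbers are preserved by specialisation -/
def AxTrace : Prop := ∀ (i j r : ℕ) (z : Cyc X i) (z' : Cyc X j), i + j + r = X.dim →
  W.deg (W.cl ξ ^ r * (W.cl z * W.cl z')) = ∑ a, W₀.deg (D.mulPol r (D.spCl z * D.spCl z') a)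

end DegenData

/-- A strictly semistable degeneration of the variety `X` with the class of the cycle `ξ` of
codimension one (a polarisation), in a Weil cohomology theory `W` for varieties over `k` and a Weil
cohomology theory `W₀` for varieties over the residue field `k₀`, with the same coefficients. -/
structure Degeneration (W₀ : Weil.{u, v, w} 𝒱₀ K) (W : Weil.{u, v, w} 𝒱 K) (X : 𝒱.Obj)
    (ξ : Cyc X 1) extends DegenData W₀ X where
  axDim : toDegenData.AxDim
  axLev : toDegenData.AxLev
  axGrad : toDegenData.AxGrad
  axAdjoint : toDegenData.AxAdjoint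
  axCycle : toDegenData.AxCycle
  axPol : toDegenData.AxPol
  axSquare : toDegenData.AxSquare
  axAnti : toDegenData.AxAnti
  axSpLev : toDegenData.AxSpLev
  axClosed : toDegenData.AxClosed
  axExact : toDegenData.AxExact W ξ
  axTrace : toDegenData.AxTrace W ξ

end Pool.Agent.SemiDeg
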