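import Pool.Agent.W_a3c811_h62w.Strata

/-! The strata of a semistable degeneration in one Weil cohomology theory, without a hypothesis that
the operators are given by correspondences: working structure. -/

noncomputable section

namespace Pool.Agent.HD82

open Pool.Agent.WeilH_h6 Pool.Agent.WeilH_h6.VarClass Pool.Agent.H62D Pool.Agent.H62A
  Pool.Agent.H62S

universe u v w

variable {k : Type u} [Field k] {𝒱 : VarClass k} {K : Type v} [Field K]

/-- The strata, with restriction, Gysin map, Lefschetz operator and its dual (see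
`Pool.Agent.H62S.Strata`). -/
structure Str (W : Weil.{u, v, w} 𝒱 K) where
  n : ℕ
  J : Type
  [fin : Fintype J]
  Y : J → 𝒱.Obj
  lev : J → ℕ
  dim_eq : ∀ a, (Y a).dim + lev a = n
  res : TEnd W Y
  gys : TEnd W Y
  L : TEnd W Y
  Lam : TEnd W Y
  bidegree : LevBidegree W Y lev 1 1 res ∧ LevBidegree W Y lev 1 (-1) gys ∧
    LevBidegree W Y lev 2 0 L ∧ LevBidegree W Y lev (-2) 0 Lam
  square : SqT W Y res ∧ SqT W Y gys
  anti : AntiT W Y lev res gys
  comm : ComT W Y L res ∧ ComT W Y L gys
  lefschetz : IsDual W Y lev n L Lam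
  adjoint : AdjT W Y res gys ∧ AdjT W Y gys res ∧ AdjT W Y L L

attribute [instance] Str.fin

variable {W : Weil.{u, v, w} 𝒱 K}

namespace Str

variable (X : Str W)

/-- The index set of the `E_1`-term. -/
abbrev Idx : Type := Copies X.lev

/-- The varieties of the `E_1`-term. -/
abbrev EY : X.Idx → 𝒱.Obj := copiesOf X.Y X.lev

/-- The position of the `j`-th copy of `Y a` is `2 j - lev a`. -/
def epos (c : X.Idx) : ℤ := 2 * (c.2 : ℤ) - X.lev c.1

/-- The Tate twist of the `j`-th copy of `Y a` is `lev a - j`. -/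
def etw (c : X.Idx) : ℤ := X.lev c.1 - (c.2 : ℤ)

/-- `T` from the `(j - s)`-th to the `j`-th copies. -/
def lift (s : ℕ) (T : TEnd W X.Y) : TEnd W X.EY := liftOf W X.Y X.lev s T

/-- The differential. -/
def ed : TEnd W X.EY := diffOf W X.Y X.lev X.res X.gys

/-- The monodromy operator. -/
def eN : TEnd W X.EY := X.lift 1 LinearMap.id

/-- The Lefschetz operator. -/
def eL : TEnd W X.EY := X.lift 0 X.L

/-- The dual Lefschetz operator. -/
def eLam : TEnd W X.EY := X.lift 0 X.Lam

/-- The dual of the monodromy operator. -/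
def eNd : TEnd W X.EY := dualOf W X.Y X.lev

end Str

end Pool.Agent.HD82
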