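import Pool.Agent.W_f569db_hd.StrB
import Pool.Agent.W_a3c811_h62w.StrataC

/-! The pairing on the strata. -/

noncomputable section

set_option linter.unusedSectionVars false

namespace Pool.Agent.HD82

open Pool.Agent.WeilH_h6 Pool.Agent.WeilH_h6.VarClass Pool.Agent.H62D Pool.Agent.H62A
  Pool.Agent.H62S Pool.Agent.H79L

universe u v w

variable {k : Type u} [Field k] {𝒱 : VarClass k} {K : Type v} [Field K]
  [CharZero K] {W : Weil.{u, v, w} 𝒱 K} (X : Str W)

namespace Str

lemma adj_gys (x y : Tot W X.Y) :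
    ∑ a, W.deg (X.gys x a * y a) = ∑ a, W.deg (x a * X.res y a) := X.adjoint.2.1 x y

lemma tform_deg (w : ℤ) (x y : Tot W X.Y) :
    tform W X.Y (degProj W X.Y X.ilev 0 w x) y =
      tform W X.Y x (degProj W X.Y X.ilev 0 (2 * X.n - w) y) := by
  rw [tform_apply, tform_apply]
  refine Finset.sum_congr rfl fun a _ => ?_
  rw [Proj_degProj_apply, Proj_degProj_apply]
  have h1 := tr_kapZ W (w - X.ilev a - 2 * (0 : X.J → ℤ) a) (x a) (y a)
  have h2 : 2 * ((X.Y a).dim : ℤ) - (w - X.ilev a - 2 * (0 : X.J → ℤ) a) =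
      2 * X.n - w - X.ilev a - 2 * (0 : X.J → ℤ) a := by
    have := X.dim_eq a
    unfold ilev
    simp only [Pi.zero_apply]
    omega
  rw [h2] at h1
  exact h1

/-- the strata as a representation of `sl2` -/
lemma exists_sl : ∃ P : Finset ℤ, Sl (X.L) (X.Lam)
    (fun p => degProj W X.Y X.ilev 0 (p + X.n)) P := by
  obtain ⟨D, hD⟩ := exists_sum_degProj W X.Y X.ilev 0
  refine ⟨D.image fun w => w - X.n, ?_, ?_, ?_, ?_, ?_, ?_⟩
  · rw [Finset.sum_image (fun a _ b _ hab => by simpa using hab)]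
    simp only [sub_add_cancel]
    exact hD
  · intro p
    exact LinearMap.ext fun x => degProj_of_mem _ _ _ _ (degProj_mem _ _ _ _ _ _)
  · intro p p' hp
    refine LinearMap.ext fun x => ?_
    exact Proj_degProj_of_mem_ne _ _ _ _ (by omega) (degProj_mem W X.Y X.ilev 0 (p' + X.n) x)
  · intro p
    refine LinearMap.ext fun x => ?_
    have h := X.lefschetz (p + X.n) _ (degProj_mem W X.Y X.ilev 0 (p + X.n) x)
    have h1 : ((p + (X.n : ℤ) - X.n : ℤ) : K) = (p : K) := by push_cast; ring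
    rw [h1] at h
    exact h
  · intro p
    have h := comp_degProj W X.Y X.ilev 0 X.bidegree.2.2.1 (p + X.n)
    rw [show p + (X.n : ℤ) + 2 = p + 2 + X.n by ring] at h
    exact h
  · intro p
    have h := comp_degProj W X.Y X.ilev 0 X.bidegree.2.2.2 (p + X.n)
    rw [show p + (X.n : ℤ) + -2 = p - 2 + X.n by ring] at h
    exact h

lemma adj_Lam (x y : Tot W X.Y) :
    ∑ a, W.deg (X.Lam x a * y a) = ∑ a, W.deg (x a * X.Lam y a) := by
  obtain ⟨P, hP⟩ := X.exists_sl
  refine hP.adj_f (tform W X.Y) (tform_nd W X.Y) (fun x y => X.adjoint.2.2 x y) ?_ x y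
  intro p x y
  change tform W X.Y (degProj W X.Y X.ilev 0 (p + X.n) x) y =
    tform W X.Y x (degProj W X.Y X.ilev 0 (-p + X.n) y)
  rw [X.tform_deg, show 2 * (X.n : ℤ) - (p + X.n) = -p + X.n by ring]

end Str

end Pool.Agent.HD82
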