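import Pool.Agent.W_f569db_hd.StrC

/-! The form on the `E_1`-term. -/

noncomputable section

set_option linter.unusedSectionVars false

namespace Pool.Agent.HD82

open Pool.Agent.WeilH_h6 Pool.Agent.WeilH_h6.VarClass Pool.Agent.H62D Pool.Agent.H62A
  Pool.Agent.H62S
  Pool.Agent.H79L

universe u v w

variable {k : Type u} [Field k] {𝒱 : VarClass k} {K : Type v} [Field K]
  [CharZero K] {W : Weil.{u, v, w} 𝒱 K} (X : Str W)

namespace Str

section single


lemma lform_gys (r : ℕ) (x y : Tot W X.Y) :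
    X.lform r (X.gys x) y = X.lform (r + 1) x (X.res y) := by
  rw [lform_eq, X.adj_gys x, lform_eq]
  refine Finset.sum_congr rfl fun a _ => ?_
  have h1 := X.shift_res (r : ℤ)
  have h2 := LinearMap.congr_fun h1 y
  rw [LinearMap.comp_apply, LinearMap.comp_apply] at h2
  push_cast
  rw [h2]

lemma lform_Lam (r : ℕ) (x y : Tot W X.Y) :
    X.lform r (X.Lam x) y = X.lform r x (X.Lam y) := by
  rw [lform_eq, X.adj_Lam x, lform_eq]
  refine Finset.sum_congr rfl fun a _ => ?_
  have h1 := X.shift_Lam (r : ℤ)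
  have h2 := LinearMap.congr_fun h1 y
  rw [LinearMap.comp_apply, LinearMap.comp_apply, add_zero] at h2
  rw [h2]

lemma slice_lift_gen (s : ℕ) (T : TEnd W X.Y) (x : Tot W X.EY) (j r : ℕ) (hr : j ≤ r)
    (y : Tot W X.Y) : X.lform r (X.slice j (X.lift s T x)) y =
      if s ≤ j then X.lform r (T (X.slice (j - s) x)) y else 0 := by
  by_cases hs : s ≤ j
  · rw [if_pos hs]
    refine X.lform_congr (fun a ha => ?_) (fun a _ => rfl)
    rw [slice_lift X _ _ _ _ _ (by omega), if_pos hs]
  · rw [if_neg hs, ← X.lform_zero_left r y]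
    refine X.lform_congr (fun a ha => ?_) (fun a _ => rfl)
    rw [slice_lift X _ _ _ _ _ (by omega), if_neg hs]
    rfl

lemma slice_lift_gen' (s : ℕ) (T : TEnd W X.Y) (y : Tot W X.EY) (j r : ℕ) (hr : j ≤ r)
    (x : Tot W X.Y) : X.lform r x (X.slice j (X.lift s T y)) =
      if s ≤ j then X.lform r x (T (X.slice (j - s) y)) else 0 := by
  by_cases hs : s ≤ j
  · rw [if_pos hs]
    refine X.lform_congr (fun a _ => rfl) (fun a ha => ?_)
    rw [slice_lift X _ _ _ _ _ (by omega), if_pos hs]
  · rw [if_neg hs, ← X.lform_zero_right r x]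
    refine X.lform_congr (fun a _ => rfl) (fun a ha => ?_)
    rw [slice_lift X _ _ _ _ _ (by omega), if_neg hs]
    rfl

lemma eform_lift0 {T : TEnd W X.Y}
    (hT : ∀ r x y, X.lform r (T x) y = X.lform r x (T y)) (x y : Tot W X.EY) :
    X.eform (X.lift 0 T x) y = X.eform x (X.lift 0 T y) := by
  unfold eform
  refine Finset.sum_congr rfl fun i _ => Finset.sum_congr rfl fun j _ => ?_
  rw [X.slice_lift_gen _ _ _ _ _ (by omega), X.slice_lift_gen' _ _ _ _ _ (by omega),
    if_pos (Nat.zero_le _), if_pos (Nat.zero_le _), hT]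
  rfl

lemma eform_eL (x y : Tot W X.EY) : X.eform (X.eL x) y = X.eform x (X.eL y) :=
  X.eform_lift0 (X.lform_L) x y

lemma eform_eLam (x y : Tot W X.EY) :
    X.eform (X.eLam x) y = X.eform x (X.eLam y) :=
  X.eform_lift0 (X.lform_Lam) x y

/-- `lift 1 T` is adjoint to `lift 0 T'` if `T` raises the level by one and `T'` is its adjoint -/
lemma eform_lift1 {T T' : TEnd W X.Y}
    (hT : ∀ r x y, X.lform (r + 1) (T x) y = X.lform r x (T' y))
    (hT' : ∀ x a, X.lev a = X.n → T' x a = 0) (x y : Tot W X.EY) :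
    X.eform (X.lift 1 T x) y = X.eform x (X.lift 0 T' y) := by
  unfold eform
  have h1 : ∑ i ∈ Finset.range (X.n + 1), ∑ j ∈ Finset.range (X.n + 1),
      X.lform (i + j) (X.slice i (X.lift 1 T x)) (X.slice j y) =
      ∑ i ∈ Finset.range X.n, ∑ j ∈ Finset.range (X.n + 1),
        X.lform (i + j) (X.slice i x) (T' (X.slice j y)) := by
    rw [Finset.sum_range_succ']
    have h0 : ∑ j ∈ Finset.range (X.n + 1),
        X.lform (0 + j) (X.slice 0 (X.lift 1 T x)) (X.slice j y) = 0 := by
      refine Finset.sum_eq_zero fun j _ => ?_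
      rw [X.slice_lift_gen _ _ _ _ _ (by omega), if_neg (by omega)]
    rw [h0, add_zero]
    refine Finset.sum_congr rfl fun i _ => Finset.sum_congr rfl fun j _ => ?_
    rw [X.slice_lift_gen _ _ _ _ _ (by omega), if_pos (by omega), Nat.add_sub_cancel,
      show i + 1 + j = i + j + 1 by ring, hT]
  rw [h1, Finset.sum_range_succ]
  have h2 : ∑ j ∈ Finset.range (X.n + 1),
      X.lform (X.n + j) (X.slice X.n x) (X.slice j (X.lift 0 T' y)) = 0 := by
    refine Finset.sum_eq_zero fun j _ => ?_
    rw [X.slice_lift_gen' _ _ _ _ _ (by omega), if_pos (Nat.zero_le _)]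
    rcases Nat.eq_zero_or_pos j with rfl | hj
    · rw [← X.lform_zero_right (X.n + 0) (X.slice X.n x)]
      refine X.lform_congr (fun a _ => rfl) (fun a ha => ?_)
      exact hT' _ a (by omega)
    · exact X.lform_big (by omega) _ _
  rw [h2, add_zero]
  refine Finset.sum_congr rfl fun i _ => Finset.sum_congr rfl fun j _ => ?_
  rw [X.slice_lift_gen' _ _ _ _ _ (by omega), if_pos (Nat.zero_le _)]
  rfl

lemma eform_lift1' {T T' : TEnd W X.Y}
    (hT : ∀ r x y, X.lform r (T' x) y = X.lform (r + 1) x (T y))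
    (hT' : ∀ x a, X.lev a = X.n → T' x a = 0) (x y : Tot W X.EY) :
    X.eform (X.lift 0 T' x) y = X.eform x (X.lift 1 T y) := by
  unfold eform
  have h1 : ∑ i ∈ Finset.range (X.n + 1), ∑ j ∈ Finset.range (X.n + 1),
      X.lform (i + j) (X.slice i x) (X.slice j (X.lift 1 T y)) =
      ∑ i ∈ Finset.range (X.n + 1), ∑ j ∈ Finset.range X.n,
        X.lform (i + j) (T' (X.slice i x)) (X.slice j y) := by
    refine Finset.sum_congr rfl fun i _ => ?_
    rw [Finset.sum_range_succ']
    have h0 : X.lform (i + 0) (X.slice i x) (X.slice 0 (X.lift 1 T y)) = 0 := by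
      rw [X.slice_lift_gen' _ _ _ _ _ (by omega), if_neg (by omega)]
    rw [h0, add_zero]
    refine Finset.sum_congr rfl fun j _ => ?_
    rw [X.slice_lift_gen' _ _ _ _ _ (by omega), if_pos (by omega), Nat.add_sub_cancel,
      ← add_assoc, ← hT]
  rw [h1]
  refine Finset.sum_congr rfl fun i _ => ?_
  rw [Finset.sum_range_succ]
  have h2 : X.lform (i + X.n) (X.slice i (X.lift 0 T' x)) (X.slice X.n y) = 0 := by
    rw [X.slice_lift_gen _ _ _ _ _ (by omega), if_pos (Nat.zero_le _)]
    rcases Nat.eq_zero_or_pos i with rfl | hj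
    · rw [← X.lform_zero_left (0 + X.n) (X.slice X.n y)]
      refine X.lform_congr (fun a ha => ?_) (fun a _ => rfl)
      exact hT' _ a (by omega)
    · exact X.lform_big (by omega) _ _
  rw [h2, add_zero]
  refine Finset.sum_congr rfl fun j _ => ?_
  rw [X.slice_lift_gen _ _ _ _ _ (by omega), if_pos (Nat.zero_le _)]
  rfl

lemma gys_top (x : Tot W X.Y) (a : X.J) (ha : X.lev a = X.n) : X.gys x a = 0 := by
  have h1 : X.gys x a = X.gys 0 a := by
    refine (X.shift_gys).eq X fun b hb => ?_
    have := X.lev_le b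
    unfold ilev at hb
    omega
  rw [h1, map_zero]
  rfl

lemma eform_add_left (x x' y : Tot W X.EY) :
    X.eform (x + x') y = X.eform x y + X.eform x' y := by
  unfold eform lform
  simp only [map_add, Pi.add_apply, add_mul, ← Finset.sum_add_distrib]
  refine Finset.sum_congr rfl fun i _ => Finset.sum_congr rfl fun j _ =>
    Finset.sum_congr rfl fun a _ => ?_
  split_ifs
  · rfl
  · rw [add_zero]

lemma eform_add_right (x y y' : Tot W X.EY) :
    X.eform x (y + y') = X.eform x y + X.eform x y' := by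
  unfold eform lform
  simp only [map_add, Pi.add_apply, mul_add, ← Finset.sum_add_distrib]
  refine Finset.sum_congr rfl fun i _ => Finset.sum_congr rfl fun j _ =>
    Finset.sum_congr rfl fun a _ => ?_
  split_ifs
  · rfl
  · rw [add_zero]

lemma eform_smul_left (c : K) (x y : Tot W X.EY) :
    X.eform (c • x) y = c * X.eform x y := by
  unfold eform lform
  simp only [map_smul, Pi.smul_apply, smul_mul_assoc, Finset.mul_sum]
  refine Finset.sum_congr rfl fun i _ => Finset.sum_congr rfl fun j _ =>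
    Finset.sum_congr rfl fun a _ => ?_
  split_ifs
  · rfl
  · rw [mul_zero]

lemma eform_smul_right (c : K) (x y : Tot W X.EY) :
    X.eform x (c • y) = c * X.eform x y := by
  unfold eform lform
  simp only [map_smul, Pi.smul_apply, mul_smul_comm, Finset.mul_sum]
  refine Finset.sum_congr rfl fun i _ => Finset.sum_congr rfl fun j _ =>
    Finset.sum_congr rfl fun a _ => ?_
  split_ifs
  · rfl
  · rw [mul_zero]

lemma eform_ed (x y : Tot W X.EY) : X.eform (X.ed x) y = X.eform x (X.ed y) := by
  rw [X.ed_eq]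
  rw [LinearMap.add_apply, LinearMap.add_apply, eform_add_left, eform_add_right,
    X.eform_lift1 (X.lform_res) (X.gys_top), X.eform_lift1' (X.lform_gys) (X.gys_top),
    add_comm]

lemma eform_eNd (x y : Tot W X.EY) :
    X.eform (X.eNd x) y = X.eform x (X.eNd y) := by
  have key : ∀ (i j : ℕ) (u : Tot W X.Y), X.lform (i + j) (X.slice i (X.eNd x)) u =
      (((i + 1) * j : ℕ) : K) * X.lform (i + j) (X.slice (i + 1) x) u := by
    intro i j u
    unfold lform
    rw [Finset.mul_sum]
    refine Finset.sum_congr rfl fun a _ => ?_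
    split_ifs with ha
    · rw [slice_eNd X _ _ _ (by omega), show X.lev a - i = j by omega, smul_mul_assoc]
      exact map_smul (W.tr _) _ _
    · rw [mul_zero]
  have key' : ∀ (i j : ℕ) (u : Tot W X.Y), X.lform (i + j) u (X.slice j (X.eNd y)) =
      (((j + 1) * i : ℕ) : K) * X.lform (i + j) u (X.slice (j + 1) y) := by
    intro i j u
    unfold lform
    rw [Finset.mul_sum]
    refine Finset.sum_congr rfl fun a _ => ?_
    split_ifs with ha
    · rw [slice_eNd X _ _ _ (by omega), show X.lev a - j = i by omega, mul_smul_comm]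
      exact map_smul (W.tr _) _ _
    · rw [mul_zero]
  unfold eform
  simp only [key, key']
  -- both sides are `∑ (i + 1) (j + 1) lform (i + 1 + j) (slice (i + 1) x) (slice (j + 1) y)`
  have h1 : ∀ i ∈ Finset.range (X.n + 1), ∑ j ∈ Finset.range (X.n + 1),
      (((i + 1) * j : ℕ) : K) * X.lform (i + j) (X.slice (i + 1) x) (X.slice j y) =
      ∑ j ∈ Finset.range (X.n + 1), (((i + 1) * (j + 1) : ℕ) : K) *
        X.lform (i + 1 + j) (X.slice (i + 1) x) (X.slice (j + 1) y) := by
    intro i _
    rw [Finset.sum_range_succ', mul_zero, Nat.cast_zero, zero_mul, add_zero,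
      Finset.sum_range_succ]
    have h0 : X.lform (i + 1 + X.n) (X.slice (i + 1) x) (X.slice (X.n + 1) y) = 0 :=
      X.lform_big (by omega) _ _
    rw [h0, mul_zero, add_zero]
    refine Finset.sum_congr rfl fun j _ => ?_
    rw [show i + (j + 1) = i + 1 + j by ring]
  rw [Finset.sum_congr rfl h1]
  have h2 : ∑ i ∈ Finset.range (X.n + 1), ∑ j ∈ Finset.range (X.n + 1),
      (((j + 1) * i : ℕ) : K) * X.lform (i + j) (X.slice i x) (X.slice (j + 1) y) =
      ∑ i ∈ Finset.range (X.n + 1), ∑ j ∈ Finset.range (X.n + 1),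
        (((i + 1) * (j + 1) : ℕ) : K) *
          X.lform (i + 1 + j) (X.slice (i + 1) x) (X.slice (j + 1) y) := by
    rw [Finset.sum_range_succ']
    have h0 : ∑ j ∈ Finset.range (X.n + 1), (((j + 1) * 0 : ℕ) : K) *
        X.lform (0 + j) (X.slice 0 x) (X.slice (j + 1) y) = 0 :=
      Finset.sum_eq_zero fun j _ => by rw [mul_zero, Nat.cast_zero, zero_mul]
    rw [h0, add_zero, Finset.sum_range_succ]
    have h3 : ∑ j ∈ Finset.range (X.n + 1), (((X.n + 1) * (j + 1) : ℕ) : K) *
        X.lform (X.n + 1 + j) (X.slice (X.n + 1) x) (X.slice (j + 1) y) = 0 :=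
      Finset.sum_eq_zero fun j _ => by rw [X.lform_big (by omega), mul_zero]
    rw [h3, add_zero]
    refine Finset.sum_congr rfl fun i _ => Finset.sum_congr rfl fun j _ => ?_
    rw [mul_comm (i + 1) (j + 1)]
  rw [h2]

end single

end Str

end Pool.Agent.HD82
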