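import Pool.Agent.W_f569db_hd.StrD

/-! The `E_1`-term of a semistable degeneration with its Lefschetz operators and its form. -/

noncomputable section

set_option linter.unusedSectionVars false

namespace Pool.Agent.HD82

open Pool.Agent.WeilH_h6 Pool.Agent.WeilH_h6.VarClass Pool.Agent.H62D Pool.Agent.H62A
  Pool.Agent.H62S
  Pool.Agent.H79L

universe u v w

variable {k : Type u} [Field k] {𝒱 : VarClass k} {K : Type v} [Field K]
  [CharZero K] {W : Weil.{u, v, w} 𝒱 K} (X : Str W)

namespace Str

section single


/-- the form on the `E_1`-term as a bilinear map -/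
def eS : Tot W X.EY →ₗ[K] Tot W X.EY →ₗ[K] K :=
  LinearMap.mk₂ K (X.eform) (X.eform_add_left) (X.eform_smul_left)
    (X.eform_add_right) (X.eform_smul_right)

lemma eS_apply (x y : Tot W X.EY) : X.eS x y = X.eform x y := rfl

/-- the form on the `E_1`-term as a sum over the copies: the `j`-th copy of `Y a` is paired with the
`(lev a - j)`-th one -/
lemma eform_eq (x y : Tot W X.EY) : X.eform x y =
    ∑ a, ∑ i ∈ Finset.range (X.lev a + 1),
      W.deg (X.slice i x a * X.slice (X.lev a - i) y a) := by
  unfold eform lform
  have h1 : ∀ i ∈ Finset.range (X.n + 1), ∑ j ∈ Finset.range (X.n + 1), (∑ a, if X.lev a = i + j then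
      W.deg (X.slice i x a * X.slice j y a) else 0) =
      ∑ a, if i ≤ X.lev a then W.deg (X.slice i x a * X.slice (X.lev a - i) y a)
        else 0 := by
    intro i _
    rw [Finset.sum_comm]
    refine Finset.sum_congr rfl fun a _ => ?_
    by_cases hi : i ≤ X.lev a
    · rw [if_pos hi, Finset.sum_eq_single (X.lev a - i)]
      · rw [if_pos (by omega)]
      · intro j _ hj
        rw [if_neg (by omega)]
      · intro h
        have := X.lev_le a
        exact absurd (Finset.mem_range.2 (by omega)) h
    · rw [if_neg hi]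
      refine Finset.sum_eq_zero fun j _ => ?_
      rw [if_neg (by omega)]
  rw [Finset.sum_congr rfl h1, Finset.sum_comm]
  refine Finset.sum_congr rfl fun a _ => ?_
  rw [← Finset.sum_filter]
  refine Finset.sum_congr ?_ fun _ _ => rfl
  ext i
  have := X.lev_le a
  simp only [Finset.mem_filter, Finset.mem_range]
  omega

/-- `[N, f] = p` in position `p` -/
lemma eN_triple (p : ℤ) (x : Tot W X.EY) (hx : x ∈ posPart W X.EY X.epos p) :
    X.eN (X.eNd x) - X.eNd (X.eN x) = (p : K) • x := by
  funext c
  have h1 := X.eN_eNd x c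
  have h2 : x c ∈ (if X.epos c = p then ⊤ else ⊥ : Submodule K (W.H (X.EY c))) :=
    hx c (Set.mem_univ c)
  rw [h1, Pi.smul_apply]
  by_cases hc : X.epos c = p
  · rw [hc]
  · rw [if_neg hc, Submodule.mem_bot] at h2
    rw [h2, smul_zero, smul_zero]

end single

end Str

end Pool.Agent.HD82
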